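import Mathlib

/-!
# Decision trees over `ℝ` and `ℂ` for the square root sum problem

Basic definitions and the general reduction: if no nonzero test polynomial of a decision tree
vanishes on the set `RootSum K n`, then the tree errs arbitrarily close to every point of this set.
-/

set_option autoImplicit false

open MvPolynomial Topology

namespace Pool.Agent.T9h67.BSS

/-- A decision tree over `K` with `n` inputs. An inner node has a test polynomial `g` and a subtree
for each possible outcome of the test; a leaf has the answer. -/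
inductive Tree (K : Type) [CommSemiring K] (n : ℕ) (ι : Type) : Type
  | leaf (answer : Bool) : Tree K n ι
  | node (g : MvPolynomial (Fin n) K) (next : ι → Tree K n ι) : Tree K n ι

namespace Tree

variable {K : Type} [CommSemiring K] {n : ℕ} {ι : Type}

/-- The answer of the tree on input `x`. At a node with test polynomial `g` the computation
continues in the subtree `next (σ (g x))`. -/
noncomputable def run (σ : K → ι) : Tree K n ι → (Fin n → K) → Bool
  | leaf b, _ => b
  | node g next, x => run σ (next (σ (eval x g))) x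

/-- Every test polynomial of the tree has the property `P`. -/
def Tests (P : MvPolynomial (Fin n) K → Prop) : Tree K n ι → Prop
  | leaf _ => True
  | node g next => P g ∧ ∀ a, Tests P (next a)

theorem Tests.mono {P Q : MvPolynomial (Fin n) K → Prop} (h : ∀ g, P g → Q g) :
    ∀ {T : Tree K n ι}, T.Tests P → T.Tests Q
  | leaf _, _ => trivial
  | node _ _, hT => ⟨h _ hT.1, fun a => Tests.mono h (hT.2 a)⟩

end Tree

/-- The square root sum problem: `x` is a yes-instance if one can choose square roots `y i` of the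
`x i` in `K` with `∑ i, y i = 1`. -/
def RootSum (K : Type) [CommSemiring K] (n : ℕ) : Set (Fin n → K) :=
  {x | ∃ y : Fin n → K, (∀ i, y i ^ 2 = x i) ∧ ∑ i, y i = 1}

/-- The point with coordinates `y i ^ 2`. -/
def sq {K : Type} [CommSemiring K] {n : ℕ} (y : Fin n → K) : Fin n → K := fun i => y i ^ 2

section field

variable {K : Type} [Field K] {n : ℕ}

/-- `g` vanishes on `RootSum K n`. -/
def Vanish (g : MvPolynomial (Fin n) K) : Prop := ∀ y : Fin n → K, ∑ i, y i = 1 → eval (sq y) g = 0

/-- The point on the line through `a` and `b` with parameter `s`. -/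
def pt (a b : Fin n → K) (s : K) : Fin n → K := fun i => a i + s * (b i - a i)

theorem sum_pt {a b : Fin n → K} (ha : ∑ i, a i = 1) (hb : ∑ i, b i = 1) (s : K) :
    ∑ i, pt a b s i = 1 := by
  unfold pt
  rw [Finset.sum_add_distrib, ← Finset.mul_sum, Finset.sum_sub_distrib, ha, hb]
  ring

/-- The restriction of `g (y ^ 2)` to a line. -/
noncomputable def lineP (g : MvPolynomial (Fin n) K) (a b : Fin n → K) : Polynomial K :=
  aeval (fun i => (Polynomial.C (a i) + Polynomial.X * Polynomial.C (b i - a i)) ^ 2) g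

theorem eval_lineP (g : MvPolynomial (Fin n) K) (a b : Fin n → K) (s : K) :
    (lineP g a b).eval s = eval (sq (pt a b s)) g := by
  unfold lineP
  rw [← Polynomial.coe_evalRingHom, MvPolynomial.aeval_def, MvPolynomial.eval₂_comp_left]
  · rw [MvPolynomial.eval, MvPolynomial.coe_eval₂Hom]
    congr 1
    · ext c
      simp
    · ext i
      simp [sq, pt]

theorem pt_zero (a b : Fin n → K) : pt a b 0 = a := by
  funext i; simp [pt]

theorem pt_one (a b : Fin n → K) : pt a b 1 = b := by
  funext i; simp [pt]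

theorem not_vanish_iff (g : MvPolynomial (Fin n) K) :
    ¬ Vanish g ↔ ∃ y : Fin n → K, ∑ i, y i = 1 ∧ eval (sq y) g ≠ 0 := by
  unfold Vanish
  push Not
  rfl

theorem not_vanish_mul [Infinite K] {g h : MvPolynomial (Fin n) K} (hg : ¬ Vanish g)
    (hh : ¬ Vanish h) : ¬ Vanish (g * h) := by
  rw [not_vanish_iff] at hg hh ⊢
  obtain ⟨a, ha, hga⟩ := hg
  obtain ⟨b, hb, hhb⟩ := hh
  have h1 : lineP g a b ≠ 0 := by
    intro h0
    apply hga
    have := eval_lineP g a b 0
    rw [h0, pt_zero] at this
    simpa using this.symm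
  have h2 : lineP h a b ≠ 0 := by
    intro h0
    apply hhb
    have := eval_lineP h a b 1
    rw [h0, pt_one] at this
    simpa using this.symm
  obtain ⟨s, hs⟩ : ∃ s, (lineP g a b * lineP h a b).eval s ≠ 0 := by
    by_contra hcon
    push Not at hcon
    exact mul_ne_zero h1 h2 (Polynomial.funext (by simpa using hcon))
  refine ⟨pt a b s, sum_pt ha hb s, ?_⟩
  rw [Polynomial.eval_mul, eval_lineP, eval_lineP] at hs
  rwa [map_mul]

theorem not_vanish_one (hn : 1 ≤ n) : ¬ Vanish (1 : MvPolynomial (Fin n) K) := by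
  rw [not_vanish_iff]
  refine ⟨Pi.single ⟨0, hn⟩ 1, ?_, by simp⟩
  simp

theorem not_vanish_prod [Infinite K] (hn : 1 ≤ n) {α : Type} (s : Finset α)
    (f : α → MvPolynomial (Fin n) K) (h : ∀ a ∈ s, ¬ Vanish (f a)) : ¬ Vanish (∏ a ∈ s, f a) := by
  classical
  induction s using Finset.induction_on with
  | empty => simpa using not_vanish_one hn
  | insert a s ha ih =>
    rw [Finset.prod_insert ha]
    exact not_vanish_mul (h a (Finset.mem_insert_self _ _))
      (ih fun b hb => h b (Finset.mem_insert_of_mem hb))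

theorem vanish_list_prod [Infinite K] (hn : 1 ≤ n) (L : List (MvPolynomial (Fin n) K))
    (h : Vanish L.prod) : ∃ p ∈ L, Vanish p := by
  induction L with
  | nil => exact absurd (by simpa using h) (not_vanish_one hn)
  | cons a L ih =>
    rw [List.prod_cons] at h
    by_cases ha : Vanish a
    · exact ⟨a, List.mem_cons_self, ha⟩
    · have : Vanish L.prod := by
        by_contra hL
        exact not_vanish_mul ha hL h
      obtain ⟨p, hp, hv⟩ := ih this
      exact ⟨p, List.mem_cons_of_mem _ hp, hv⟩

/-- If no nonzero test polynomial vanishes on `RootSum`, then there is one polynomial with this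
property such that at its non-zeros all nonzero test polynomials do not vanish. -/
theorem exists_common [Infinite K] (hn : 1 ≤ n) {ι : Type} [Finite ι] (T : Tree K n ι)
    (hT : T.Tests fun g => Vanish g → g = 0) :
    ∃ G : MvPolynomial (Fin n) K, ¬ Vanish G ∧
      ∀ x, eval x G ≠ 0 → T.Tests fun g => g = 0 ∨ eval x g ≠ 0 := by
  classical
  have := Fintype.ofFinite ι
  induction T with
  | leaf b => exact ⟨1, not_vanish_one hn, fun _ _ => trivial⟩
  | node g next ih =>
    choose G hG hG2 using fun a => ih a (hT.2 a)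
    refine ⟨(if g = 0 then 1 else g) * ∏ a, G a, ?_, ?_⟩
    · refine not_vanish_mul ?_ (not_vanish_prod hn _ _ fun a _ => hG a)
      split_ifs with h
      · exact not_vanish_one hn
      · exact fun hv => h (hT.1 hv)
    · intro x hx
      rw [map_mul, map_prod] at hx
      refine ⟨?_, fun a => hG2 a x ?_⟩
      · by_cases h : g = 0
        · exact Or.inl h
        · right
          rw [if_neg h] at hx
          exact left_ne_zero_of_mul hx
      · exact Finset.prod_ne_zero_iff.1 (right_ne_zero_of_mul hx) a (Finset.mem_univ a)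

end field

section topology

variable {K : Type} [RCLike K] {n : ℕ}

theorem finite_near {p : Polynomial K} (hp : p ≠ 0) : ∀ᶠ s in 𝓝[≠] (0 : K), p.eval s ≠ 0 := by
  have hfin : {s : K | p.eval s = 0}.Finite := by
    refine (p.roots.toFinset.finite_toSet).subset ?_
    intro s hs
    simpa [hp] using hs
  have h2 : ({s : K | p.eval s = 0} \ {0}).Finite := hfin.subset Set.sdiff_subset
  have h3 : ({s : K | p.eval s = 0} \ {0})ᶜ ∈ 𝓝 (0 : K) :=
    h2.isClosed.isOpen_compl.mem_nhds (by simp)
  filter_upwards [mem_nhdsWithin_of_mem_nhds h3, self_mem_nhdsWithin] with s hs hs0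
  intro h
  exact hs ⟨h, hs0⟩

theorem continuous_sq_pt (a b : Fin n → K) : Continuous fun s : K => sq (pt a b s) := by
  unfold sq pt
  fun_prop

theorem exists_near {g : MvPolynomial (Fin n) K} (hg : ¬ Vanish g) {y : Fin n → K}
    (hy : ∑ i, y i = 1) {U : Set (Fin n → K)} (hU : U ∈ 𝓝 (sq y)) :
    ∃ z : Fin n → K, ∑ i, z i = 1 ∧ sq z ∈ U ∧ eval (sq z) g ≠ 0 := by
  rw [not_vanish_iff] at hg
  obtain ⟨b, hb, hgb⟩ := hg
  have h1 : lineP g y b ≠ 0 := by
    intro h0
    apply hgb
    have := eval_lineP g y b 1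
    rw [h0, pt_one] at this
    simpa using this.symm
  have h2 : ∀ᶠ s in 𝓝[≠] (0 : K), sq (pt y b s) ∈ U := by
    have : Filter.Tendsto (fun s : K => sq (pt y b s)) (𝓝 0) (𝓝 (sq y)) := by
      have := (continuous_sq_pt y b).tendsto 0
      rwa [pt_zero] at this
    exact (this.eventually hU).filter_mono nhdsWithin_le_nhds
  obtain ⟨s, hs1, hs2⟩ := ((finite_near h1).and h2).exists
  refine ⟨pt y b s, sum_pt hy hb s, hs2, ?_⟩
  rwa [eval_lineP] at hs1

theorem exists_not_mem {y : Fin n → K} {U : Set (Fin n → K)} (hU : U ∈ 𝓝 (sq y)) :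
    ∃ x ∈ U, x ∉ RootSum K n := by
  classical
  let c : (Fin n → Bool) → K := fun ε => ∑ i, (if ε i then y i else - y i)
  have hne : ∀ ε, (Polynomial.C (c ε) * (1 - Polynomial.X) - 1 : Polynomial K) ≠ 0 := by
    intro ε h
    have := congrArg (Polynomial.eval 1) h
    simp at this
  have h1 : ∀ᶠ s in 𝓝[≠] (0 : K),
      ∀ ε, (Polynomial.C (c ε) * (1 - Polynomial.X) - 1 : Polynomial K).eval s ≠ 0 := by
    rw [Filter.eventually_all]
    exact fun ε => finite_near (hne ε)
  have h2 : ∀ᶠ s in 𝓝[≠] (0 : K), sq (pt y 0 s) ∈ U := by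
    have : Filter.Tendsto (fun s : K => sq (pt y 0 s)) (𝓝 0) (𝓝 (sq y)) := by
      have := (continuous_sq_pt y 0).tendsto 0
      rwa [pt_zero] at this
    exact (this.eventually hU).filter_mono nhdsWithin_le_nhds
  obtain ⟨s, hs1, hs2⟩ := (h1.and h2).exists
  refine ⟨_, hs2, ?_⟩
  rintro ⟨z, hz1, hz2⟩
  let ε : Fin n → Bool := fun i => decide (z i = (1 - s) * y i)
  apply hs1 ε
  have hz : ∀ i, z i = (1 - s) * (if ε i then y i else - y i) := by
    intro i
    have h3 : z i ^ 2 = ((1 - s) * y i) ^ 2 := by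
      rw [hz1 i]
      simp only [sq, pt, Pi.zero_apply]
      ring
    by_cases h4 : z i = (1 - s) * y i
    · simp [ε, h4]
    · rcases sq_eq_sq_iff_eq_or_eq_neg.1 h3 with h5 | h5
      · exact absurd h5 h4
      · simp only [ε, h4, decide_false, Bool.false_eq_true, if_false]
        rw [h5]; ring
  have h5 : (1 - s) * c ε = 1 := by
    have h6 : (1 - s) * c ε = ∑ i, z i := by
      rw [Finset.mul_sum]
      exact Finset.sum_congr rfl fun i _ => (hz i).symm
    rw [h6, hz2]
  simp only [Polynomial.eval_sub, Polynomial.eval_mul, Polynomial.eval_C, Polynomial.eval_one,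
    Polynomial.eval_X]
  linear_combination h5

theorem run_eventually {ι : Type} {σ : K → ι}
    (hσ : ∀ z, z ≠ 0 → ∀ᶠ z' in 𝓝 z, σ z' = σ z) (T : Tree K n ι) (x : Fin n → K)
    (h : T.Tests fun g => g = 0 ∨ eval x g ≠ 0) : ∀ᶠ x' in 𝓝 x, T.run σ x' = T.run σ x := by
  induction T with
  | leaf b => exact Filter.Eventually.of_forall fun _ => rfl
  | node g next ih =>
    have h1 : ∀ᶠ x' in 𝓝 x, σ (eval x' g) = σ (eval x g) := by
      rcases h.1 with h0 | h0
      · rw [h0]
        simp
      · have hc : Filter.Tendsto (fun x' => eval x' g) (𝓝 x) (𝓝 (eval x g)) :=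
          (MvPolynomial.continuous_eval g).tendsto x
        exact hc.eventually (hσ _ h0)
    filter_upwards [h1, ih (σ (eval x g)) (h.2 _)] with x' h2 h3
    simp only [Tree.run]
    rw [h2]
    exact h3

/-- **General reduction.** If no nonzero test polynomial of the tree vanishes on `RootSum K n`, then
the tree errs arbitrarily close to every point of `RootSum K n`. -/
theorem errs {ι : Type} [Finite ι] {σ : K → ι} (hσ : ∀ z, z ≠ 0 → ∀ᶠ z' in 𝓝 z, σ z' = σ z)
    (hn : 1 ≤ n) (T : Tree K n ι) (hT : T.Tests fun g => Vanish g → g = 0) :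
    RootSum K n ⊆ closure {x | ¬ (T.run σ x = true ↔ x ∈ RootSum K n)} := by
  rintro x ⟨y, hy1, hy2⟩
  have hx : x = sq y := by funext i; exact (hy1 i).symm
  rw [hx, mem_closure_iff_nhds]
  intro U hU
  obtain ⟨G, hG1, hG2⟩ := exists_common hn T hT
  obtain ⟨V, hVU, hVo, hVy⟩ := mem_nhds_iff.1 hU
  obtain ⟨z, hz1, hz2, hz3⟩ := exists_near hG1 hy2 (hVo.mem_nhds hVy)
  have h1 := run_eventually hσ T (sq z) (hG2 _ hz3)
  have h2 : V ∩ {x' | T.run σ x' = T.run σ (sq z)} ∈ 𝓝 (sq z) :=
    Filter.inter_mem (hVo.mem_nhds hz2) h1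
  obtain ⟨x', hx', hx'2⟩ := exists_not_mem h2
  have hzm : sq z ∈ RootSum K n := ⟨z, fun _ => rfl, hz1⟩
  by_cases hr : T.run σ (sq z) = true
  · refine ⟨x', hVU hx'.1, ?_⟩
    simp only [Set.mem_ofPred_eq]
    intro hiff
    apply hx'2
    apply hiff.1
    rw [← hr]
    exact hx'.2
  · refine ⟨sq z, hVU hz2, ?_⟩
    simp only [Set.mem_ofPred_eq]
    intro hiff
    exact hr (hiff.2 hzm)

end topology

end Pool.Agent.T9h67.BSS
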