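import Pool.Agent.T9h67.BSS.Wr

/-!
# Sums of power products which vanish on parallel lines
-/

set_option autoImplicit false

open Polynomial

namespace Pool.Agent.T9h67.BSS

variable {K : Type} [Field K] {κ ι : Type} [Fintype κ] [DecidableEq κ]
  (F : κ → K[X][X]) (e : ι → κ → ℕ)

/-- The matrix of the polynomials `U l r`, `r < s`, for a family of `s` terms. -/
noncomputable def MM {s : ℕ} (φ : Fin s → ι) : Matrix (Fin s) (Fin s) K[X][X] :=
  Matrix.of fun r a => UU F (e (φ a)) r

theorem exists_max [Fintype ι] : ∃ (s : ℕ) (φ : Fin s → ι), s ≤ Fintype.card ι ∧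
    (MM F e φ).det ≠ 0 ∧ ∀ ψ : Fin (s + 1) → ι, (MM F e ψ).det = 0 := by
  classical
  let P : ℕ → Prop := fun s => ∃ φ : Fin s → ι, (MM F e φ).det ≠ 0
  have hP0 : P 0 := ⟨fun a => a.elim0, by simp⟩
  have hPc : ∀ s, P s → s ≤ Fintype.card ι := by
    rintro s ⟨φ, hφ⟩
    have hinj : Function.Injective φ := by
      intro a b hab
      by_contra hne
      refine hφ (Matrix.det_zero_of_column_eq hne fun r => ?_)
      simp only [MM, Matrix.of_apply, hab]
    simpa using Fintype.card_le_of_injective φ hinj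
  set s := Nat.findGreatest P (Fintype.card ι) with hs
  have hPs : P s := Nat.findGreatest_spec (Nat.zero_le _) hP0
  obtain ⟨φ, hφ⟩ := hPs
  refine ⟨s, φ, Nat.findGreatest_le _, hφ, fun ψ => ?_⟩
  by_contra hψ
  have h1 : P (s + 1) := ⟨ψ, hψ⟩
  have h2 := Nat.le_findGreatest (hPc _ h1) h1
  omega

variable {F e}

theorem exists_dep {s : ℕ} {φ : Fin s → ι} (hφ : (MM F e φ).det ≠ 0)
    (hmax : ∀ ψ : Fin (s + 1) → ι, (MM F e ψ).det = 0) (m : ι) (r : ℕ) (hr : r ≤ s) :
    ∑ a, UU F (e (φ a)) r * (MM F e φ).cramer (fun r => UU F (e m) r) a =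
      (MM F e φ).det * UU F (e m) r := by
  classical
  set M := MM F e φ with hM
  set y := M.cramer (fun r => UU F (e m) r) with hy
  have hcr : ∀ r : Fin s, ∑ a, UU F (e (φ a)) r * y a = M.det * UU F (e m) r := by
    intro r
    have h1 := congrFun (Matrix.mulVec_cramer M (fun r => UU F (e m) r)) r
    simpa [Matrix.mulVec, dotProduct, hM, MM, hy] using h1
  obtain ⟨lam, hl0, hl⟩ := Matrix.exists_mulVec_eq_zero_iff.2 (hmax (Fin.cons m φ))
  have hrel : ∀ r : Fin (s + 1), UU F (e m) r * lam 0 +
      ∑ a : Fin s, UU F (e (φ a)) r * lam a.succ = 0 := by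
    intro r
    have h1 := congrFun hl r
    simpa [Matrix.mulVec, dotProduct, MM, Fin.sum_univ_succ] using h1
  have hl1 : lam 0 ≠ 0 := by
    intro h0
    have h1 : M.mulVec (fun a => lam a.succ) = 0 := by
      funext r
      have h2 := hrel r.castSucc
      rw [h0, mul_zero, zero_add] at h2
      simpa [Matrix.mulVec, dotProduct, hM, MM] using h2
    have h2 := Matrix.eq_zero_of_mulVec_eq_zero hφ h1
    apply hl0
    funext a
    refine Fin.cases h0 (fun a => ?_) a
    exact congrFun h2 a
  have hz : ∀ a, lam 0 * y a + lam a.succ * M.det = 0 := by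
    have h1 : M.mulVec (fun a => lam 0 * y a + lam a.succ * M.det) = 0 := by
      funext r
      have h2 := hrel r.castSucc
      have h3 := hcr r
      have h4 : M.mulVec (fun a => lam 0 * y a + lam a.succ * M.det) r =
          lam 0 * (∑ a, UU F (e (φ a)) r * y a) +
            M.det * ∑ a : Fin s, UU F (e (φ a)) r * lam a.succ := by
        simp only [Matrix.mulVec, dotProduct, hM, MM, Matrix.of_apply]
        rw [Finset.mul_sum, Finset.mul_sum, ← Finset.sum_add_distrib]
        refine Finset.sum_congr rfl fun a _ => ?_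
        ring
      rw [h4, h3, Pi.zero_apply]
      simp only [Fin.val_castSucc] at h2
      linear_combination M.det * h2
    intro a
    exact congrFun (Matrix.eq_zero_of_mulVec_eq_zero hφ h1) a
  refine mul_left_cancel₀ hl1 ?_
  have h2 := hrel ⟨r, by omega⟩
  simp only at h2
  have h3 : lam 0 * ∑ a, UU F (e (φ a)) r * y a =
      - (M.det * ∑ a : Fin s, UU F (e (φ a)) r * lam a.succ) := by
    rw [Finset.mul_sum, Finset.mul_sum, ← Finset.sum_neg_distrib]
    refine Finset.sum_congr rfl fun a _ => ?_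
    linear_combination (UU F (e (φ a)) r) * hz a
  rw [h3]
  linear_combination - M.det * h2

/-- The bound for the degrees of the determinants. -/
def Dl (s q : ℕ) : ℕ := ∑ r : Fin s, (r : ℕ) * q

theorem BU_det {d : κ → ℕ} (hd : ∀ k, BU (d k) (F k)) {s : ℕ} (φ : Fin s → ι) :
    BU (Dl s (∑ k, d k)) (MM F e φ).det :=
  BU.det _ _ fun r a => BU_UU F hd _ _

theorem natDegree_det' {d : κ → ℕ} (hd : ∀ k, (F k).natDegree ≤ d k) {s : ℕ} (φ : Fin s → ι) :
    (MM F e φ).det.natDegree ≤ Dl s (∑ k, d k) :=
  natDegree_det_le _ _ fun r a => natDegree_UU F hd _ _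

theorem BU_cramer {d : κ → ℕ} (hd : ∀ k, BU (d k) (F k)) {s : ℕ} (φ : Fin s → ι) (m : ι)
    (a : Fin s) : BU (Dl s (∑ k, d k)) ((MM F e φ).cramer (fun r => UU F (e m) r) a) := by
  rw [Matrix.cramer_apply]
  refine BU.det _ _ fun r a' => ?_
  rw [Matrix.updateCol_apply]
  split_ifs
  · exact BU_UU F hd _ _
  · exact BU_UU F hd _ _

theorem natDegree_cramer {d : κ → ℕ} (hd : ∀ k, (F k).natDegree ≤ d k) {s : ℕ} (φ : Fin s → ι)
    (m : ι) (a : Fin s) :
    ((MM F e φ).cramer (fun r => UU F (e m) r) a).natDegree ≤ Dl s (∑ k, d k) := by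
  rw [Matrix.cramer_apply]
  refine natDegree_det_le _ _ fun r a' => ?_
  rw [Matrix.updateCol_apply]
  split_ifs
  · exact natDegree_UU F hd _ _
  · exact natDegree_UU F hd _ _

theorem TT_ne_zero (hF : ∀ k, F k ≠ 0) (e : κ → ℕ) : TT F e ≠ 0 :=
  Finset.prod_ne_zero_iff.2 fun k _ => pow_ne_zero _ (hF k)

theorem QQ_ne_zero (hF : ∀ k, F k ≠ 0) : QQ F ≠ 0 := Finset.prod_ne_zero_iff.2 fun k _ => hF k

/-- The coefficients with respect to a maximal independent family are functions of `u`. -/
theorem exists_coprime [CharZero K] (hF : ∀ k, F k ≠ 0) {s : ℕ} {φ : Fin s → ι}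
    (hφ : (MM F e φ).det ≠ 0) (hmax : ∀ ψ : Fin (s + 1) → ι, (MM F e ψ).det = 0) (m : ι) :
    ∃ α β : Fin s → K[X], ∀ a, IsCoprime (α a) (β a) ∧ β a ≠ 0 ∧
      C (β a) * ((MM F e φ).cramer (fun r => UU F (e m) r) a * TT F (e m)) =
        C (α a) * ((MM F e φ).det * TT F (e (φ a))) := by
  classical
  set M := MM F e φ with hM
  set y := M.cramer (fun r => UU F (e m) r) with hy
  set P : K[X][X] := ∏ a, TT F (e (φ a)) with hP
  set E := M.det * P with hE
  have hP0 : P ≠ 0 := Finset.prod_ne_zero_iff.2 fun a _ => TT_ne_zero hF _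
  have hE0 : E ≠ 0 := mul_ne_zero hφ hP0
  set R : Fin s → K[X][X] := fun a => ∏ a' ∈ Finset.univ.erase a, TT F (e (φ a')) with hR
  have hR0 : ∀ a, R a ≠ 0 := fun a => Finset.prod_ne_zero_iff.2 fun a' _ => TT_ne_zero hF _
  have hPR : ∀ a, P = TT F (e (φ a)) * R a := fun a =>
    (Finset.mul_prod_erase _ _ (Finset.mem_univ a)).symm
  set c : Fin s → K[X][X] := fun a => y a * TT F (e m) * R a with hc
  have hdep := exists_dep hφ hmax m
  -- the relation for all derivatives of order at most `s`
  have h1 : ∀ r ≤ s, E * derivative^[r] (TT F (e m)) =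
      ∑ a, c a * derivative^[r] (TT F (e (φ a))) := by
    intro r hr
    refine mul_left_cancel₀ (pow_ne_zero r (QQ_ne_zero hF)) ?_
    have e1 : QQ F ^ r * (E * derivative^[r] (TT F (e m))) =
        P * TT F (e m) * (M.det * UU F (e m) r) := by
      rw [hE]
      linear_combination (M.det * P) * UU_spec F (e m) r
    rw [e1, ← hdep r hr, Finset.mul_sum, Finset.mul_sum]
    refine Finset.sum_congr rfl fun a _ => ?_
    rw [hPR a]
    simp only [hc]
    linear_combination (- y a * TT F (e m) * R a) * UU_spec F (e (φ a)) r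
  -- the derivatives of the coefficients vanish
  have h2 : ∀ a, E * derivative (c a) = derivative E * c a := by
    have h3 : ∀ r : Fin s, ∑ a, UU F (e (φ a)) r *
        (TT F (e (φ a)) * (E * derivative (c a) - derivative E * c a)) = 0 := by
      intro r
      have h4 := congrArg derivative (h1 r (by omega))
      have h5 := h1 (r + 1) (by omega)
      rw [derivative_mul, derivative_sum] at h4
      simp only [derivative_mul] at h4
      rw [Finset.sum_add_distrib] at h4
      simp only [← Function.iterate_succ_apply' derivative] at h4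
      rw [h5] at h4
      have h6 : derivative E * derivative^[r] (TT F (e m)) =
          ∑ a, derivative (c a) * derivative^[r] (TT F (e (φ a))) := by
        linear_combination h4
      have h7 : ∑ a, (E * derivative (c a) - derivative E * c a) *
          derivative^[r] (TT F (e (φ a))) = 0 := by
        have h8 : ∑ a, (E * derivative (c a) - derivative E * c a) *
            derivative^[r] (TT F (e (φ a))) =
            E * ∑ a, derivative (c a) * derivative^[r] (TT F (e (φ a))) -
            derivative E * ∑ a, c a * derivative^[r] (TT F (e (φ a))) := by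
          rw [Finset.mul_sum, Finset.mul_sum, ← Finset.sum_sub_distrib]
          refine Finset.sum_congr rfl fun a _ => ?_
          ring
        rw [h8, ← h6, ← h1 r (by omega)]
        ring
      have h9 := congrArg (fun p => QQ F ^ (r : ℕ) * p) h7
      simp only [mul_zero] at h9
      rw [← h9, Finset.mul_sum]
      refine Finset.sum_congr rfl fun a _ => ?_
      linear_combination (-(E * derivative (c a) - derivative E * c a)) *
        UU_spec F (e (φ a)) r
    have h4 : M.mulVec (fun a => TT F (e (φ a)) * (E * derivative (c a) - derivative E * c a)) =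
        0 := by
      funext r
      have := h3 r
      simpa [Matrix.mulVec, dotProduct, hM, MM] using this
    intro a
    have h5 := congrFun (Matrix.eq_zero_of_mulVec_eq_zero hφ h4) a
    have h6 := (mul_eq_zero.1 h5).resolve_left (TT_ne_zero hF _)
    exact sub_eq_zero.1 h6
  have h3 : ∀ a, ∃ α β : K[X], IsCoprime α β ∧ β ≠ 0 ∧
      C β * (y a * TT F (e m)) = C α * (M.det * TT F (e (φ a))) := by
    intro a
    have h4 := const_of_derivative hE0 (h2 a)
    have hq0 : E.leadingCoeff ≠ 0 := leadingCoeff_ne_zero.2 hE0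
    obtain ⟨g, p', q', hpe, hqe, hcop, hg0⟩ : ∃ g p' q' : K[X], p' * g = (c a).leadingCoeff ∧
        q' * g = E.leadingCoeff ∧ IsCoprime p' q' ∧ g ≠ 0 := by
      letI := UniqueFactorizationMonoid.toGCDMonoid K[X]
      have hg0 : GCDMonoid.gcd (c a).leadingCoeff E.leadingCoeff ≠ 0 := gcd_ne_zero_of_right hq0
      refine ⟨GCDMonoid.gcd (c a).leadingCoeff E.leadingCoeff,
        (c a).leadingCoeff / GCDMonoid.gcd (c a).leadingCoeff E.leadingCoeff,
        E.leadingCoeff / GCDMonoid.gcd (c a).leadingCoeff E.leadingCoeff, ?_, ?_,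
        isCoprime_div_gcd_div_gcd hq0, hg0⟩
      · rw [mul_comm]
        exact EuclideanDomain.mul_div_cancel' hg0 (GCDMonoid.gcd_dvd_left _ _)
      · rw [mul_comm]
        exact EuclideanDomain.mul_div_cancel' hg0 (GCDMonoid.gcd_dvd_right _ _)
    refine ⟨p', q', hcop, ?_, ?_⟩
    · intro h
      rw [h, zero_mul] at hqe
      exact hq0 hqe.symm
    · rw [← hpe, ← hqe, map_mul, map_mul] at h4
      have h5 : (C q' * (y a * TT F (e m))) * (C g * R a) =
          (C p' * (M.det * TT F (e (φ a)))) * (C g * R a) := by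
        have e1 : c a = y a * TT F (e m) * R a := rfl
        have e2 : E = M.det * (TT F (e (φ a)) * R a) := by rw [hE, hPR a]
        rw [e1, e2] at h4
        linear_combination h4
      exact mul_right_cancel₀ (mul_ne_zero (C_ne_zero.2 hg0) (hR0 a)) h5
  choose α β h using h3
  exact ⟨α, β, h⟩

/-- The degrees of the coefficients are bounded, since the terms are symmetric in `u` and `v`. -/
theorem exists_bounded [CharZero K] (hF : ∀ k, F k ≠ 0) (hsw : ∀ k, tau (F k) = F k)
    {d : κ → ℕ} (hd : ∀ k, BU (d k) (F k)) (hd' : ∀ k, (F k).natDegree ≤ d k)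
    {s : ℕ} {φ : Fin s → ι}
    (hφ : (MM F e φ).det ≠ 0) (hmax : ∀ ψ : Fin (s + 1) → ι, (MM F e ψ).det = 0) (m : ι) :
    ∃ α β : Fin s → K[X], ∀ a, IsCoprime (α a) (β a) ∧ β a ≠ 0 ∧
      (α a).natDegree ≤ 2 * Dl s (∑ k, d k) ∧ (β a).natDegree ≤ 2 * Dl s (∑ k, d k) ∧
      C (β a) * ((MM F e φ).cramer (fun r => UU F (e m) r) a * TT F (e m)) =
        C (α a) * ((MM F e φ).det * TT F (e (φ a))) := by
  classical
  obtain ⟨α, β, h⟩ := exists_coprime hF hφ hmax m
  refine ⟨α, β, fun a => ?_⟩
  obtain ⟨hcop, hβ, hrel⟩ := h a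
  set D := (MM F e φ).det with hD
  set y := (MM F e φ).cramer (fun r => UU F (e m) r) a with hy
  set Δ := Dl s (∑ k, d k) with hΔ
  have hDu : BU Δ D := BU_det hd φ
  have hDv : D.natDegree ≤ Δ := natDegree_det' hd' φ
  have hyu : BU Δ y := BU_cramer hd φ m a
  have hyv : y.natDegree ≤ Δ := natDegree_cramer hd' φ m a
  refine ⟨hcop, hβ, ?_⟩
  suffices hh : (α a).natDegree ≤ 2 * Δ ∧ (β a).natDegree ≤ 2 * Δ from ⟨hh.1, hh.2, hrel⟩
  have hTsw : ∀ l, tau (TT F (e l)) = TT F (e l) := by
    intro l
    unfold TT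
    rw [map_prod]
    exact Finset.prod_congr rfl fun k _ => by rw [map_pow, hsw]
  have hT1 := TT_ne_zero hF (e m)
  have hT2 := TT_ne_zero hF (e (φ a))
  by_cases hα : α a = 0
  · rw [hα] at hcop ⊢
    rw [isCoprime_zero_left] at hcop
    rw [natDegree_zero, natDegree_eq_zero_of_isUnit hcop]
    exact ⟨Nat.zero_le _, Nat.zero_le _⟩
  have hy0 : y ≠ 0 := by
    intro h0
    rw [h0, zero_mul, mul_zero] at hrel
    exact mul_ne_zero (C_ne_zero.2 hα) (mul_ne_zero hφ hT2) hrel.symm
  have hrel2 := congrArg tau hrel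
  rw [map_mul, map_mul, map_mul, map_mul, hTsw, hTsw, tau_C, tau_C] at hrel2
  have hcross : C (β a) * (y * tau D * (α a).map C) = C (α a) * (D * tau y * (β a).map C) := by
    refine mul_right_cancel₀ (mul_ne_zero hT1 hT2) ?_
    calc C (β a) * (y * tau D * (α a).map C) * (TT F (e m) * TT F (e (φ a)))
        = (C (β a) * (y * TT F (e m))) * ((α a).map C * (tau D * TT F (e (φ a)))) := by ring
      _ = (C (α a) * (D * TT F (e (φ a)))) * ((β a).map C * (tau y * TT F (e m))) := by
          rw [hrel, hrel2]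
      _ = _ := by ring
  have htD : tau D ≠ 0 := by
    intro h0
    rw [h0] at hrel2
    rw [zero_mul, mul_zero] at hrel2
    have h1 : tau y ≠ 0 := fun h2 => by
      -- `tau` is injective because it is an involution up to evaluation; use the relation instead
      exact absurd h2 (fun h3 => (hy0 (tau_injective h3)).elim)
    exact mul_ne_zero (mul_ne_zero (by
      rw [Ne, Polynomial.map_eq_zero_iff C_injective]; exact hβ) h1) hT1
      (by rw [mul_assoc]; exact hrel2)
  have hty : tau y ≠ 0 := fun h0 => hy0 (tau_injective h0)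
  have hma : (α a).map (C : K →+* K[X]) ≠ 0 := by
    rw [Ne, Polynomial.map_eq_zero_iff C_injective]; exact hα
  have hmb : (β a).map (C : K →+* K[X]) ≠ 0 := by
    rw [Ne, Polynomial.map_eq_zero_iff C_injective]; exact hβ
  obtain ⟨v, hv⟩ := exists_eval_ne (mul_ne_zero (mul_ne_zero (mul_ne_zero hy0 htD) hma)
    (mul_ne_zero (mul_ne_zero hφ hty) hmb))
  rw [eval_mul] at hv
  have hv1 := left_ne_zero_of_mul hv
  have hv2 := right_ne_zero_of_mul hv
  have hev := congrArg (fun p => Polynomial.eval (C v) p) hcross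
  simp only [eval_mul, eval_C] at hev
  have hmap : ∀ p : K[X], ((p.map (C : K →+* K[X])).eval (C v)).natDegree = 0 := by
    intro p
    rw [eval_map, eval₂_at_apply, natDegree_C]
  constructor
  · have hdvd : α a ∣ (y * tau D * (α a).map C).eval (C v) := by
      refine hcop.dvd_of_dvd_mul_left ?_
      refine ⟨(D * tau y * (β a).map C).eval (C v), ?_⟩
      rw [eval_mul, eval_mul, eval_mul, eval_mul]
      exact hev
    refine (natDegree_le_of_dvd hdvd hv1).trans ?_
    rw [eval_mul, eval_mul]
    refine natDegree_mul_le.trans ?_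
    rw [hmap, add_zero]
    refine natDegree_mul_le.trans ?_
    have h1 := natDegree_eval_le hyu v
    have h2 := natDegree_eval_le ((BU_tau D).mono hDv) v
    omega
  · have hdvd : β a ∣ (D * tau y * (β a).map C).eval (C v) := by
      refine hcop.symm.dvd_of_dvd_mul_left ?_
      refine ⟨(y * tau D * (α a).map C).eval (C v), ?_⟩
      rw [eval_mul, eval_mul, eval_mul, eval_mul]
      exact hev.symm
    refine (natDegree_le_of_dvd hdvd hv2).trans ?_
    rw [eval_mul, eval_mul]
    refine natDegree_mul_le.trans ?_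
    rw [hmap, add_zero]
    refine natDegree_mul_le.trans ?_
    have h1 := natDegree_eval_le hDu v
    have h2 := natDegree_eval_le ((BU_tau y).mono hyv) v
    omega

end Pool.Agent.T9h67.BSS
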