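import Mathlib

/-!
# Derivations which kill a polynomial vanishing on hyperplanes
-/

set_option autoImplicit false

open MvPolynomial

namespace Pool.Agent.T9h67.BSS

theorem darboux {K A : Type} [Field K] [CharZero K] [CommRing A] [IsDomain A] [WfDvdMonoid A]
    [Algebra K A] (δ : Derivation K A A) {p g : A} (hp : Prime p) (hg : g ≠ 0) (hpg : p ∣ g)
    (hδ : δ g = 0) : p ∣ δ p := by
  have hfin : FiniteMultiplicity p g := FiniteMultiplicity.of_not_isUnit hp.not_isUnit hg
  obtain ⟨q, hq, hpq⟩ := hfin.exists_eq_pow_mul_and_not_dvd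
  obtain ⟨m, hm⟩ : ∃ m, multiplicity p g = m + 1 := by
    refine ⟨multiplicity p g - 1, ?_⟩
    have h1 : multiplicity p g ≠ 0 := by
      intro h0
      rw [h0, pow_zero, one_mul] at hq
      exact hpq (hq ▸ hpg)
    omega
  rw [hm] at hq
  rw [hq, Derivation.leibniz, Derivation.leibniz_pow] at hδ
  simp only [smul_eq_mul, nsmul_eq_mul, Nat.add_sub_cancel] at hδ
  have h1 : p ^ m * (p * δ q + ((m + 1 : ℕ) : A) * (q * δ p)) = 0 := by
    rw [← hδ]
    ring
  have h2 := (mul_eq_zero.1 h1).resolve_left (pow_ne_zero m hp.ne_zero)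
  have h3 : p ∣ ((m + 1 : ℕ) : A) * (q * δ p) := by
    refine ⟨- δ q, ?_⟩
    linear_combination h2
  have hu : IsUnit (((m + 1 : ℕ) : A)) := by
    have h4 : ((m + 1 : ℕ) : A) = algebraMap K A ((m + 1 : ℕ) : K) := by
      rw [map_natCast]
    rw [h4]
    exact (isUnit_iff_ne_zero.2 (Nat.cast_ne_zero.2 (Nat.succ_ne_zero m))).map _
  rw [hu.dvd_mul_left] at h3
  exact (hp.dvd_or_dvd h3).resolve_left hpq

variable {K : Type} [Field K] {n : ℕ}

/-- The equation of the hyperplane `∑ i ∈ I, y i = c`. -/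
noncomputable def hyp (I : Finset (Fin n)) (c : K) : MvPolynomial (Fin n) K := ∑ i ∈ I, X i - C c

/-- Elimination of one variable. -/
noncomputable def hsub (I : Finset (Fin n)) (i₀ : Fin n) (c : K) :
    MvPolynomial (Fin n) K →ₐ[K] MvPolynomial (Fin n) K :=
  aeval fun k => if k = i₀ then C c - ∑ i ∈ I.erase i₀, X i else X k

theorem hsub_hyp {I : Finset (Fin n)} {i₀ : Fin n} (hi : i₀ ∈ I) (c : K) :
    hsub I i₀ c (hyp I c) = 0 := by
  classical
  unfold hyp hsub
  rw [map_sub, map_sum, ← Finset.add_sum_erase _ _ hi]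
  have h1 : ∑ x ∈ I.erase i₀, (aeval (R := K) fun k => if k = i₀ then
      C c - ∑ i ∈ I.erase i₀, X i else (X k : MvPolynomial (Fin n) K)) (X x) =
      ∑ x ∈ I.erase i₀, X x := by
    refine Finset.sum_congr rfl fun k hk => ?_
    rw [aeval_X, if_neg (Finset.ne_of_mem_erase hk)]
  rw [h1, aeval_X, if_pos rfl]
  have h2 : (aeval (R := K) fun k => if k = i₀ then
      C c - ∑ i ∈ I.erase i₀, X i else (X k : MvPolynomial (Fin n) K)) (C c) = C c := by
    rw [← algebraMap_eq]
    exact AlgHom.commutes _ _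
  rw [h2]
  ring

theorem dvd_sub_hsub {I : Finset (Fin n)} {i₀ : Fin n} (hi : i₀ ∈ I) (c : K)
    (f : MvPolynomial (Fin n) K) : hyp I c ∣ f - hsub I i₀ c f := by
  classical
  induction f using MvPolynomial.induction_on with
  | C a =>
    have h2 : hsub I i₀ c (C a) = C a := by
      rw [← algebraMap_eq]
      exact AlgHom.commutes _ _
    rw [h2, sub_self]
    exact dvd_zero _
  | add p q hp hq =>
    rw [map_add]
    have := dvd_add hp hq
    rwa [show p - hsub I i₀ c p + (q - hsub I i₀ c q) = p + q - (hsub I i₀ c p + hsub I i₀ c q) by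
      ring] at this
  | mul_X p k hp =>
    rw [map_mul]
    have h1 : hyp I c ∣ X k - hsub I i₀ c (X k) := by
      unfold hsub
      rw [aeval_X]
      split_ifs with hk
      · subst hk
        refine ⟨1, ?_⟩
        unfold hyp
        rw [← Finset.add_sum_erase _ _ hi]
        ring
      · rw [sub_self]
        exact dvd_zero _
    have h2 : p * X k - hsub I i₀ c p * hsub I i₀ c (X k) =
        (p - hsub I i₀ c p) * X k + hsub I i₀ c p * (X k - hsub I i₀ c (X k)) := by ring
    rw [h2]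
    exact dvd_add (hp.mul_right _) (h1.mul_left _)

theorem hyp_dvd_iff {I : Finset (Fin n)} {i₀ : Fin n} (hi : i₀ ∈ I) (c : K)
    (f : MvPolynomial (Fin n) K) : hyp I c ∣ f ↔ hsub I i₀ c f = 0 := by
  constructor
  · rintro ⟨q, rfl⟩
    rw [map_mul, hsub_hyp hi, zero_mul]
  · intro h
    have := dvd_sub_hsub hi c f
    rwa [h, sub_zero] at this

theorem prime_hyp {I : Finset (Fin n)} {i₀ : Fin n} (hi : i₀ ∈ I) (c : K) : Prime (hyp I c) := by
  classical
  refine ⟨?_, ?_, ?_⟩
  · intro h0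
    have h1 := congrArg (fun p : MvPolynomial (Fin n) K => eval (Pi.single i₀ (c + 1)) p) h0
    simp only [hyp, map_sub, map_sum, eval_X, eval_C, map_zero] at h1
    have h2 : ∑ x ∈ I, (Pi.single i₀ (c + 1) : Fin n → K) x = c + 1 := by
      rw [Finset.sum_eq_single i₀]
      · simp
      · intro b _ hb
        simp [hb]
      · intro h
        exact absurd hi h
    rw [h2] at h1
    simp at h1
  · intro hu
    have h1 := hu.map (hsub I i₀ c)
    rw [hsub_hyp hi] at h1
    exact not_isUnit_zero h1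
  · intro a b hab
    rw [hyp_dvd_iff hi, map_mul, mul_eq_zero] at hab
    rwa [hyp_dvd_iff hi, hyp_dvd_iff hi]

theorem eval_hsub {I : Finset (Fin n)} (i₀ : Fin n) (c : K)
    (f : MvPolynomial (Fin n) K) (y : Fin n → K) : eval y (hsub I i₀ c f) =
      eval (fun k => if k = i₀ then c - ∑ i ∈ I.erase i₀, y i else y k) f := by
  classical
  have h : (eval y).comp (hsub I i₀ c).toRingHom =
      eval (fun k => if k = i₀ then c - ∑ i ∈ I.erase i₀, y i else y k) := by
    refine MvPolynomial.ringHom_ext ?_ ?_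
    · intro r
      simp
    · intro k
      simp only [hsub, RingHom.comp_apply, AlgHom.toRingHom_eq_coe, RingHom.coe_coe, aeval_X,
        eval_X]
      split_ifs
      · simp
      · simp
  exact congrArg (fun f' : MvPolynomial (Fin n) K →+* K => f' f) h

theorem hyp_dvd_of_eval [Infinite K] {I : Finset (Fin n)} {i₀ : Fin n} (hi : i₀ ∈ I) {c : K}
    {f : MvPolynomial (Fin n) K} (h : ∀ y : Fin n → K, ∑ i ∈ I, y i = c → eval y f = 0) :
    hyp I c ∣ f := by
  classical
  rw [hyp_dvd_iff hi]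
  refine MvPolynomial.funext fun y => ?_
  rw [eval_hsub, map_zero]
  apply h
  rw [← Finset.add_sum_erase _ _ hi, if_pos rfl]
  have h1 : ∑ x ∈ I.erase i₀, (if x = i₀ then c - ∑ i ∈ I.erase i₀, y i else y x) =
      ∑ x ∈ I.erase i₀, y x :=
    Finset.sum_congr rfl fun k hk => if_neg (Finset.ne_of_mem_erase hk)
  rw [h1]
  ring

theorem eval_of_hyp_dvd {I : Finset (Fin n)} {c : K} {f : MvPolynomial (Fin n) K}
    (h : hyp I c ∣ f) {y : Fin n → K} (hy : ∑ i ∈ I, y i = c) : eval y f = 0 := by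
  obtain ⟨q, rfl⟩ := h
  rw [map_mul]
  have : eval y (hyp I c) = 0 := by
    simp only [hyp, map_sub, map_sum, eval_X, eval_C]
    rw [hy, sub_self]
  rw [this, zero_mul]

end Pool.Agent.T9h67.BSS
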