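import Pool.Agent.T9h67.BSS.RankTwo

/-!
# Determinants with two special rows
-/

set_option autoImplicit false

open Polynomial

namespace Pool.Agent.T9h67.BSS

variable {K : Type} [Field K]

theorem prod_ite_perm {R : Type} [CommRing R] {κ : Type} [Fintype κ] [DecidableEq κ]
    (σ : Equiv.Perm κ) (p : κ) (A A1 : κ → R) :
    ∏ q, (if σ q = p then A1 q else A q) =
      ∏ q, (if σ q = p then A1 q * ∏ q' ∈ Finset.univ.erase q, A q' else 1) := by
  have h1 : ∀ q, σ q = p ↔ q = σ.symm p := fun q => (Equiv.eq_symm_apply σ).symm
  simp only [h1]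
  rw [Finset.prod_ite_eq' Finset.univ (σ.symm p), if_pos (Finset.mem_univ _),
    ← Finset.mul_prod_erase _ _ (Finset.mem_univ (σ.symm p)), if_pos rfl]
  congr 1
  exact Finset.prod_congr rfl fun q hq => if_neg (Finset.ne_of_mem_erase hq)

/-- The determinants of the matrices of plane terms have rank at most two. -/
theorem rankLE_det {m n : ℕ} {i j : Fin n} (hij : i ≠ j) (row : Fin m → Fin n)
    (hrow : Function.Injective row) (A A1 B B1 : Fin m → K[X]) (c : Fin m → Fin m → K) :
    RankLE 2 fun s t => (Matrix.of fun p q => (if row p = i then A1 q else A q).eval s *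
      (if row p = j then B1 q else B q).eval t * c p q).det := by
  classical
  by_cases hi : ∃ p, row p = i
  · by_cases hj : ∃ p, row p = j
    · obtain ⟨p₁, hp₁⟩ := hi
      obtain ⟨p₂, hp₂⟩ := hj
      have hp : p₁ ≠ p₂ := fun h => hij (by rw [← hp₁, ← hp₂, h])
      obtain ⟨u, v, huv⟩ := exists_bilinear (K := K) (Matrix.of c) hp
      set x : Fin m → K[X] := fun q => A1 q * ∏ q' ∈ Finset.univ.erase q, A q' with hx
      set y : Fin m → K[X] := fun q => B1 q * ∏ q' ∈ Finset.univ.erase q, B q' with hy
      refine ⟨Bool, inferInstance, fun l => ∑ k, C (c p₁ k * u l k) * x k,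
        fun l => ∑ k, C (c p₂ k * v l k) * y k, by simp, fun s t => ?_⟩
      have e1 : ∀ l, (∑ k, C (c p₁ k * u l k) * x k).eval s =
          ∑ k, ((x k).eval s * c p₁ k) * u l k := by
        intro l
        rw [eval_finsetSum]
        exact Finset.sum_congr rfl fun k _ => by rw [eval_mul, eval_C]; ring
      have e2 : ∀ l, (∑ k, C (c p₂ k * v l k) * y k).eval t =
          ∑ k, ((y k).eval t * c p₂ k) * v l k := by
        intro l
        rw [eval_finsetSum]
        exact Finset.sum_congr rfl fun k _ => by rw [eval_mul, eval_C]; ring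
      simp only [e1, e2]
      rw [← huv, Matrix.det_apply', Matrix.det_apply']
      refine Finset.sum_congr rfl fun σ _ => ?_
      congr 1
      have hr1 : ∀ q, (row (σ q) = i) ↔ σ q = p₁ := fun q =>
        ⟨fun h => hrow (h.trans hp₁.symm), fun h => by rw [h, hp₁]⟩
      have hr2 : ∀ q, (row (σ q) = j) ↔ σ q = p₂ := fun q =>
        ⟨fun h => hrow (h.trans hp₂.symm), fun h => by rw [h, hp₂]⟩
      have e3 : ∏ q, (if σ q = p₁ then A1 q else A q).eval s =
          ∏ q, (if σ q = p₁ then (x q).eval s else 1) := by
        have h1 := prod_ite_perm σ p₁ (fun q => (A q).eval s) fun q => (A1 q).eval s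
        have h2 : ∀ q, (if σ q = p₁ then A1 q else A q).eval s =
            if σ q = p₁ then (A1 q).eval s else (A q).eval s := fun q => by split_ifs <;> rfl
        simp only [h2, h1, hx, eval_mul, eval_prod]
      have e4 : ∏ q, (if σ q = p₂ then B1 q else B q).eval t =
          ∏ q, (if σ q = p₂ then (y q).eval t else 1) := by
        have h1 := prod_ite_perm σ p₂ (fun q => (B q).eval t) fun q => (B1 q).eval t
        have h2 : ∀ q, (if σ q = p₂ then B1 q else B q).eval t =
            if σ q = p₂ then (B1 q).eval t else (B q).eval t := fun q => by split_ifs <;> rfl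
        simp only [h2, h1, hy, eval_mul, eval_prod]
      simp only [Matrix.of_apply, hr1, hr2]
      rw [Finset.prod_mul_distrib, Finset.prod_mul_distrib, e3, e4, ← Finset.prod_mul_distrib,
        ← Finset.prod_mul_distrib]
      refine Finset.prod_congr rfl fun q _ => ?_
      by_cases h1 : σ q = p₁
      · have h2 : σ q ≠ p₂ := fun h => hp (h1.symm.trans h)
        rw [if_pos h1, if_neg h2, h1, Matrix.updateRow_ne hp, Matrix.updateRow_self]
        ring
      · by_cases h2 : σ q = p₂
        · rw [if_neg h1, if_pos h2, h2, Matrix.updateRow_self]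
          ring
        · rw [if_neg h1, if_neg h2, Matrix.updateRow_ne h2, Matrix.updateRow_ne h1]
          simp
    · push Not at hj
      refine RankLE.mono (w := 1) ?_ (by norm_num)
      refine ⟨Unit, inferInstance,
        fun _ => (Matrix.of fun p q => (if row p = i then A1 q else A q) * C (c p q)).det,
        fun _ => ∏ q, B q, by simp, fun s t => ?_⟩
      rw [Fintype.sum_unique, ← coe_evalRingHom s, RingHom.map_det, eval_prod, mul_comm,
        ← Matrix.det_mul_row]
      beta_reduce
      congr 1
      ext p q
      simp only [Matrix.of_apply, if_neg (hj p), RingHom.mapMatrix_apply, Matrix.map_apply,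
        coe_evalRingHom, eval_mul, eval_C]
      ring
  · push Not at hi
    refine RankLE.mono (w := 1) ?_ (by norm_num)
    refine ⟨Unit, inferInstance, fun _ => ∏ q, A q,
      fun _ => (Matrix.of fun p q => (if row p = j then B1 q else B q) * C (c p q)).det,
      by simp, fun s t => ?_⟩
    rw [Fintype.sum_unique, ← coe_evalRingHom t, RingHom.map_det, eval_prod,
      ← Matrix.det_mul_row]
    beta_reduce
    congr 1
    ext p q
    simp only [Matrix.of_apply, if_neg (hi p), RingHom.mapMatrix_apply, Matrix.map_apply,
      coe_evalRingHom, eval_mul, eval_C]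
    ring

/-- Expansion of a determinant whose columns are sums. -/
theorem det_sum_columns {R : Type} [CommRing R] {m : ℕ} (w : Fin m → ℕ)
    (E : ∀ q : Fin m, Fin (w q) → Fin m → R) :
    (Matrix.of fun p q => ∑ l, E q l p).det =
      ∑ φ : (∀ q, Fin (w q)), (Matrix.of fun p q => E q (φ q) p).det := by
  classical
  have h1 := (Matrix.detRowAlternating (n := Fin m) (R := R)).toMultilinearMap.map_sum
    (α := fun q => Fin (w q)) (fun q l => E q l)
  have h2 : (Matrix.of fun p q => ∑ l, E q l p).det =
      (Matrix.detRowAlternating (n := Fin m) (R := R)).toMultilinearMap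
        fun q => ∑ l, E q l := by
    rw [← Matrix.det_transpose]
    show Matrix.det _ = Matrix.det _
    congr 1
    ext q p
    simp [Finset.sum_apply]
  rw [h2, h1]
  refine Finset.sum_congr rfl fun φ _ => ?_
  rw [← Matrix.det_transpose]
  rfl

/-- The rank of a determinant whose columns are sums of plane terms. -/
theorem rankLE_det_sum {m n : ℕ} {i j : Fin n} (hij : i ≠ j) (row : Fin m → Fin n)
    (hrow : Function.Injective row) (w : Fin m → ℕ) (E : ∀ q : Fin m, Fin (w q) → Fin m → K → K → K)
    (hE : ∀ q l, ∃ A A1 B B1 : K[X], ∃ c : Fin m → K, ∀ p s t, E q l p s t =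
      (if row p = i then A1 else A).eval s * (if row p = j then B1 else B).eval t * c p) :
    RankLE ((∏ q, w q) * 2) fun s t => (Matrix.of fun p q => ∑ l, E q l p s t).det := by
  classical
  choose A A1 B B1 c h using hE
  have h1 : ∀ φ : (∀ q, Fin (w q)), RankLE 2 fun s t =>
      (Matrix.of fun p q => E q (φ q) p s t).det := by
    intro φ
    have h2 := rankLE_det hij row hrow (fun q => A q (φ q)) (fun q => A1 q (φ q))
      (fun q => B q (φ q)) (fun q => B1 q (φ q)) fun p q => c q (φ q) p
    simpa only [h] using h2
  have h2 := RankLE.sum h1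
  rw [Fintype.card_pi] at h2
  simp only [Fintype.card_fin] at h2
  have h3 : (fun s t => (Matrix.of fun p q => ∑ l, E q l p s t).det) = fun s t =>
      ∑ φ : (∀ q, Fin (w q)), (Matrix.of fun p q => E q (φ q) p s t).det := by
    funext s t
    exact det_sum_columns w fun q l p => E q l p s t
  rw [h3]
  exact h2

end Pool.Agent.T9h67.BSS
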