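import Pool.Agent.T9h67.BSS.Parity
import Pool.Agent.T9h67.BSS.PlaneDet

/-!
# Polynomials in few simple functions
-/

set_option autoImplicit false

open MvPolynomial

namespace Pool.Agent.T9h67.BSS

/-- `t` is separable for the variables `i` and `j` of `I`: it is a product `u * v * z` or a sum
`u + v + z` such that no variable of `I` other than `i` occurs in `u`, no variable of `I` other than
`j` occurs in `v`, and `i` and `j` do not occur in `z`. -/
def Sep {K : Type} [CommSemiring K] {n : ℕ} (I : Finset (Fin n)) (i j : Fin n)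
    (t : MvPolynomial (Fin n) K) : Prop :=
  ∃ u v z : MvPolynomial (Fin n) K, (∀ k ∈ u.vars, k ∈ I → k = i) ∧
    (∀ k ∈ v.vars, k ∈ I → k = j) ∧ i ∉ z.vars ∧ j ∉ z.vars ∧ (t = u * v * z ∨ t = u + v + z)

/-- `f` is a sum of `w` separable polynomials. -/
def SepLE {K : Type} [CommSemiring K] {n : ℕ} (I : Finset (Fin n)) (i j : Fin n) (w : ℕ)
    (f : MvPolynomial (Fin n) K) : Prop :=
  ∃ t : Fin w → MvPolynomial (Fin n) K, (∀ l, Sep I i j (t l)) ∧ f = ∑ l, t l

/-- `g` is a polynomial in the variables outside of a set `I` of `r + 1` variables and in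
polynomials `f 0, ..., f (m - 1)` such that the matrix of their partial derivatives with respect to
the `r + 1` variables in `I` has rank at most `r` (for example this holds if `m ≤ r`), and either
the degrees of the `f k` in some variable `i` of `I` are at most `D`, where `r * D < 2 ^ (n - r - 1)`,
or for some two variables `i` and `j` of `I` each `f k` is a sum of `w` separable polynomials, where
`w ^ r ≤ 2 ^ (n - r - 1)`. -/
def FewFunctions {K : Type} [CommRing K] {n : ℕ} (g : MvPolynomial (Fin n) K) : Prop :=
  ∃ (r : ℕ) (I : Finset (Fin n)) (m : ℕ) (f : Fin m → MvPolynomial (Fin n) K), I.card = r + 1 ∧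
    g ∈ Algebra.adjoin K ({h | ∃ k, k ∉ I ∧ h = X k} ∪ Set.range f) ∧
    (∀ κ : I → Fin m, (Matrix.of fun p q : I => pderiv (p : Fin n) (f (κ q))).det = 0) ∧
    ((∃ i ∈ I, ∃ D, (∀ k, degreeOf i (f k) ≤ D) ∧ r * D < 2 ^ (n - r - 1)) ∨
      ∃ i ∈ I, ∃ j ∈ I, i ≠ j ∧ ∃ w, (∀ k, SepLE I i j w (f k)) ∧ w ^ r ≤ 2 ^ (n - r - 1))

variable {K : Type} [Field K] {n : ℕ}

/-- Restriction to a line parallel to a coordinate axis. -/
noncomputable def lineI (i : Fin n) (y : Fin n → K) : MvPolynomial (Fin n) K →ₐ[K] Polynomial K :=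
  aeval fun k => if k = i then Polynomial.X else Polynomial.C (y k)

theorem eval_lineI (i : Fin n) (y : Fin n → K) (h : MvPolynomial (Fin n) K) (s : K) :
    (lineI i y h).eval s = eval (Function.update y i s) h := by
  have h1 : (Polynomial.evalRingHom s).comp (lineI i y).toRingHom =
      eval (Function.update y i s) := by
    refine MvPolynomial.ringHom_ext ?_ ?_
    · intro r
      simp
    · intro k
      simp only [lineI, RingHom.comp_apply, AlgHom.toRingHom_eq_coe, RingHom.coe_coe, aeval_X,
        eval_X]
      by_cases hk : k = i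
      · subst hk
        simp
      · rw [if_neg hk, Function.update_of_ne hk]
        simp
  exact congrArg (fun f : MvPolynomial (Fin n) K →+* K => f h) h1

theorem derivative_lineI (i : Fin n) (y : Fin n → K) (h : MvPolynomial (Fin n) K) :
    Polynomial.derivative (lineI i y h) = lineI i y (pderiv i h) := by
  induction h using MvPolynomial.induction_on with
  | C r =>
    have h2 : lineI i y (C r) = Polynomial.C r := by
      rw [← algebraMap_eq]
      exact AlgHom.commutes _ _
    rw [h2, pderiv_C, map_zero, Polynomial.derivative_C]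
  | add u v hu hv => rw [map_add, map_add, hu, hv, map_add, map_add]
  | mul_X u k hu =>
    rw [map_mul, Polynomial.derivative_mul, hu, Derivation.leibniz]
    simp only [smul_eq_mul]
    rw [map_add, map_mul, map_mul]
    have h1 : Polynomial.derivative (lineI i y (X k)) = lineI i y (pderiv i (X k)) := by
      unfold lineI
      rw [aeval_X]
      by_cases hk : k = i
      · subst hk
        rw [if_pos rfl, pderiv_X_self, map_one, Polynomial.derivative_X]
      · rw [if_neg hk, pderiv_X_of_ne hk, map_zero, Polynomial.derivative_C]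
    rw [h1]
    ring

theorem natDegree_lineI (i : Fin n) (y : Fin n → K) (h : MvPolynomial (Fin n) K) :
    (lineI i y h).natDegree ≤ degreeOf i h := by
  classical
  unfold lineI
  rw [aeval_def, eval₂_eq']
  refine Polynomial.natDegree_sum_le_of_forall_le _ _ fun m hm => ?_
  refine Polynomial.natDegree_mul_le.trans ?_
  have h0 : (algebraMap K (Polynomial K) (coeff m h)).natDegree = 0 := by
    rw [Polynomial.algebraMap_eq, Polynomial.natDegree_C]
  rw [h0, zero_add]
  refine (Polynomial.natDegree_prod_le _ _).trans ?_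
  rw [← Finset.add_sum_erase _ _ (Finset.mem_univ i)]
  have h1 : ∑ x ∈ Finset.univ.erase i,
      ((if x = i then Polynomial.X else Polynomial.C (y x)) ^ m x).natDegree = 0 := by
    refine Finset.sum_eq_zero fun k hk => ?_
    rw [if_neg (Finset.ne_of_mem_erase hk), ← Polynomial.C_pow, Polynomial.natDegree_C]
  rw [h1, if_pos rfl, Polynomial.natDegree_X_pow, add_zero]
  exact degreeOf_le_iff.1 le_rfl m hm

theorem degreeOf_pderiv_le (i p : Fin n) (f : MvPolynomial (Fin n) K) :
    degreeOf i (pderiv p f) ≤ degreeOf i f := by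
  classical
  rw [degreeOf_le_iff]
  intro m hm
  have h1 : m + Finsupp.single p 1 ∈ f.support := by
    rw [mem_support_iff] at hm ⊢
    rw [coeff_pderiv] at hm
    exact left_ne_zero_of_mul hm
  refine le_trans ?_ (degreeOf_le_iff.1 le_rfl _ h1)
  rw [Finsupp.add_apply]
  exact Nat.le_add_right _ _

theorem mem_vars_of_pderiv {p k : Fin n} {f : MvPolynomial (Fin n) K}
    (h : k ∈ (pderiv p f).vars) : k ∈ f.vars := by
  classical
  rw [mem_vars_iff_mem_support] at h ⊢
  obtain ⟨m, hm, hk⟩ := h
  refine ⟨m + Finsupp.single p 1, ?_, ?_⟩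
  · rw [mem_support_iff] at hm ⊢
    rw [coeff_pderiv] at hm
    exact left_ne_zero_of_mul hm
  · rw [Finsupp.mem_support_iff] at hk ⊢
    rw [Finsupp.add_apply]
    omega

theorem degreeOf_th_le {I : Finset (Fin n)} (a : Fin n → K) (i : Fin n)
    (f : MvPolynomial (Fin n) K) : degreeOf i (th I a f) ≤ 2 * degreeOf i f := by
  classical
  unfold th
  rw [aeval_def, eval₂_eq']
  refine (degreeOf_sum_le _ _ _).trans (Finset.sup_le fun m hm => ?_)
  refine (degreeOf_mul_le _ _ _).trans ?_
  rw [algebraMap_eq, degreeOf_C, zero_add]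
  refine (degreeOf_prod_le _ _ _).trans ?_
  rw [← Finset.add_sum_erase _ _ (Finset.mem_univ i)]
  have h1 : ∑ x ∈ Finset.univ.erase i,
      degreeOf i ((if x ∈ I then X x ^ 2 else C (a x ^ 2)) ^ m x : MvPolynomial (Fin n) K) = 0 := by
    refine Finset.sum_eq_zero fun k hk => ?_
    have hk' := Finset.ne_of_mem_erase hk
    have h2 : degreeOf i (if k ∈ I then X k ^ 2 else C (a k ^ 2) : MvPolynomial (Fin n) K) = 0 := by
      split_ifs
      · refine Nat.le_zero.1 ((degreeOf_pow_le _ _ _).trans ?_)
        rw [degreeOf_X_of_ne hk'.symm]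
      · rw [degreeOf_C]
    refine Nat.le_zero.1 ((degreeOf_pow_le _ _ _).trans ?_)
    rw [h2, mul_zero]
  rw [h1, add_zero]
  refine (degreeOf_pow_le _ _ _).trans ?_
  have h3 : degreeOf i (if i ∈ I then X i ^ 2 else C (a i ^ 2) : MvPolynomial (Fin n) K) ≤ 2 := by
    split_ifs
    · refine (degreeOf_pow_le _ _ _).trans ?_
      rw [degreeOf_X_self]
    · rw [degreeOf_C]
      exact Nat.zero_le _
  calc m i * _ ≤ m i * 2 := Nat.mul_le_mul_left _ h3
    _ ≤ degreeOf i f * 2 := Nat.mul_le_mul_right _ (degreeOf_le_iff.1 le_rfl m hm)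
    _ = 2 * degreeOf i f := mul_comm _ _

theorem eval_th_congr {I : Finset (Fin n)} (a : Fin n → K) {h : MvPolynomial (Fin n) K}
    {y y' : Fin n → K} (hy : ∀ k ∈ h.vars, k ∈ I → y k = y' k) :
    eval y (th I a h) = eval y' (th I a h) := by
  rw [eval_th, eval_th]
  refine MvPolynomial.eval₂Hom_congr' rfl (fun k hk _ => ?_) rfl
  show (if k ∈ I then y k else a k) ^ 2 = (if k ∈ I then y' k else a k) ^ 2
  by_cases hkI : k ∈ I
  · rw [if_pos hkI, if_pos hkI, hy k hk hkI]
  · rw [if_neg hkI, if_neg hkI]

theorem pderiv_th_eq_zero {I : Finset (Fin n)} (a : Fin n → K) {p : Fin n} (hp : p ∈ I)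
    {f : MvPolynomial (Fin n) K} (h : p ∉ f.vars) : pderiv p (th I a f) = 0 := by
  rw [pderiv_th a hp, pderiv_eq_zero_of_notMem_vars h, map_zero, mul_zero]

theorem eval_pderiv_th_congr {I : Finset (Fin n)} (a : Fin n → K) {h : MvPolynomial (Fin n) K}
    {y y' : Fin n → K} (hy : ∀ k ∈ h.vars, k ∈ I → y k = y' k) {p : Fin n} (hp : p ∈ I) :
    eval y (pderiv p (th I a h)) = eval y' (pderiv p (th I a h)) := by
  by_cases hpv : p ∈ h.vars
  · rw [pderiv_th a hp, map_mul, map_mul, map_mul, map_mul, eval_X, eval_X, hy p hpv hp,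
      eval_th_congr a (fun k hk => hy k (mem_vars_of_pderiv hk))]
    simp
  · rw [pderiv_th_eq_zero a hp hpv, map_zero, map_zero]

/-- The derivatives of a separable polynomial on a plane. -/
theorem Sep.exists_plane {I : Finset (Fin n)} {i j : Fin n} (hi : i ∈ I) (hj : j ∈ I) (hij : i ≠ j)
    {t : MvPolynomial (Fin n) K} (ht : Sep I i j t) (a y : Fin n → K) :
    ∃ A A1 B B1 : Polynomial K, ∃ c : Fin n → K, ∀ p ∈ I, ∀ s s',
      eval (Function.update (Function.update y i s) j s') (pderiv p (th I a t)) =
        (if p = i then A1 else A).eval s * (if p = j then B1 else B).eval s' * c p := by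
  classical
  obtain ⟨u, v, z, hu, hv, hzi, hzj, ht⟩ := ht
  have hju : j ∉ u.vars := fun h => hij.symm (hu j h hj)
  have hiv : i ∉ v.vars := fun h => hij (hv i h hi)
  set Y : K → K → Fin n → K := fun s s' => Function.update (Function.update y i s) j s' with hY
  have hYi : ∀ s s', Y s s' i = s := fun s s' => by
    simp only [hY]
    rw [Function.update_of_ne hij, Function.update_self]
  have hYj : ∀ s s', Y s s' j = s' := fun s s' => by
    simp only [hY]
    rw [Function.update_self]
  have hYk : ∀ s s' k, k ≠ i → k ≠ j → Y s s' k = y k := fun s s' k h1 h2 => by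
    simp only [hY]
    rw [Function.update_of_ne h2, Function.update_of_ne h1]
  have eu : ∀ s s', eval (Y s s') (th I a u) = (lineI i y (th I a u)).eval s := by
    intro s s'
    rw [eval_lineI]
    refine eval_th_congr a fun k hk hkI => ?_
    rw [hu k hk hkI, hYi, Function.update_self]
  have eu' : ∀ s s', eval (Y s s') (pderiv i (th I a u)) =
      (Polynomial.derivative (lineI i y (th I a u))).eval s := by
    intro s s'
    rw [derivative_lineI, eval_lineI]
    refine eval_pderiv_th_congr a (fun k hk hkI => ?_) hi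
    rw [hu k hk hkI, hYi, Function.update_self]
  have ev : ∀ s s', eval (Y s s') (th I a v) = (lineI j y (th I a v)).eval s' := by
    intro s s'
    rw [eval_lineI]
    refine eval_th_congr a fun k hk hkI => ?_
    rw [hv k hk hkI, hYj, Function.update_self]
  have ev' : ∀ s s', eval (Y s s') (pderiv j (th I a v)) =
      (Polynomial.derivative (lineI j y (th I a v))).eval s' := by
    intro s s'
    rw [derivative_lineI, eval_lineI]
    refine eval_pderiv_th_congr a (fun k hk hkI => ?_) hj
    rw [hv k hk hkI, hYj, Function.update_self]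
  have ez : ∀ s s', eval (Y s s') (th I a z) = eval y (th I a z) := by
    intro s s'
    refine eval_th_congr a fun k hk _ => hYk _ _ _ (fun h => hzi (h ▸ hk)) fun h => hzj (h ▸ hk)
  have ez' : ∀ p ∈ I, ∀ s s', eval (Y s s') (pderiv p (th I a z)) =
      eval y (pderiv p (th I a z)) := by
    intro p hp s s'
    exact eval_pderiv_th_congr a (fun k hk _ => hYk _ _ _ (fun h => hzi (h ▸ hk))
      fun h => hzj (h ▸ hk)) hp
  have zui : pderiv j (th I a u) = 0 := pderiv_th_eq_zero a hj hju
  have zvi : pderiv i (th I a v) = 0 := pderiv_th_eq_zero a hi hiv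
  have zzi : pderiv i (th I a z) = 0 := pderiv_th_eq_zero a hi hzi
  have zzj : pderiv j (th I a z) = 0 := pderiv_th_eq_zero a hj hzj
  have zup : ∀ p ∈ I, p ≠ i → pderiv p (th I a u) = 0 := fun p hp hpi =>
    pderiv_th_eq_zero a hp fun h => hpi (hu p h hp)
  have zvp : ∀ p ∈ I, p ≠ j → pderiv p (th I a v) = 0 := fun p hp hpj =>
    pderiv_th_eq_zero a hp fun h => hpj (hv p h hp)
  rcases ht with rfl | rfl
  · refine ⟨lineI i y (th I a u), Polynomial.derivative (lineI i y (th I a u)),
      lineI j y (th I a v), Polynomial.derivative (lineI j y (th I a v)),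
      fun p => if p = i ∨ p = j then eval y (th I a z) else eval y (pderiv p (th I a z)), ?_⟩
    intro p hp s s'
    show eval (Y s s') _ = _
    have hth : th I a (u * v * z) = th I a u * th I a v * th I a z := by rw [map_mul, map_mul]
    rw [hth, Derivation.leibniz, Derivation.leibniz]
    simp only [smul_eq_mul, map_add, map_mul]
    by_cases hpi : p = i
    · subst hpi
      rw [if_pos rfl, if_neg hij, if_pos (Or.inl rfl), zvi, zzi, map_zero, eu', ev, ez]
      ring
    · by_cases hpj : p = j
      · subst hpj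
        rw [if_neg hpi, if_pos rfl, if_pos (Or.inr rfl), zui, zzj, map_zero, ev', eu, ez]
        ring
      · rw [if_neg hpi, if_neg hpj, if_neg (not_or.2 ⟨hpi, hpj⟩), zup p hp hpi, zvp p hp hpj,
          map_zero, eu, ev, ez' p hp]
        ring
  · refine ⟨1, Polynomial.derivative (lineI i y (th I a u)), 1,
      Polynomial.derivative (lineI j y (th I a v)),
      fun p => if p = i ∨ p = j then 1 else eval y (pderiv p (th I a z)), ?_⟩
    intro p hp s s'
    show eval (Y s s') _ = _
    have hth : th I a (u + v + z) = th I a u + th I a v + th I a z := by rw [map_add, map_add]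
    rw [hth]
    simp only [map_add]
    by_cases hpi : p = i
    · subst hpi
      rw [if_pos rfl, if_neg hij, if_pos (Or.inl rfl), zvi, zzi, map_zero, eu',
        Polynomial.eval_one]
      ring
    · by_cases hpj : p = j
      · subst hpj
        rw [if_neg hpi, if_pos rfl, if_pos (Or.inr rfl), zui, zzj, map_zero, ev',
          Polynomial.eval_one]
        ring
      · rw [if_neg hpi, if_neg hpj, if_neg (not_or.2 ⟨hpi, hpj⟩), zup p hp hpi, zvp p hp hpj,
          map_zero, ez' p hp, Polynomial.eval_one, Polynomial.eval_one]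
        ring

end Pool.Agent.T9h67.BSS
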