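import Pool.Agent.T9h67.BSS.Few

/-!
# Polynomials in few simple functions do not vanish on `RootSum`
-/

set_option autoImplicit false

open MvPolynomial

namespace Pool.Agent.T9h67.BSS

variable {K : Type} [Field K] {n : ℕ}

theorem natDegree_det_le_col {s : ℕ} (M : Matrix (Fin s) (Fin s) (Polynomial K)) (d : Fin s → ℕ)
    (h : ∀ p q, (M p q).natDegree ≤ d q) : M.det.natDegree ≤ ∑ q, d q := by
  rw [Matrix.det_apply]
  refine Polynomial.natDegree_sum_le_of_forall_le _ _ fun σ _ => ?_
  have h1 : (Equiv.Perm.sign σ • ∏ i, M (σ i) i).natDegree ≤ (∏ i, M (σ i) i).natDegree := by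
    rcases Int.units_eq_one_or (Equiv.Perm.sign σ) with h2 | h2
    · rw [h2, one_smul]
    · rw [h2]
      simp
  refine h1.trans ((Polynomial.natDegree_prod_le _ _).trans ?_)
  exact Finset.sum_le_sum fun a _ => h _ _

/-- The degree of the determinant in one variable. -/
theorem natDegree_lineI_addCol {I : Finset (Fin n)} (a : Fin n → K) {m : ℕ}
    {f : Fin m → MvPolynomial (Fin n) K} {i : Fin n} {D : ℕ} (hD : ∀ k, degreeOf i (f k) ≤ D)
    {s : ℕ} (row : Fin (s + 1) → I) (col : Fin s → Fin m) (y : Fin n → K) :
    (lineI i y (addCol (fun (i : I) k => pderiv (i : Fin n) (th I a (f k))) row col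
      fun _ => 1).det).natDegree ≤ s * (2 * D) := by
  rw [AlgHom.map_det]
  refine (natDegree_det_le_col _ (Fin.cons 0 fun _ => 2 * D) fun p q => ?_).trans ?_
  · refine Fin.cases ?_ (fun q => ?_) q
    · simp [addCol]
    · simp only [addCol, AlgHom.mapMatrix_apply, Matrix.map_apply, Matrix.of_apply, Fin.cons_succ]
      refine (natDegree_lineI _ _ _).trans ((degreeOf_pderiv_le _ _ _).trans
        ((degreeOf_th_le _ _ _).trans ?_))
      exact Nat.mul_le_mul_left _ (hD _)
  · rw [Fin.sum_univ_succ]
    simp

theorem sum_update_two {I : Finset (Fin n)} {i j : Fin n} (hi : i ∈ I) (hj : j ∈ I) (hij : i ≠ j)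
    (y : Fin n → K) (s t : K) :
    ∑ k ∈ I, Function.update (Function.update y i s) j t k =
      s + t + ∑ k ∈ (I.erase i).erase j, y k := by
  classical
  rw [← Finset.add_sum_erase _ _ hi, ← Finset.add_sum_erase _ _ (Finset.mem_erase.2 ⟨hij.symm, hj⟩),
    Function.update_of_ne hij, Function.update_self, Function.update_self, add_assoc]
  congr 2
  refine Finset.sum_congr rfl fun k hk => ?_
  rw [Finset.mem_erase, Finset.mem_erase] at hk
  rw [Function.update_of_ne hk.1, Function.update_of_ne hk.2.1]

/-- The rank of the determinant for two variables. -/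
theorem rankLE_addCol {I : Finset (Fin n)} (a : Fin n → K) {m : ℕ}
    {f : Fin m → MvPolynomial (Fin n) K} {i j : Fin n} (hi : i ∈ I) (hj : j ∈ I) (hij : i ≠ j)
    {w : ℕ} (hw : ∀ k, SepLE I i j w (f k)) {s : ℕ} {row : Fin (s + 1) → I}
    (hrow : Function.Injective row) (col : Fin s → Fin m) (y : Fin n → K) :
    RankLE (w ^ s * 2) fun x t => eval (Function.update (Function.update y i x) j t)
      (addCol (fun (i : I) k => pderiv (i : Fin n) (th I a (f k))) row col fun _ => 1).det := by
  classical
  choose T hT hf using hw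
  let W : Fin (s + 1) → ℕ := Fin.cons 1 fun _ => w
  let E : ∀ q : Fin (s + 1), Fin (W q) → Fin (s + 1) → K → K → K :=
    Fin.cons (α := fun q => Fin (W q) → Fin (s + 1) → K → K → K) (fun _ _ _ _ => 1)
      fun b l p x t => eval (Function.update (Function.update y i x) j t)
        (pderiv (row p : Fin n) (th I a (T (col b) l)))
  have hE : ∀ q l, ∃ A A1 B B1 : Polynomial K, ∃ c : Fin (s + 1) → K, ∀ p x t, E q l p x t =
      (if (row p : Fin n) = i then A1 else A).eval x *
        (if (row p : Fin n) = j then B1 else B).eval t * c p := by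
    intro q
    refine Fin.cases ?_ (fun b => ?_) q
    · intro l
      refine ⟨1, 1, 1, 1, fun _ => 1, fun p x t => ?_⟩
      simp [E]
    · intro l
      obtain ⟨A, A1, B, B1, c, h⟩ := (hT (col b) l).exists_plane hi hj hij a y
      exact ⟨A, A1, B, B1, fun p => c (row p), fun p x t => h (row p) (row p).2 x t⟩
  have h1 := rankLE_det_sum hij (fun p => (row p : Fin n))
    (fun p q h => hrow (Subtype.ext h)) W E hE
  have hW : ∏ q, W q = w ^ s := by
    rw [Fin.prod_univ_succ]
    simp [W]
  rw [hW] at h1
  have h2 : (fun x t => eval (Function.update (Function.update y i x) j t)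
      (addCol (fun (i : I) k => pderiv (i : Fin n) (th I a (f k))) row col fun _ => 1).det) =
      fun x t => (Matrix.of fun p q => ∑ l, E q l p x t).det := by
    funext x t
    rw [RingHom.map_det]
    congr 1
    ext p q
    refine Fin.cases ?_ (fun b => ?_) q
    · have h3 : ∑ l, E 0 l p x t = 1 := by
        show ∑ l : Fin 1, (1 : K) = 1
        simp
      simp only [Matrix.of_apply, h3]
      simp [addCol]
    · have h3 : ∑ l, E b.succ l p x t = ∑ l : Fin w,
          eval (Function.update (Function.update y i x) j t)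
            (pderiv (row p : Fin n) (th I a (T (col b) l))) := rfl
      simp only [Matrix.of_apply, h3]
      simp only [addCol, RingHom.mapMatrix_apply, Matrix.map_apply, Matrix.of_apply, Fin.cons_succ]
      conv_lhs => rw [hf (col b), map_sum, map_sum, map_sum]
  rw [h2]
  exact h1

theorem eq_zero_of_fewFunctions [CharZero K] {g : MvPolynomial (Fin n) K} (hv : Vanish g)
    (hg : FewFunctions g) : g = 0 := by
  classical
  by_contra hg0
  obtain ⟨r, I, m, f, hI, hgf, hJ, hcase⟩ := hg
  obtain ⟨a, S, hS, hg', hzero⟩ := exists_slice hg0 hv I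
  have hrn : r + 1 ≤ n := by
    have := Finset.card_le_univ I
    rwa [hI, Fintype.card_fin] at this
  have hgf' : th I a g ∈ Algebra.adjoin K (Set.range fun k => th I a (f k)) := by
    have h1 : Algebra.adjoin K ({h | ∃ k, k ∉ I ∧ h = X k} ∪ Set.range f) ≤
        (Algebra.adjoin K (Set.range fun k => th I a (f k))).comap (th I a) := by
      refine Algebra.adjoin_le ?_
      rintro h (⟨k, hk, rfl⟩ | ⟨k, rfl⟩)
      · rw [SetLike.mem_coe, Subalgebra.mem_comap]
        unfold th
        rw [aeval_X, if_neg hk, ← algebraMap_eq]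
        exact Subalgebra.algebraMap_mem _ _
      · rw [SetLike.mem_coe, Subalgebra.mem_comap]
        exact Algebra.subset_adjoin ⟨k, rfl⟩
    exact h1 hgf
  set J' : I → Fin m → MvPolynomial (Fin n) K :=
    fun i k => pderiv (i : Fin n) (th I a (f k)) with hJ'
  obtain ⟨s, row, col, hdet, hmax⟩ := exists_max_minor J'
  have hJ0 : ∀ κ : I → Fin m, (Matrix.of fun p q => J' p (κ q)).det = 0 := by
    intro κ
    have h1 : (Matrix.of fun p q => J' p (κ q)) = Matrix.of fun p q : I =>
        (2 * X (p : Fin n)) * (th I a).mapMatrix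
          (Matrix.of fun p q : I => pderiv (p : Fin n) (f (κ q))) p q := by
      refine Matrix.ext fun p q => ?_
      simp only [hJ', Matrix.of_apply, AlgHom.mapMatrix_apply, Matrix.map_apply]
      exact pderiv_th a p.2 _
    rw [h1, Matrix.det_mul_column, ← AlgHom.map_det, hJ, map_zero, mul_zero]
  obtain ⟨i₁, hi₁⟩ := exists_not_mem_range hJ0 hdet
  set row' : Fin (s + 1) → I := Fin.cons i₁ row with hrow'
  have hinj : Function.Injective row' := Fin.cons_injective_iff.2 ⟨hi₁, row_injective hdet⟩
  have hs : s ≤ r := by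
    have := Fintype.card_le_of_injective row' hinj
    rw [Fintype.card_fin, Fintype.card_coe, hI] at this
    omega
  set Λ := (addCol J' row' col fun _ => 1).det with hΛ
  have hΛS : ∀ c ∈ S, ∀ y : Fin n → K, ∑ i ∈ I, y i = c → eval y Λ = 0 := by
    intro c hc y hy
    exact eval_addCol_one (f := fun k => th I a (f k)) (fun col' => hmax row' col') hg' hgf'
      (hzero c hc) hy
  obtain ⟨y, hy⟩ : ∃ y, eval y Λ ≠ 0 := by
    by_contra hcon
    push Not at hcon
    refine hdet ?_
    exact minor_eq_zero a (f := f) (row := row') (col := col) (fun p h => by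
      have := hinj h
      exact Fin.succ_ne_zero p this) hcon
  rw [hI] at hS
  have hS2 : S.card = 2 * 2 ^ (n - r - 1) := by
    rw [hS, pow_succ, mul_comm, Nat.sub_sub]
  rcases hcase with ⟨i, hi, D, hD, hrD⟩ | ⟨i, hi, j, hj, hij, w, hw, hwr⟩
  · -- small degree
    set q := lineI i y Λ with hq
    have hq0 : q ≠ 0 := by
      intro h0
      apply hy
      have h1 := eval_lineI i y Λ (y i)
      rw [← hq, h0, Polynomial.eval_zero, Function.update_eq_self] at h1
      exact h1.symm
    have hdeg : q.natDegree ≤ s * (2 * D) := natDegree_lineI_addCol a hD row' col y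
    have hroots : (S.image fun c => c - ∑ k ∈ I.erase i, y k) ⊆ q.roots.toFinset := by
      intro z hz
      rw [Finset.mem_image] at hz
      obtain ⟨c, hc, rfl⟩ := hz
      rw [Multiset.mem_toFinset, Polynomial.mem_roots hq0, Polynomial.IsRoot, hq, eval_lineI]
      apply hΛS c hc
      rw [← Finset.add_sum_erase _ _ hi, Function.update_self]
      have h1 : ∑ x ∈ I.erase i, Function.update y i (c - ∑ k ∈ I.erase i, y k) x =
          ∑ x ∈ I.erase i, y x := Finset.sum_congr rfl fun k hk =>
            Function.update_of_ne (Finset.ne_of_mem_erase hk) _ _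
      rw [h1]
      ring
    have hc1 := Finset.card_le_card hroots
    rw [Finset.card_image_of_injective _ fun x x' h => sub_left_injective h] at hc1
    have hc2 := (Multiset.toFinset_card_le q.roots).trans (Polynomial.card_roots' q)
    have h2 : s * (2 * D) ≤ 2 * (r * D) := by
      calc s * (2 * D) ≤ r * (2 * D) := Nat.mul_le_mul_right _ hs
        _ = 2 * (r * D) := by ring
    omega
  · -- small rank
    have hG := rankLE_addCol a hi hj hij hw hinj col y
    have hws : w ^ s ≤ 2 ^ (n - r - 1) := by
      rcases Nat.eq_zero_or_pos w with h0 | h0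
      · subst h0
        rcases Nat.eq_zero_or_pos s with h1 | h1
        · rw [h1, pow_zero]
          exact Nat.one_le_two_pow
        · rw [zero_pow h1.ne']
          exact Nat.zero_le _
      · exact (Nat.pow_le_pow_right h0 hs).trans hwr
    have h1 := hG.eq_zero (S.image fun c => c - ∑ k ∈ (I.erase i).erase j, y k) (by
      rw [Finset.card_image_of_injective _ fun x x' h => sub_left_injective h, hS2]
      omega) (fun c hc t => by
        rw [Finset.mem_image] at hc
        obtain ⟨c', hc', rfl⟩ := hc
        apply hΛS c' hc'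
        rw [sum_update_two hi hj hij]
        ring) (y i) (y j)
    apply hy
    rw [← h1]
    congr 1
    rw [Function.update_eq_self, Function.update_eq_self]

end Pool.Agent.T9h67.BSS
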