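import Pool.Agent.T9h67.BSS.Core

/-!
# Sums of power products which vanish on parallel lines: the final count
-/

set_option autoImplicit false

open Polynomial

namespace Pool.Agent.T9h67.BSS

variable {K : Type} [Field K] {κ ι : Type} [Fintype κ] [DecidableEq κ]
  {F : κ → K[X][X]} {e : ι → κ → ℕ}

theorem eq_zero_of_map_eval [Infinite K] {f : K[X][X]}
    (h : ∀ c : K, f.map (evalRingHom c) = 0) : f = 0 := by
  ext1 a
  rw [coeff_zero]
  refine Polynomial.funext fun c => ?_
  have := congrArg (fun p : K[X] => p.coeff a) (h c)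
  simpa [coeff_map] using this

/-- `T_m` as a combination of the maximal family, without denominators. -/
theorem relation (hF : ∀ k, F k ≠ 0) {s : ℕ} {φ : Fin s → ι} (hφ : (MM F e φ).det ≠ 0)
    (hmax : ∀ ψ : Fin (s + 1) → ι, (MM F e ψ).det = 0) (m : ι) {α β : Fin s → K[X]}
    (h : ∀ a, C (β a) * ((MM F e φ).cramer (fun r => UU F (e m) r) a * TT F (e m)) =
        C (α a) * ((MM F e φ).det * TT F (e (φ a)))) :
    C (∏ a, β a) * TT F (e m) =
      ∑ a, C (α a * ∏ a' ∈ Finset.univ.erase a, β a') * TT F (e (φ a)) := by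
  classical
  have h1 := exists_dep hφ hmax m 0 (Nat.zero_le _)
  simp only [UU, one_mul, mul_one] at h1
  refine mul_left_cancel₀ hφ ?_
  have h2 : (MM F e φ).det * (C (∏ a, β a) * TT F (e m)) = C (∏ a, β a) *
      ((∑ a, (MM F e φ).cramer (fun r => UU F (e m) r) a) * TT F (e m)) := by
    rw [h1]; ring
  rw [h2, Finset.sum_mul, Finset.mul_sum, Finset.mul_sum]
  refine Finset.sum_congr rfl fun a _ => ?_
  rw [← Finset.mul_prod_erase _ _ (Finset.mem_univ a), map_mul, map_mul]
  linear_combination (C (∏ a' ∈ Finset.univ.erase a, β a')) * h a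

theorem independent {s : ℕ} {φ : Fin s → ι} {c : K}
    (hD : (MM F e φ).det.map (evalRingHom c) ≠ 0) (hT : ∀ l, (TT F (e l)).map (evalRingHom c) ≠ 0)
    (μ : Fin s → K) (h : ∑ a, C (μ a) * (TT F (e (φ a))).map (evalRingHom c) = 0) (a : Fin s) :
    μ a = 0 := by
  classical
  let M' : Matrix (Fin s) (Fin s) K[X] := (mapRingHom (evalRingHom c)).mapMatrix (MM F e φ)
  have hM' : M'.det ≠ 0 := by
    have : M'.det = (MM F e φ).det.map (evalRingHom c) :=
      (RingHom.map_det (mapRingHom (evalRingHom c)) (MM F e φ)).symm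
    rw [this]; exact hD
  have h1 : M'.mulVec (fun a => C (μ a) * (TT F (e (φ a))).map (evalRingHom c)) = 0 := by
    funext r
    have h2 := congrArg (fun p => ((QQ F).map (evalRingHom c)) ^ (r : ℕ) * derivative^[r] p) h
    simp only [iterate_derivative_sum, iterate_derivative_C_mul, iterate_derivative_zero,
      mul_zero] at h2
    rw [Pi.zero_apply, ← h2, Finset.mul_sum]
    simp only [Matrix.mulVec, dotProduct]
    refine Finset.sum_congr rfl fun a _ => ?_
    have h3 := congrArg (Polynomial.map (evalRingHom c)) (UU_spec F (e (φ a)) r)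
    rw [Polynomial.map_mul, Polynomial.map_mul, Polynomial.map_pow,
      ← iterate_derivative_map] at h3
    have h4 : M' r a = (UU F (e (φ a)) r).map (evalRingHom c) := rfl
    rw [h4]
    linear_combination (- C (μ a)) * h3
  have h2 := congrFun (Matrix.eq_zero_of_mulVec_eq_zero hM' h1) a
  exact C_eq_zero.1 ((mul_eq_zero.1 h2).resolve_right (hT _))

theorem two_Dl (s q : ℕ) : 2 * Dl s q = q * (s * (s - 1)) := by
  unfold Dl
  rw [Fin.sum_univ_eq_sum_range (fun r => r * q) s, ← Finset.sum_mul]
  have := Finset.sum_range_id_mul_two s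
  calc 2 * ((∑ i ∈ Finset.range s, i) * q) = ((∑ i ∈ Finset.range s, i) * 2) * q := by ring
    _ = q * (s * (s - 1)) := by rw [this]; ring

theorem bound_le {s t q : ℕ} (hs : s ≤ t) (ht : 1 ≤ t) :
    Dl s q + q + t * (2 * Dl s q) ≤ q * t ^ 3 := by
  obtain ⟨t', rfl⟩ : ∃ t', t = t' + 1 := ⟨t - 1, by omega⟩
  have h1 : s * (s - 1) ≤ (t' + 1) * t' := Nat.mul_le_mul hs (by omega)
  have h2 := two_Dl s q
  have h3 : q * (s * (s - 1)) ≤ q * ((t' + 1) * t') := Nat.mul_le_mul_left _ h1
  have h4 : 2 * Dl s q ≤ q * ((t' + 1) * t') := h2.trans_le h3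
  have h5 : (t' + 1) * (2 * Dl s q) ≤ (t' + 1) * (q * ((t' + 1) * t')) :=
    Nat.mul_le_mul_left _ h4
  nlinarith [Nat.zero_le (q * t'), Nat.zero_le (q * t' * t')]

/-- **Main lemma.** A sum of power products of symmetric polynomials which vanishes on more than
`q t ^ 3` lines `u = c` is zero. -/
theorem sum_eq_zero_of_lines [CharZero K] [Fintype ι] (hF : ∀ k, F k ≠ 0)
    (hsw : ∀ k, tau (F k) = F k) {d : κ → ℕ} (hd : ∀ k, BU (d k) (F k))
    (hd' : ∀ k, (F k).natDegree ≤ d k) (S : Finset K)
    (hS : (∑ k, d k) * (Fintype.card ι) ^ 3 < S.card)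
    (h0 : ∀ c ∈ S, (∑ l, TT F (e l)).map (evalRingHom c) = 0) : ∑ l, TT F (e l) = 0 := by
  classical
  rcases isEmpty_or_nonempty ι with hι | hι
  · simp
  have ht : 1 ≤ Fintype.card ι := Fintype.card_pos
  obtain ⟨s, φ, hs, hφ, hmax⟩ := exists_max F e
  choose α β h using fun m => exists_bounded hF hsw hd hd' hφ hmax m
  set q := ∑ k, d k with hq
  set D := (MM F e φ).det with hD
  set Δ := Dl s q with hΔ
  have hrel := fun m => relation hF hφ hmax m fun a => (h m a).2.2.2.2
  -- evaluation
  have hTm : ∀ c : K, (∀ m a, (β m a).eval c ≠ 0) → ∀ m, (TT F (e m)).map (evalRingHom c) =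
      ∑ a, C ((α m a).eval c / (β m a).eval c) * (TT F (e (φ a))).map (evalRingHom c) := by
    intro c hc m
    have h1 := congrArg (Polynomial.map (evalRingHom c)) (hrel m)
    simp only [Polynomial.map_mul, Polynomial.map_sum, map_C, coe_evalRingHom, eval_mul,
      eval_prod] at h1
    have hP : (∏ a, (β m a).eval c) ≠ 0 := Finset.prod_ne_zero_iff.2 fun a _ => hc m a
    refine mul_left_cancel₀ (C_ne_zero.2 hP) ?_
    rw [h1, Finset.mul_sum]
    refine Finset.sum_congr rfl fun a _ => ?_
    rw [← mul_assoc, ← C_mul]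
    congr 2
    rw [← Finset.mul_prod_erase _ _ (Finset.mem_univ a)]
    have := hc m a
    field_simp
  have hG : ∀ c : K, (∀ m a, (β m a).eval c ≠ 0) → (∑ m, TT F (e m)).map (evalRingHom c) =
      ∑ a, C (∑ m, (α m a).eval c / (β m a).eval c) * (TT F (e (φ a))).map (evalRingHom c) := by
    intro c hc
    rw [Polynomial.map_sum, Finset.sum_congr rfl fun m _ => hTm c hc m, Finset.sum_comm]
    refine Finset.sum_congr rfl fun a _ => ?_
    rw [map_sum, Finset.sum_mul]
  set N : Fin s → K[X] := fun a => ∑ m, α m a * ∏ m' ∈ Finset.univ.erase m, β m' a with hN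
  have hNc : ∀ c : K, (∀ m a, (β m a).eval c ≠ 0) → ∀ a, (N a).eval c =
      (∏ m, (β m a).eval c) * ∑ m, (α m a).eval c / (β m a).eval c := by
    intro c hc a
    simp only [hN, eval_finsetSum, eval_mul, eval_prod]
    rw [Finset.mul_sum]
    refine Finset.sum_congr rfl fun m _ => ?_
    rw [← Finset.mul_prod_erase _ _ (Finset.mem_univ m)]
    have := hc m a
    field_simp
  have hNd : ∀ a, (N a).natDegree ≤ Fintype.card ι * (2 * Δ) := by
    intro a
    refine natDegree_sum_le_of_forall_le _ _ fun m _ => ?_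
    refine natDegree_mul_le.trans ?_
    have h1 : (∏ m' ∈ Finset.univ.erase m, β m' a).natDegree ≤
        ∑ m' ∈ Finset.univ.erase m, 2 * Δ :=
      (natDegree_prod_le _ _).trans (Finset.sum_le_sum fun m' _ => (h m' a).2.2.2.1)
    have h2 : (∑ m' ∈ Finset.univ.erase m, 2 * Δ) + 2 * Δ = Fintype.card ι * (2 * Δ) := by
      rw [Finset.sum_erase_add _ _ (Finset.mem_univ m), Finset.sum_const, Finset.card_univ,
        smul_eq_mul]
    have h3 := (h m a).2.2.1
    omega
  -- all numerators vanish
  have hN0 : ∀ a, N a = 0 := by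
    intro a
    by_contra hne
    have hgood : ∀ c ∈ S, D.map (evalRingHom c) ≠ 0 → (QQ F).map (evalRingHom c) ≠ 0 →
        (N a).eval c = 0 := by
      intro c hc hDc hQc
      have hFc : ∀ k, (F k).map (evalRingHom c) ≠ 0 := by
        unfold QQ at hQc
        rw [Polynomial.map_prod, Finset.prod_ne_zero_iff] at hQc
        exact fun k => hQc k (Finset.mem_univ k)
      have hTc : ∀ l, (TT F (e l)).map (evalRingHom c) ≠ 0 := by
        intro l
        unfold TT
        rw [Polynomial.map_prod, Finset.prod_ne_zero_iff]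
        intro k _
        rw [Polynomial.map_pow]
        exact pow_ne_zero _ (hFc k)
      have hβ : ∀ m a, (β m a).eval c ≠ 0 := by
        intro m a hb
        have h1 := congrArg (Polynomial.map (evalRingHom c)) (h m a).2.2.2.2
        simp only [Polynomial.map_mul, map_C, coe_evalRingHom, hb, map_zero, zero_mul] at h1
        have h2 := (mul_eq_zero.1 h1.symm).resolve_right (mul_ne_zero hDc (hTc _))
        rw [C_eq_zero] at h2
        obtain ⟨x, y, hxy⟩ := (h m a).1
        have h3 := congrArg (Polynomial.eval c) hxy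
        rw [eval_add, eval_mul, eval_mul, h2, hb, mul_zero, mul_zero, add_zero, eval_one] at h3
        exact zero_ne_one h3
      have h1 := h0 c hc
      rw [hG c hβ] at h1
      have h2 := independent hDc hTc _ h1 a
      rw [hNc c hβ a, h2, mul_zero]
    have hsub : S ⊆ (S.filter fun c => D.map (evalRingHom c) = 0) ∪
        ((S.filter fun c => (QQ F).map (evalRingHom c) = 0) ∪
          (S.filter fun c => (N a).eval c = 0)) := by
      intro c hc
      rw [Finset.mem_union, Finset.mem_union, Finset.mem_filter, Finset.mem_filter,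
        Finset.mem_filter]
      by_cases h1 : D.map (evalRingHom c) = 0
      · exact Or.inl ⟨hc, h1⟩
      · by_cases h2 : (QQ F).map (evalRingHom c) = 0
        · exact Or.inr (Or.inl ⟨hc, h2⟩)
        · exact Or.inr (Or.inr ⟨hc, hgood c hc h1 h2⟩)
    have hc1 : (S.filter fun c => D.map (evalRingHom c) = 0).card ≤ Δ :=
      card_bad_le hφ (BU_det hd φ) _ fun c hc => (Finset.mem_filter.1 hc).2
    have hc2 : (S.filter fun c => (QQ F).map (evalRingHom c) = 0).card ≤ q :=
      card_bad_le (QQ_ne_zero hF) (BU.prod d _ _ fun k _ => hd k) _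
        fun c hc => (Finset.mem_filter.1 hc).2
    have hc3 : (S.filter fun c => (N a).eval c = 0).card ≤ Fintype.card ι * (2 * Δ) := by
      refine le_trans (Polynomial.card_le_degree_of_subset_roots (p := N a) ?_) (hNd a)
      intro c hc
      rw [mem_roots hne]
      exact (Finset.mem_filter.1 hc).2
    have hcard := (Finset.card_le_card hsub).trans ((Finset.card_union_le _ _).trans
      (add_le_add le_rfl (Finset.card_union_le _ _)))
    have hb := bound_le (s := s) (t := Fintype.card ι) (q := q) hs ht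
    rw [← hΔ] at hb
    omega
  -- conclusion
  have hH : (∏ m, ∏ a, β m a) ≠ 0 := Finset.prod_ne_zero_iff.2 fun m _ =>
    Finset.prod_ne_zero_iff.2 fun a _ => (h m a).2.1
  have hfin : (∑ l, TT F (e l)) * C (∏ m, ∏ a, β m a) = 0 := by
    refine eq_zero_of_map_eval fun c => ?_
    rw [Polynomial.map_mul, map_C, coe_evalRingHom]
    by_cases hc : (∏ m, ∏ a, β m a).eval c = 0
    · rw [hc, map_zero, mul_zero]
    · have hβ : ∀ m a, (β m a).eval c ≠ 0 := by
        intro m a
        have hc' : (∏ m, ∏ a, β m a).eval c ≠ 0 := hc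
        rw [eval_prod, Finset.prod_ne_zero_iff] at hc'
        have h1 := hc' m (Finset.mem_univ m)
        rw [eval_prod, Finset.prod_ne_zero_iff] at h1
        exact h1 a (Finset.mem_univ a)
      rw [hG c hβ]
      have h1 : ∀ a, (∑ m, (α m a).eval c / (β m a).eval c) = 0 := by
        intro a
        have h2 := hNc c hβ a
        rw [hN0 a, eval_zero] at h2
        exact (mul_eq_zero.1 h2.symm).resolve_left
          (Finset.prod_ne_zero_iff.2 fun m _ => hβ m a)
      rw [Finset.sum_congr rfl fun a _ => by rw [h1 a, map_zero, zero_mul]]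
      simp
  exact (mul_eq_zero.1 hfin).resolve_right (C_ne_zero.2 hH)

end Pool.Agent.T9h67.BSS
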