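import Pool.Agent.T9h67.BSS.Darboux

/-!
# Maximal minors
-/

set_option autoImplicit false

open MvPolynomial

namespace Pool.Agent.T9h67.BSS

/-- There is a maximal nonvanishing minor. -/
theorem exists_max_minor {A : Type} [CommRing A] [IsDomain A] {ι κ : Type} [Fintype ι]
    (J : ι → κ → A) : ∃ (s : ℕ) (row : Fin s → ι) (col : Fin s → κ),
      (Matrix.of fun p q => J (row p) (col q)).det ≠ 0 ∧
      ∀ (row' : Fin (s + 1) → ι) (col' : Fin (s + 1) → κ),
        (Matrix.of fun p q => J (row' p) (col' q)).det = 0 := by
  classical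
  let P : ℕ → Prop := fun s => ∃ (row : Fin s → ι) (col : Fin s → κ),
    (Matrix.of fun p q => J (row p) (col q)).det ≠ 0
  have hP0 : P 0 := ⟨fun a => a.elim0, fun a => a.elim0, by simp⟩
  have hPc : ∀ s, P s → s ≤ Fintype.card ι := by
    rintro s ⟨row, col, h⟩
    have hinj : Function.Injective row := by
      intro a b hab
      by_contra hne
      refine h (Matrix.det_zero_of_row_eq hne ?_)
      funext q
      simp only [Matrix.of_apply, hab]
    simpa using Fintype.card_le_of_injective row hinj
  set s := Nat.findGreatest P (Fintype.card ι) with hs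
  have hPs : P s := Nat.findGreatest_spec (Nat.zero_le _) hP0
  obtain ⟨row, col, h⟩ := hPs
  refine ⟨s, row, col, h, fun row' col' => ?_⟩
  by_contra h'
  have h1 : P (s + 1) := ⟨row', col', h'⟩
  have h2 := Nat.le_findGreatest (hPc _ h1) h1
  omega

theorem row_injective {A : Type} [CommRing A] {ι κ : Type}
    {J : ι → κ → A} {s : ℕ} {row : Fin s → ι} {col : Fin s → κ}
    (h : (Matrix.of fun p q => J (row p) (col q)).det ≠ 0) : Function.Injective row := by
  intro a b hab
  by_contra hne
  refine h (Matrix.det_zero_of_row_eq hne ?_)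
  funext q
  simp only [Matrix.of_apply, hab]

/-- If all minors with all rows vanish, then a nonvanishing minor does not have all rows. -/
theorem exists_not_mem_range {A : Type} [CommRing A] {ι κ : Type} [Fintype ι] [DecidableEq ι]
    {J : ι → κ → A} (hJ : ∀ k : ι → κ, (Matrix.of fun p q => J p (k q)).det = 0)
    {s : ℕ} {row : Fin s → ι} {col : Fin s → κ}
    (h : (Matrix.of fun p q => J (row p) (col q)).det ≠ 0) : ∃ i, i ∉ Set.range row := by
  by_contra hcon
  push Not at hcon
  have hb : Function.Bijective row := ⟨row_injective h, hcon⟩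
  let e : Fin s ≃ ι := Equiv.ofBijective row hb
  apply h
  have h1 := hJ fun q => col (e.symm q)
  rw [← Matrix.det_submatrix_equiv_self e] at h1
  rw [← h1]
  congr 1
  ext p q
  simp only [Matrix.of_apply, Matrix.submatrix_apply, Equiv.symm_apply_apply]
  rfl

/-- The matrix with an additional first column. -/
def addCol {A ι κ : Type} (J : ι → κ → A) {s : ℕ} (row : Fin (s + 1) → ι) (col : Fin s → κ)
    (v : ι → A) : Matrix (Fin (s + 1)) (Fin (s + 1)) A :=
  Matrix.of fun p q => Fin.cons (α := fun _ => A) (v (row p)) (fun b => J (row p) (col b)) q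

theorem det_addCol {A ι κ : Type} [CommRing A] (J : ι → κ → A) {s : ℕ} (row : Fin (s + 1) → ι)
    (col : Fin s → κ) (v : ι → A) : (addCol J row col v).det =
      ∑ p : Fin (s + 1), v (row p) * ((-1) ^ (p : ℕ) *
        (Matrix.of fun a b => J (row (p.succAbove a)) (col b)).det) := by
  rw [Matrix.det_succ_column_zero]
  refine Finset.sum_congr rfl fun p _ => ?_
  have h1 : (addCol J row col v).submatrix p.succAbove Fin.succ =
      Matrix.of fun a b => J (row (p.succAbove a)) (col b) := by
    ext a b
    simp [addCol]
  rw [h1]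
  simp only [addCol, Matrix.of_apply, Fin.cons_zero]
  ring

variable {K : Type} [Field K] {n : ℕ}

/-- The derivation given by the minors. -/
noncomputable def dl {I : Finset (Fin n)} {κ : Type}
    (J : I → κ → MvPolynomial (Fin n) K) {s : ℕ} (row : Fin (s + 1) → I) (col : Fin s → κ) :
    Derivation K (MvPolynomial (Fin n) K) (MvPolynomial (Fin n) K) :=
  ∑ p : Fin (s + 1), ((-1) ^ (p : ℕ) *
    (Matrix.of fun a b => J (row (p.succAbove a)) (col b)).det) • pderiv (row p : Fin n)

theorem dl_apply {I : Finset (Fin n)} {κ : Type}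
    (J : I → κ → MvPolynomial (Fin n) K) {s : ℕ} (row : Fin (s + 1) → I) (col : Fin s → κ)
    (h : MvPolynomial (Fin n) K) :
    dl J row col h = (addCol J row col fun i => pderiv (i : Fin n) h).det := by
  rw [det_addCol]
  unfold dl
  rw [← Derivation.coeFnAddMonoidHom_apply, map_sum, Finset.sum_apply]
  refine Finset.sum_congr rfl fun p _ => ?_
  simp only [Derivation.coeFnAddMonoidHom_apply, Derivation.smul_apply, smul_eq_mul]
  ring

/-- The determinant of the matrix with a column of ones vanishes on the hyperplanes on which a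
polynomial killed by the derivation vanishes. -/
theorem eval_addCol_one [CharZero K] {I : Finset (Fin n)} {κ : Type}
    {f : κ → MvPolynomial (Fin n) K} {s : ℕ} {row : Fin (s + 1) → I} {col : Fin s → κ}
    (hmax : ∀ col' : Fin (s + 1) → κ,
      (Matrix.of fun p q => pderiv (row p : Fin n) (f (col' q))).det = 0)
    {g : MvPolynomial (Fin n) K} (hg : g ≠ 0) (hgf : g ∈ Algebra.adjoin K (Set.range f)) {c : K}
    (hc : ∀ y : Fin n → K, ∑ i ∈ I, y i = c → eval y g = 0) {y : Fin n → K}
    (hy : ∑ i ∈ I, y i = c) :
    eval y (addCol (fun (i : I) k => pderiv (i : Fin n) (f k)) row col fun _ => 1).det = 0 := by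
  classical
  set J : I → κ → MvPolynomial (Fin n) K := fun i k => pderiv (i : Fin n) (f k) with hJ
  have hδf : ∀ k, dl J row col (f k) = 0 := by
    intro k
    rw [dl_apply]
    rw [← hmax (Fin.cons k col)]
    congr 1
    ext p q : 2
    refine Fin.cases ?_ (fun q => ?_) q
    · simp [addCol]
    · simp [addCol, hJ]
  have hδg : dl J row col g = 0 := by
    refine Algebra.adjoin_induction (p := fun x _ => dl J row col x = 0) ?_ ?_ ?_ ?_ hgf
    · rintro _ ⟨k, rfl⟩
      exact hδf k
    · intro r
      exact Derivation.map_algebraMap _ _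
    · intro a b _ _ ha hb
      rw [map_add, ha, hb, add_zero]
    · intro a b _ _ ha hb
      rw [Derivation.leibniz, ha, hb, smul_zero, smul_zero, add_zero]
  have hi : ((row 0 : I) : Fin n) ∈ I := (row 0).2
  have h1 := darboux (dl J row col) (prime_hyp hi c) hg (hyp_dvd_of_eval hi hc) hδg
  have h2 : dl J row col (hyp I c) = (addCol J row col fun _ => 1).det := by
    rw [dl_apply]
    congr 2
    funext i
    unfold hyp
    rw [map_sub, map_sum, pderiv_C, sub_zero, Finset.sum_eq_single (i : Fin n)]
    · exact pderiv_X_self _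
    · intro b _ hb
      exact pderiv_X_of_ne hb
    · intro h
      exact absurd i.2 h
  rw [← h2]
  exact eval_of_hyp_dvd h1 hy

end Pool.Agent.T9h67.BSS
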