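import Pool.Agent.T9h67.BSS.Slice
import Pool.Agent.T9h67.BSS.Minor

/-!
# Parity
-/

set_option autoImplicit false

open MvPolynomial

namespace Pool.Agent.T9h67.BSS

variable {K : Type} [Field K] {n : ℕ}

theorem pderiv_th {I : Finset (Fin n)} (a : Fin n → K) {p : Fin n} (hp : p ∈ I)
    (f : MvPolynomial (Fin n) K) :
    pderiv p (th I a f) = 2 * X p * th I a (pderiv p f) := by
  classical
  induction f using MvPolynomial.induction_on with
  | C r =>
    have h2 : th I a (C r) = C r := by
      rw [← algebraMap_eq]
      exact AlgHom.commutes _ _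
    rw [h2, pderiv_C, map_zero, mul_zero]
  | add u v hu hv =>
    rw [map_add, map_add, hu, hv, map_add, map_add, mul_add]
  | mul_X u k hu =>
    rw [map_mul, Derivation.leibniz, Derivation.leibniz, hu]
    simp only [smul_eq_mul]
    rw [map_add, map_mul, map_mul]
    have h1 : pderiv p (th I a (X k)) = 2 * X p * th I a (pderiv p (X k)) := by
      unfold th
      rw [aeval_X]
      by_cases hk : k = p
      · subst hk
        rw [if_pos hp, pderiv_X_self, Derivation.leibniz_pow, pderiv_X_self, map_one]
        simp only [smul_eq_mul, nsmul_eq_mul]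
        push_cast
        ring
      · rw [pderiv_X_of_ne hk, map_zero, mul_zero]
        split_ifs
        · rw [Derivation.leibniz_pow, pderiv_X_of_ne hk, smul_zero, smul_zero]
        · exact pderiv_C
    rw [h1]
    ring

theorem eval_pderiv_th_neg {I : Finset (Fin n)} (a : Fin n → K) {p i : Fin n} (hp : p ∈ I)
    (f : MvPolynomial (Fin n) K) (y : Fin n → K) :
    eval (Function.update y i (- y i)) (pderiv p (th I a f)) =
      (if p = i then -1 else 1) * eval y (pderiv p (th I a f)) := by
  classical
  rw [pderiv_th a hp, map_mul, map_mul, map_mul, map_mul, eval_th, eval_th, eval_X, eval_X]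
  have h1 : (sq fun k => if k ∈ I then Function.update y i (- y i) k else a k) =
      sq fun k => if k ∈ I then y k else a k := by
    funext k
    show (if k ∈ I then Function.update y i (- y i) k else a k) ^ 2 =
      (if k ∈ I then y k else a k) ^ 2
    by_cases hk : k = i
    · subst hk
      rw [Function.update_self]
      split_ifs <;> ring
    · rw [Function.update_of_ne hk]
  rw [h1]
  by_cases hpi : p = i
  · subst hpi
    rw [Function.update_self, if_pos rfl]
    simp only [map_ofNat]
    ring
  · rw [Function.update_of_ne hpi, if_neg hpi]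
    simp only [map_ofNat]
    ring

/-- If the determinant with a column of ones vanishes, then so does the minor without the first
row. -/
theorem minor_eq_zero [CharZero K] {I : Finset (Fin n)} (a : Fin n → K) {κ : Type}
    {f : κ → MvPolynomial (Fin n) K} {s : ℕ} {row : Fin (s + 1) → I} {col : Fin s → κ}
    (hrow : ∀ p : Fin s, row p.succ ≠ row 0)
    (h : ∀ y, eval y (addCol (fun (i : I) k => pderiv (i : Fin n) (th I a (f k)))
      row col fun _ => 1).det = 0) :
    (Matrix.of fun p q => pderiv (row p.succ : Fin n) (th I a (f (col q)))).det = 0 := by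
  classical
  refine MvPolynomial.funext fun y => ?_
  rw [map_zero]
  set N := addCol (fun (i : I) k => pderiv (i : Fin n) (th I a (f k))) row col fun _ => 1 with hN
  set y' := Function.update y (row 0 : Fin n) (- y (row 0)) with hy'
  set M : Matrix (Fin (s + 1)) (Fin (s + 1)) K := (eval y).mapMatrix N with hM
  set M' : Matrix (Fin (s + 1)) (Fin (s + 1)) K := (eval y').mapMatrix N with hM'
  have h1 : M.det = 0 := by
    rw [hM, ← RingHom.map_det]
    exact h y
  have h2 : M'.det = 0 := by
    rw [hM', ← RingHom.map_det]
    exact h y'
  set r : Fin (s + 1) → K := Fin.cons 1 fun b => - M 0 b.succ with hr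
  have h3 : M' = M.updateRow 0 r := by
    ext p q
    refine Fin.cases ?_ (fun p => ?_) p
    · rw [Matrix.updateRow_self]
      refine Fin.cases ?_ (fun q => ?_) q
      · simp [hM', hr, hN, addCol]
      · simp only [hM', hr, hM, hN, addCol, RingHom.mapMatrix_apply, Matrix.map_apply,
          Matrix.of_apply, Fin.cons_succ]
        rw [eval_pderiv_th_neg a (row 0).2, if_pos rfl]
        ring
    · rw [Matrix.updateRow_ne (Fin.succ_ne_zero p)]
      refine Fin.cases ?_ (fun q => ?_) q
      · simp [hM', hM, hN, addCol]
      · simp only [hM', hM, hN, addCol, RingHom.mapMatrix_apply, Matrix.map_apply,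
          Matrix.of_apply, Fin.cons_succ]
        rw [eval_pderiv_th_neg a (row p.succ).2, if_neg, one_mul]
        exact fun h => hrow p (Subtype.ext h)
  have h4 : M 0 + r = Pi.single 0 2 := by
    funext q
    refine Fin.cases ?_ (fun q => ?_) q
    · simp [hr, hM, hN, addCol]
      norm_num
    · simp [hr]
  have h5 : (M.updateRow 0 (Pi.single 0 2)).det = 0 := by
    rw [← h4, Matrix.det_updateRow_add, Matrix.updateRow_eq_self, h1, ← h3, h2, add_zero]
  rw [Matrix.det_succ_row_zero, Finset.sum_eq_single 0] at h5
  · rw [Matrix.updateRow_self] at h5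
    simp only [Fin.val_zero, pow_zero, one_mul, Pi.single_eq_same, Fin.succAbove_zero] at h5
    have h6 := (mul_eq_zero.1 h5).resolve_left two_ne_zero
    rw [RingHom.map_det, ← h6]
    congr 1
  · intro b _ hb
    rw [Matrix.updateRow_self, Pi.single_eq_of_ne hb]
    ring
  · intro h
    exact absurd (Finset.mem_univ _) h

end Pool.Agent.T9h67.BSS
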