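import Pool.Agent.T9h67.BSS.Base

/-!
# Restriction to a plane

A nonzero polynomial which vanishes on `RootSum K n` gives, after substituting squares and fixing all
but two coordinates, a nonzero function of two variables which vanishes on `2 ^ (n - 1)` parallel
lines.
-/

set_option autoImplicit false

open MvPolynomial

namespace Pool.Agent.T9h67.BSS

variable {K : Type} [Field K] {n : ℕ}

/-- Signed sum of the coordinates outside `i` and `j`, with signs changed on `E`. -/
noncomputable def sg (i j : Fin n) (E : Finset (Fin n)) (a : Fin n → K) : K :=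
  ∑ k ∈ (Finset.univ.erase i).erase j, (if k ∈ E then - a k else a k)

/-- The constant terms of the parallel lines. -/
noncomputable def cst (i j : Fin n) (z : Bool × Finset (Fin n)) (a : Fin n → K) : K :=
  (if z.1 then 1 else -1) * (1 - sg i j z.2 a)

theorem exists_generic [CharZero K] {g : MvPolynomial (Fin n) K} (hg : g ≠ 0) (i j : Fin n) :
    ∃ a : Fin n → K, eval (sq a) g ≠ 0 ∧
      Set.InjOn (fun z => cst i j z a) ((Finset.univ ×ˢ ((Finset.univ.erase i).erase j).powerset :
        Finset (Bool × Finset (Fin n))) : Set (Bool × Finset (Fin n))) := by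
  classical
  set S : Finset (Fin n) := (Finset.univ.erase i).erase j with hS
  let sp : Finset (Fin n) → MvPolynomial (Fin n) K := fun E =>
    ∑ k ∈ S, C (if k ∈ E then (-1 : K) else 1) * X k
  have hsp : ∀ E (a : Fin n → K), eval a (sp E) = sg i j E a := by
    intro E a
    simp only [sp, sg, map_sum, map_mul, eval_C, eval_X]
    refine Finset.sum_congr rfl fun k _ => ?_
    split_ifs <;> ring
  let cp : Bool × Finset (Fin n) → MvPolynomial (Fin n) K := fun z =>
    C (if z.1 then 1 else -1) * (1 - sp z.2)
  have hcp : ∀ z (a : Fin n → K), eval a (cp z) = cst i j z a := by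
    intro z a
    simp only [cp, cst, map_mul, eval_C, map_sub, map_one, hsp]
  have hd0 : ∀ E ∈ ((Finset.univ : Finset Bool) ×ˢ S.powerset).offDiag, cp E.1 - cp E.2 ≠ 0 := by
    rintro ⟨⟨b, E⟩, ⟨b', E'⟩⟩ hE h0
    rw [Finset.mem_offDiag, Finset.mem_product, Finset.mem_product] at hE
    obtain ⟨⟨-, h1⟩, ⟨-, h2⟩, h3⟩ := hE
    simp only [Finset.mem_powerset] at h1 h2
    simp only at h0 h3
    have h4 : ∀ a : Fin n → K, cst i j (b, E) a = cst i j (b', E') a := by
      intro a
      rw [← hcp, ← hcp, ← sub_eq_zero, ← map_sub, h0, map_zero]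
    by_cases hb : b = b'
    · subst hb
      have hEE : E ≠ E' := fun h => h3 (by rw [h])
      obtain ⟨k, hk⟩ : ∃ k, ¬ (k ∈ E ↔ k ∈ E') := by
        by_contra hcon
        push Not at hcon
        exact hEE (Finset.ext hcon)
      have hkS : k ∈ S := by
        by_cases hk1 : k ∈ E
        · exact h1 hk1
        · have : k ∈ E' := by
            by_contra hk2
            exact hk (iff_of_false hk1 hk2)
          exact h2 this
      have h5 : ∀ F : Finset (Fin n), sg i j F (Pi.single k (1 : K)) = if k ∈ F then -1 else 1 := by
        intro F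
        unfold sg
        rw [← hS, Finset.sum_eq_single k]
        · simp
        · intro c _ hc
          simp [hc]
        · intro h
          exact absurd hkS h
      have h6 := h4 (Pi.single k 1)
      simp only [cst, h5] at h6
      have h7 : (if b = true then (1 : K) else -1) ≠ 0 := by split_ifs <;> norm_num
      have h8 := mul_left_cancel₀ h7 h6
      by_cases hk1 : k ∈ E
      · have hk2 : k ∉ E' := fun h => hk (iff_of_true hk1 h)
        rw [if_pos hk1, if_neg hk2] at h8
        norm_num at h8
      · have hk2 : k ∈ E' := by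
          by_contra h
          exact hk (iff_of_false hk1 h)
        rw [if_neg hk1, if_pos hk2] at h8
        norm_num at h8
    · have h5 : ∀ F : Finset (Fin n), sg i j F (0 : Fin n → K) = 0 := by
        intro F
        unfold sg
        exact Finset.sum_eq_zero fun k _ => by simp
      have h6 := h4 0
      simp only [cst, h5, sub_zero, mul_one] at h6
      rcases b with _ | _ <;> rcases b' with _ | _
      · exact hb rfl
      · norm_num at h6
      · norm_num at h6
      · exact hb rfl
  have hP : expand 2 g * ∏ E ∈ ((Finset.univ : Finset Bool) ×ˢ S.powerset).offDiag,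
      (cp E.1 - cp E.2) ≠ 0 :=
    mul_ne_zero (expand_ne_zero two_pos |>.2 hg) (Finset.prod_ne_zero_iff.2 hd0)
  obtain ⟨a, ha⟩ : ∃ a, eval a (expand 2 g *
      ∏ E ∈ ((Finset.univ : Finset Bool) ×ˢ S.powerset).offDiag, (cp E.1 - cp E.2)) ≠ 0 := by
    by_contra hcon
    push Not at hcon
    exact hP (MvPolynomial.funext (by simpa using hcon))
  rw [map_mul, map_prod] at ha
  refine ⟨a, ?_, ?_⟩
  · have h1 : eval a (expand 2 g) = eval (sq a) g := by
      rw [MvPolynomial.eval, MvPolynomial.coe_eval₂Hom, MvPolynomial.eval₂_expand]
      rfl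
    rw [← h1]
    exact left_ne_zero_of_mul ha
  · intro E hE F hF hEF
    by_contra hne
    have h1 := Finset.prod_ne_zero_iff.1 (right_ne_zero_of_mul ha) (E, F)
      (Finset.mem_offDiag.2 ⟨hE, hF, hne⟩)
    rw [map_sub, hcp, hcp] at h1
    exact h1 (sub_eq_zero.2 hEF)

/-- The function of two variables obtained from `g (y ^ 2)`. -/
noncomputable def plane (g : MvPolynomial (Fin n) K) (i j : Fin n) (a : Fin n → K) (s t : K) : K :=
  eval (sq (Function.update (Function.update a i s) j t)) g

theorem sum_update {i j : Fin n} (hij : i ≠ j) (E : Finset (Fin n)) (hE : i ∉ E) (hE' : j ∉ E)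
    (a : Fin n → K) (s t : K) :
    ∑ k, (if k ∈ E then - Function.update (Function.update a i s) j t k
      else Function.update (Function.update a i s) j t k) = s + t + sg i j E a := by
  classical
  rw [← Finset.add_sum_erase _ _ (Finset.mem_univ i),
    ← Finset.add_sum_erase _ _ (Finset.mem_erase.2 ⟨hij.symm, Finset.mem_univ j⟩)]
  rw [if_neg hE, if_neg hE']
  have h1 : Function.update (Function.update a i s) j t i = s := by
    rw [Function.update_of_ne hij, Function.update_self]
  have h2 : Function.update (Function.update a i s) j t j = t := by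
    rw [Function.update_self]
  rw [h1, h2, ← add_assoc]
  congr 1
  unfold sg
  refine Finset.sum_congr rfl fun k hk => ?_
  rw [Finset.mem_erase, Finset.mem_erase] at hk
  rw [Function.update_of_ne hk.1, Function.update_of_ne hk.2.1]

theorem plane_neg (g : MvPolynomial (Fin n) K) {i j : Fin n} (a : Fin n → K) (s t : K) :
    plane g i j a (-s) (-t) = plane g i j a s t := by
  unfold plane
  congr 2
  funext k
  unfold sq
  by_cases hj : k = j
  · subst hj; simp
  · by_cases hi : k = i
    · subst hi
      simp [Function.update_of_ne hj]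
    · simp [Function.update_of_ne hj, Function.update_of_ne hi]

theorem exists_plane [CharZero K] {g : MvPolynomial (Fin n) K} (hg : g ≠ 0) (hv : Vanish g)
    {i j : Fin n} (hij : i ≠ j) :
    ∃ a : Fin n → K, ∃ C : Finset K, C.card = 2 ^ (n - 1) ∧ (∃ s t, plane g i j a s t ≠ 0) ∧
      ∀ c ∈ C, ∀ t, plane g i j a (c - t) t = 0 := by
  classical
  obtain ⟨a, ha, hinj⟩ := exists_generic hg i j
  have hn : 2 ≤ n := by
    have h1 : (i : ℕ) ≠ j := fun h => hij (Fin.ext h)
    have h2 := i.isLt
    have h3 := j.isLt
    omega
  refine ⟨a, (Finset.univ ×ˢ ((Finset.univ.erase i).erase j).powerset).image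
    (fun z => cst i j z a), ?_, ?_, ?_⟩
  · rw [Finset.card_image_of_injOn hinj, Finset.card_product, Finset.card_powerset,
      Finset.card_erase_of_mem, Finset.card_erase_of_mem (Finset.mem_univ i), Finset.card_univ,
      Finset.card_univ, Fintype.card_fin, Fintype.card_bool]
    · obtain ⟨m, rfl⟩ : ∃ m, n = m + 2 := ⟨n - 2, by omega⟩
      show 2 * 2 ^ (m + 1 - 1) = 2 ^ (m + 1)
      rw [Nat.add_sub_cancel, pow_succ]
      ring
    · exact Finset.mem_erase.2 ⟨hij.symm, Finset.mem_univ j⟩
  · refine ⟨a i, a j, ?_⟩
    unfold plane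
    rw [Function.update_eq_self, Function.update_eq_self]
    exact ha
  · have key : ∀ E ⊆ (Finset.univ.erase i).erase j, ∀ t,
        plane g i j a (1 - sg i j E a - t) t = 0 := by
      intro E hE t
      have hiE : i ∉ E := fun h => by simpa using hE h
      have hjE : j ∉ E := fun h => by simpa using hE h
      set y := Function.update (Function.update a i (1 - sg i j E a - t)) j t with hy
      have h1 := hv (fun k => if k ∈ E then - y k else y k) (by
        rw [hy, sum_update hij E hiE hjE]; ring)
      unfold plane
      rw [← hy, ← h1]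
      congr 2
      funext k
      show y k ^ 2 = (if k ∈ E then - y k else y k) ^ 2
      split_ifs <;> ring
    intro c hc t
    rw [Finset.mem_image] at hc
    obtain ⟨⟨b, E⟩, hE, rfl⟩ := hc
    rw [Finset.mem_product, Finset.mem_powerset] at hE
    rcases b with _ | _
    · have h1 := key E hE.2 (-t)
      rw [← plane_neg] at h1
      rw [← h1]
      congr 1
      · simp only [cst, Bool.false_eq_true, if_false]
        ring
      · ring
    · have h1 := key E hE.2 t
      rw [← h1]
      congr 1
      simp only [cst, if_true]
      ring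

end Pool.Agent.T9h67.BSS
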