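import Mathlib

/-!
# Functions of bounded rank which vanish on parallel lines

If `G (s, t) = ∑ l < w, P_l (s) Q_l (t)` is not zero and vanishes on `m` lines `s + t = c`, then
`m < w`.
-/

set_option autoImplicit false

open Polynomial

namespace Pool.Agent.T9h67.BSS

variable {K : Type} [Field K]

/-- A root different from zero of multiplicity `m` needs more than `m` monomials. -/
theorem card_support_of_dvd [CharZero K] {r : K} (hr : r ≠ 0) (m : ℕ) :
    ∀ f : K[X], f ≠ 0 → (X - C r) ^ m ∣ f → m < f.support.card := by
  induction m with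
  | zero =>
    intro f hf _
    exact Finset.card_pos.2 (Polynomial.support_nonempty.2 hf)
  | succ m ih =>
    intro f hf hdvd
    obtain ⟨k, hk⟩ := Polynomial.support_nonempty.2 hf
    set h : K[X] := X * derivative f - C (k : K) * f with hh
    have hcoeff : ∀ a, h.coeff a = ((a : K) - k) * f.coeff a := by
      intro a
      rw [hh, coeff_sub, coeff_C_mul]
      rcases a with _ | a
      · simp
      · rw [coeff_X_mul, coeff_derivative]
        push_cast
        ring
    have hsupp : h.support = f.support.erase k := by
      ext a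
      rw [mem_support_iff, hcoeff, Finset.mem_erase, mem_support_iff, mul_ne_zero_iff]
      have : ((a : K) - k ≠ 0) ↔ a ≠ k := by
        rw [sub_ne_zero]
        exact Nat.cast_injective.ne_iff
      rw [this]
    have hh0 : h ≠ 0 := by
      intro h0
      have hsub : f.support ⊆ {k} := by
        intro a ha
        by_contra hak
        have : a ∈ h.support := by
          rw [hsupp]
          exact Finset.mem_erase.2 ⟨by simpa using hak, ha⟩
        rw [h0] at this
        simp at this
      have h1 : f = C (f.coeff k) * X ^ k := by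
        ext a
        rw [coeff_C_mul, coeff_X_pow]
        split_ifs with hak
        · rw [hak]; ring
        · rw [mul_zero]
          by_contra hne
          exact hak (by simpa using hsub (mem_support_iff.2 hne))
      have h2 : f.eval r = 0 := by
        obtain ⟨q, hq⟩ := (dvd_pow_self (X - C r) (Nat.succ_ne_zero m)).trans hdvd
        rw [hq]
        simp
      rw [h1] at h2
      simp only [eval_mul, eval_C, eval_pow, eval_X] at h2
      exact mul_ne_zero (mem_support_iff.1 hk) (pow_ne_zero _ hr) h2
    have hdvd2 : (X - C r) ^ m ∣ h := by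
      obtain ⟨q, hq⟩ := hdvd
      refine ⟨X * (C ((m : K) + 1) * q + (X - C r) * derivative q) -
        C (k : K) * ((X - C r) * q), ?_⟩
      rw [hh, hq]
      rw [derivative_mul, derivative_pow]
      simp only [derivative_sub, derivative_X, derivative_C, Nat.add_sub_cancel, Nat.cast_add,
        Nat.cast_one, map_add, map_natCast, map_one]
      ring
    have h3 := ih h hh0 hdvd2
    rw [hsupp, Finset.card_erase_of_mem hk] at h3
    omega

/-- The matrix of coefficients has at least as many rows as its top antidiagonal has nonzero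
entries. -/
theorem card_antidiagonal_le {w : ℕ} (p q : ℕ → Fin w → K) (D : ℕ)
    (hD : ∀ a b, D < a + b → ∑ l, p a l * q b l = 0) (A : Finset ℕ) (hA : ∀ a ∈ A, a ≤ D)
    (hA' : ∀ a ∈ A, ∑ l, p a l * q (D - a) l ≠ 0) : A.card ≤ w := by
  classical
  let M1 : Matrix A (Fin w) K := fun a l => p a l
  let M2 : Matrix (Fin w) A K := fun l a => q (D - a) l
  have hM : ∀ a b : A, (M1 * M2) a b = ∑ l, p a l * q (D - b) l := fun a b => rfl
  have htri : (M1 * M2).BlockTriangular id := by
    intro a b hab
    rw [hM]
    apply hD
    have h1 := hA b b.2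
    have h2 : (b : ℕ) < a := hab
    omega
  have hdet : (M1 * M2).det ≠ 0 := by
    rw [Matrix.det_of_isUpperTriangular htri]
    exact Finset.prod_ne_zero_iff.2 fun a _ => by
      rw [hM]
      exact hA' a a.2
  have hrank : (M1 * M2).rank = Fintype.card A :=
    Matrix.rank_of_isUnit _ ((Matrix.isUnit_iff_isUnit_det _).2 (isUnit_iff_ne_zero.2 hdet))
  have h1 := Matrix.rank_mul_le_left M1 M2
  have h2 := Matrix.rank_le_card_width M1
  rw [hrank, Fintype.card_coe] at h1
  rw [Fintype.card_fin] at h2
  exact h1.trans h2

theorem card_lines_lt [CharZero K] {w : ℕ} (P Q : Fin w → K[X]) (S : Finset K)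
    (h0 : ∀ c ∈ S, ∀ t, ∑ l, (P l).eval (c - t) * (Q l).eval t = 0)
    (h1 : ∃ s t, ∑ l, (P l).eval s * (Q l).eval t ≠ 0) : S.card < w := by
  classical
  set g : ℕ → ℕ → K := fun a b => ∑ l, (P l).coeff a * (Q l).coeff b with hg
  obtain ⟨N, hN⟩ : ∃ N, ∀ l, (P l).natDegree < N ∧ (Q l).natDegree < N := by
    refine ⟨(∑ l, ((P l).natDegree + (Q l).natDegree)) + 1, fun l => ?_⟩
    have := Finset.single_le_sum (f := fun l => (P l).natDegree + (Q l).natDegree)
      (fun _ _ => Nat.zero_le _) (Finset.mem_univ l)
    constructor <;> omega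
  have hsum : ∀ s t : K, ∑ l, (P l).eval s * (Q l).eval t =
      ∑ a ∈ Finset.range N, ∑ b ∈ Finset.range N, g a b * (s ^ a * t ^ b) := by
    intro s t
    simp only [hg, Finset.sum_mul]
    rw [Finset.sum_congr rfl fun a _ => Finset.sum_comm, Finset.sum_comm]
    refine Finset.sum_congr rfl fun l _ => ?_
    rw [eval_eq_sum_range' (hN l).1, eval_eq_sum_range' (hN l).2, Finset.sum_mul_sum]
    refine Finset.sum_congr rfl fun a _ => Finset.sum_congr rfl fun b _ => ?_
    ring
  have hgN : ∀ a b, (N ≤ a ∨ N ≤ b) → g a b = 0 := by
    intro a b hab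
    simp only [hg]
    refine Finset.sum_eq_zero fun l _ => ?_
    rcases hab with h | h
    · rw [coeff_eq_zero_of_natDegree_lt (lt_of_lt_of_le (hN l).1 h), zero_mul]
    · rw [coeff_eq_zero_of_natDegree_lt (lt_of_lt_of_le (hN l).2 h), mul_zero]
  set B : Finset (ℕ × ℕ) := (Finset.range N ×ˢ Finset.range N).filter fun z => g z.1 z.2 ≠ 0 with hB
  have hBne : B.Nonempty := by
    rw [Finset.nonempty_iff_ne_empty]
    intro hempty
    obtain ⟨s, t, hst⟩ := h1
    apply hst
    rw [hsum]
    refine Finset.sum_eq_zero fun a ha => Finset.sum_eq_zero fun b hb => ?_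
    have : g a b = 0 := by
      by_contra hne
      have : (a, b) ∈ B := by
        rw [hB, Finset.mem_filter, Finset.mem_product]
        exact ⟨⟨ha, hb⟩, hne⟩
      rw [hempty] at this
      simp at this
    rw [this, zero_mul]
  obtain ⟨z, hz, hzmax⟩ := Finset.exists_max_image B (fun z => z.1 + z.2) hBne
  set D := z.1 + z.2 with hDdef
  have hD : ∀ a b, D < a + b → g a b = 0 := by
    intro a b hab
    by_contra hne
    have hmem : (a, b) ∈ B := by
      rw [hB, Finset.mem_filter, Finset.mem_product, Finset.mem_range, Finset.mem_range]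
      refine ⟨⟨?_, ?_⟩, hne⟩
      · by_contra h
        exact hne (hgN a b (Or.inl (not_lt.1 h)))
      · by_contra h
        exact hne (hgN a b (Or.inr (not_lt.1 h)))
    have := hzmax _ hmem
    simp only at this
    omega
  -- the top form
  set T : K[X] := ∑ a ∈ Finset.range (D + 1), monomial a (g a (D - a)) with hT
  have hTc : ∀ a, T.coeff a = if a ≤ D then g a (D - a) else 0 := by
    intro a
    rw [hT, finsetSum_coeff]
    simp only [coeff_monomial]
    rw [Finset.sum_ite_eq' (Finset.range (D + 1)) a]
    simp
  have hT0 : T ≠ 0 := by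
    intro h
    have h2 : T.coeff z.1 = g z.1 z.2 := by
      rw [hTc, if_pos (by omega)]
      congr 1
      omega
    rw [h, coeff_zero] at h2
    rw [hB, Finset.mem_filter] at hz
    exact hz.2 h2.symm
  have hcard : T.support.card ≤ w := by
    refine card_antidiagonal_le (fun a l => (P l).coeff a) (fun b l => (Q l).coeff b) D hD _ ?_ ?_
    · intro a ha
      rw [mem_support_iff, hTc] at ha
      by_contra h
      rw [if_neg h] at ha
      exact ha rfl
    · intro a ha
      rw [mem_support_iff, hTc] at ha
      by_cases h : a ≤ D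
      · rw [if_pos h] at ha
        exact ha
      · rw [if_neg h] at ha
        exact absurd rfl ha
  -- the homogenisation
  set F : K[X][X] := ∑ a ∈ Finset.range N, ∑ b ∈ Finset.range N,
    C (C (g a b) * X ^ (D - (a + b))) * X ^ a with hF
  have hroot : ∀ c ∈ S, F.eval (C c * X - 1) = 0 := by
    intro c hc
    have h2 : X * F.eval (C c * X - 1) = 0 := by
      have : Infinite K := inferInstance
      refine Polynomial.funext fun μ => ?_
      rw [eval_mul, eval_X, eval_zero]
      by_cases hμ : μ = 0
      · rw [hμ, zero_mul]
      · have h3 : (F.eval (C c * X - 1)).eval μ =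
            μ ^ D * ∑ l, (P l).eval (c - μ⁻¹) * (Q l).eval μ⁻¹ := by
          rw [hsum, hF, Finset.mul_sum]
          simp only [eval_finsetSum, eval_mul, eval_C, eval_pow, eval_X, eval_sub, eval_one]
          refine Finset.sum_congr rfl fun a _ => ?_
          rw [Finset.mul_sum]
          refine Finset.sum_congr rfl fun b _ => ?_
          by_cases hab : a + b ≤ D
          · have e1 : μ ^ D = μ ^ (D - (a + b)) * μ ^ a * μ ^ b := by
              rw [← pow_add, ← pow_add]
              congr 1
              omega
            have e2 : (c * μ - 1) ^ a = μ ^ a * (c - μ⁻¹) ^ a := by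
              rw [← mul_pow]
              congr 1
              field_simp
            have e3 : μ ^ b * (μ⁻¹) ^ b = 1 := by
              rw [← mul_pow, mul_inv_cancel₀ hμ, one_pow]
            rw [e1, e2]
            linear_combination (-(g a b) * μ ^ (D - (a + b)) * μ ^ a * (c - μ⁻¹) ^ a) * e3
          · rw [hD a b (by omega)]
            ring
        rw [h3, h0 c hc, mul_zero, mul_zero]
    exact (mul_eq_zero.1 h2).resolve_left X_ne_zero
  have hF0 : F.map (evalRingHom 0) = T := by
    ext a
    rw [hTc, hF, Polynomial.map_sum, finsetSum_coeff]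
    simp only [Polynomial.map_sum, finsetSum_coeff, Polynomial.map_mul, map_C, Polynomial.map_pow,
      map_X, coeff_C_mul, coeff_X_pow, coe_evalRingHom, eval_mul, eval_C, eval_pow, eval_X]
    have e1 : ∀ x ∈ Finset.range N, (∑ b ∈ Finset.range N,
        g x b * 0 ^ (D - (x + b)) * (if a = x then (1 : K) else 0)) =
        if a = x then (∑ b ∈ Finset.range N, g a b * 0 ^ (D - (a + b))) else 0 := by
      intro x _
      split_ifs with hx
      · rw [hx]; simp
      · simp
    rw [Finset.sum_congr rfl e1, Finset.sum_ite_eq (Finset.range N) a]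
    by_cases haN : a < N
    · rw [if_pos (Finset.mem_range.2 haN)]
      by_cases haD : a ≤ D
      · rw [if_pos haD]
        by_cases hb : D - a < N
        · rw [Finset.sum_eq_single (D - a)]
          · rw [show D - (a + (D - a)) = 0 by omega, pow_zero, mul_one]
          · intro b _ hne
            rcases lt_or_ge D (a + b) with h | h
            · rw [hD a b h, zero_mul]
            · rw [zero_pow (by omega), mul_zero]
          · intro h
            exact absurd (Finset.mem_range.2 hb) h
        · rw [hgN a (D - a) (Or.inr (not_lt.1 hb))]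
          refine Finset.sum_eq_zero fun b hb' => ?_
          rw [Finset.mem_range] at hb'
          rw [zero_pow (by omega), mul_zero]
      · rw [if_neg haD]
        refine Finset.sum_eq_zero fun b _ => ?_
        rw [hD a b (by omega), zero_mul]
    · rw [if_neg (by simpa using haN)]
      split_ifs with haD
      · rw [hgN a (D - a) (Or.inl (not_lt.1 haN))]
      · rfl
  have hFne : F ≠ 0 := by
    intro h
    rw [h, Polynomial.map_zero] at hF0
    exact hT0 hF0.symm
  have hinj : Set.InjOn (fun c : K => (C c * X - 1 : K[X])) (S : Set K) := by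
    intro c _ c' _ h
    have := congrArg (fun p : K[X] => p.coeff 1) h
    simpa [coeff_one] using this
  have hdvd : ∏ c ∈ S, (X - C (C c * X - 1 : K[X])) ∣ F := by
    have h2 : (S.image fun c : K => (C c * X - 1 : K[X])).val ≤ F.roots := by
      rw [Multiset.le_iff_subset (Finset.nodup _)]
      intro r hr
      rw [Finset.mem_val, Finset.mem_image] at hr
      obtain ⟨c, hc, rfl⟩ := hr
      rw [mem_roots hFne]
      exact hroot c hc
    have h3 := (Multiset.prod_X_sub_C_dvd_iff_le_roots hFne _).2 h2
    have h4 : ((S.image fun c : K => (C c * X - 1 : K[X])).val.map fun a => X - C a).prod =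
        ∏ c ∈ S, (X - C (C c * X - 1 : K[X])) := by
      rw [← Finset.prod_image (s := S) (g := fun c : K => (C c * X - 1 : K[X]))
        (f := fun r => X - C r) hinj]
      rfl
    rwa [h4] at h3
  have hdvdT : (X - C (-1 : K)) ^ S.card ∣ T := by
    have h2 := Polynomial.map_dvd (evalRingHom (0 : K)) hdvd
    rw [hF0, Polynomial.map_prod] at h2
    have h3 : ∀ c ∈ S, ((X - C (C c * X - 1 : K[X])).map (evalRingHom (0 : K))) = X - C (-1 : K) := by
      intro c _
      rw [Polynomial.map_sub, map_X, map_C]
      congr 2
      simp
    rw [Finset.prod_congr rfl h3, Finset.prod_const] at h2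
    exact h2
  have h5 := card_support_of_dvd (K := K) (neg_ne_zero.2 one_ne_zero) S.card T hT0 hdvdT
  omega

end Pool.Agent.T9h67.BSS
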