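import Pool.Agent.T9h67.BSS.Rank

/-!
# Determinants of rank two
-/

set_option autoImplicit false

open Polynomial

namespace Pool.Agent.T9h67.BSS

variable {K : Type} [Field K]

/-- `G (s, t)` is a sum of at most `w` products `P l (s) * Q l (t)`. -/
def RankLE (w : ℕ) (G : K → K → K) : Prop :=
  ∃ (ι : Type) (_ : Fintype ι) (P Q : ι → K[X]), Fintype.card ι ≤ w ∧
    ∀ s t, G s t = ∑ l, (P l).eval s * (Q l).eval t

theorem RankLE.mono {w w' : ℕ} {G : K → K → K} (h : RankLE w G) (hw : w ≤ w') : RankLE w' G := by
  obtain ⟨ι, _, P, Q, h1, h2⟩ := h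
  exact ⟨ι, _, P, Q, h1.trans hw, h2⟩

theorem RankLE.sum {α : Type} [Fintype α] {w : ℕ} {G : α → K → K → K} (h : ∀ x, RankLE w (G x)) :
    RankLE (Fintype.card α * w) fun s t => ∑ x, G x s t := by
  classical
  choose ι hι P Q h1 h2 using h
  refine ⟨Σ x, ι x, inferInstance, fun z => P z.1 z.2, fun z => Q z.1 z.2, ?_, fun s t => ?_⟩
  · rw [Fintype.card_sigma]
    refine (Finset.sum_le_card_nsmul _ _ w fun x _ => h1 x).trans ?_
    rw [smul_eq_mul, Finset.card_univ]
  · rw [Fintype.sum_sigma]
    exact Finset.sum_congr rfl fun x _ => h2 x s t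

/-- A function of bounded rank which vanishes on many parallel lines is zero. -/
theorem RankLE.eq_zero [CharZero K] {w : ℕ} {G : K → K → K} (h : RankLE w G) (S : Finset K)
    (hS : w ≤ S.card) (h0 : ∀ c ∈ S, ∀ t, G (c - t) t = 0) (s t : K) : G s t = 0 := by
  classical
  by_contra hne
  obtain ⟨ι, _, P, Q, h1, h2⟩ := h
  let e := Fintype.equivFin ι
  have hsum : ∀ s t, G s t = ∑ l, (P (e.symm l)).eval s * (Q (e.symm l)).eval t := by
    intro s t
    rw [h2, ← Equiv.sum_comp e.symm]
  have h3 := card_lines_lt (fun l => P (e.symm l)) (fun l => Q (e.symm l)) S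
    (fun c hc t => by rw [← hsum]; exact h0 c hc t) ⟨s, t, by rw [← hsum]; exact hne⟩
  omega

section bilinear

variable {κ : Type} [Fintype κ] [DecidableEq κ]

theorem det_updateRow_one (q : κ) (η : κ → K) :
    ((1 : Matrix κ κ K).updateRow q η).det = η q := by
  have h1 := Matrix.det_eq_sum_mul_adjugate_row ((1 : Matrix κ κ K).updateRow q η) q
  rw [h1, Finset.sum_eq_single q]
  · rw [Matrix.updateRow_self, Matrix.adjugate_apply, Matrix.updateRow_idem]
    have : (1 : Matrix κ κ K).updateRow q (Pi.single q 1) = 1 := by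
      conv_rhs => rw [← Matrix.updateRow_eq_self (1 : Matrix κ κ K) q]
      congr 1
      funext k
      rw [Matrix.one_apply]
      by_cases hk : k = q
      · subst hk; simp
      · rw [Pi.single_eq_of_ne hk, if_neg (Ne.symm hk)]
    rw [this, Matrix.det_one, mul_one]
  · intro k _ hk
    rw [Matrix.adjugate_apply, Matrix.updateRow_idem]
    have : ((1 : Matrix κ κ K).updateRow q (Pi.single k 1)).det = 0 := by
      refine Matrix.det_zero_of_row_eq hk ?_
      rw [Matrix.updateRow_ne hk, Matrix.updateRow_self]
      funext l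
      rw [Matrix.one_apply]
      by_cases hl : l = k
      · subst hl; simp
      · rw [Pi.single_eq_of_ne hl, if_neg (Ne.symm hl)]
    rw [this, mul_zero]
  · intro h
    exact absurd (Finset.mem_univ _) h

theorem det_updateRow_updateRow_one {p q : κ} (hpq : p ≠ q) (ξ η : κ → K) :
    (((1 : Matrix κ κ K).updateRow p ξ).updateRow q η).det = ξ p * η q - ξ q * η p := by
  have hcomm : ((1 : Matrix κ κ K).updateRow p ξ).updateRow q η =
      ((1 : Matrix κ κ K).updateRow q η).updateRow p ξ := by
    ext a b
    simp only [Matrix.updateRow_apply]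
    by_cases ha : a = p
    · subst ha
      rw [if_neg hpq, if_pos rfl, if_pos rfl]
    · rw [if_neg ha, if_neg ha]
  have hrow : ∀ k : κ, (1 : Matrix κ κ K) k = Pi.single k 1 := by
    intro k
    funext l
    rw [Matrix.one_apply]
    by_cases hl : l = k
    · subst hl; simp
    · rw [Pi.single_eq_of_ne hl, if_neg (Ne.symm hl)]
  have h1 := Matrix.det_eq_sum_mul_adjugate_row (((1 : Matrix κ κ K).updateRow p ξ).updateRow q η) p
  rw [h1, ← Finset.add_sum_erase _ _ (Finset.mem_univ p),
    ← Finset.add_sum_erase _ _ (Finset.mem_erase.2 ⟨hpq.symm, Finset.mem_univ q⟩)]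
  have hz : ∑ x ∈ (Finset.univ.erase p).erase q,
      (((1 : Matrix κ κ K).updateRow p ξ).updateRow q η) p x *
        (((1 : Matrix κ κ K).updateRow p ξ).updateRow q η).adjugate x p = 0 := by
    refine Finset.sum_eq_zero fun k hk => ?_
    rw [Finset.mem_erase, Finset.mem_erase] at hk
    rw [Matrix.adjugate_apply]
    have : ((((1 : Matrix κ κ K).updateRow p ξ).updateRow q η).updateRow p (Pi.single k 1)).det =
        0 := by
      refine Matrix.det_zero_of_row_eq hk.2.1 ?_
      rw [Matrix.updateRow_ne hk.2.1, Matrix.updateRow_self, Matrix.updateRow_ne hk.1,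
        Matrix.updateRow_ne hk.2.1, hrow]
    rw [this, mul_zero]
  rw [hz, add_zero]
  have hp : (((1 : Matrix κ κ K).updateRow p ξ).updateRow q η) p = ξ := by
    rw [Matrix.updateRow_ne hpq, Matrix.updateRow_self]
  rw [hp, Matrix.adjugate_apply, Matrix.adjugate_apply, hcomm, Matrix.updateRow_idem,
    Matrix.updateRow_idem]
  have e1 : (((1 : Matrix κ κ K).updateRow q η).updateRow p (Pi.single p 1)).det = η q := by
    have : ((1 : Matrix κ κ K).updateRow q η).updateRow p (Pi.single p 1) =
        (1 : Matrix κ κ K).updateRow q η := by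
      conv_rhs => rw [← Matrix.updateRow_eq_self ((1 : Matrix κ κ K).updateRow q η) p]
      rw [Matrix.updateRow_ne hpq, hrow]
    rw [this, det_updateRow_one]
  have e2 : (((1 : Matrix κ κ K).updateRow q η).updateRow p (Pi.single q 1)).det = - η p := by
    have h2 := Matrix.det_permute (Equiv.swap p q)
      (((1 : Matrix κ κ K).updateRow q η).updateRow p (Pi.single q 1))
    have h3 : (((1 : Matrix κ κ K).updateRow q η).updateRow p (Pi.single q 1)).submatrix
        (Equiv.swap p q) id = (1 : Matrix κ κ K).updateRow p η := by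
      ext a b
      rw [Matrix.submatrix_apply, id]
      by_cases ha : a = p
      · subst ha
        rw [Equiv.swap_apply_left, Matrix.updateRow_ne hpq.symm, Matrix.updateRow_self,
          Matrix.updateRow_self]
      · by_cases ha2 : a = q
        · subst ha2
          rw [Equiv.swap_apply_right, Matrix.updateRow_self, Matrix.updateRow_ne ha, hrow]
        · rw [Equiv.swap_apply_of_ne_of_ne ha ha2, Matrix.updateRow_ne ha,
            Matrix.updateRow_ne ha2, Matrix.updateRow_ne ha]
    rw [h3, det_updateRow_one, Equiv.Perm.sign_swap hpq] at h2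
    simp only [Units.val_neg, Units.val_one, Int.cast_neg, Int.cast_one] at h2
    linear_combination h2
  rw [e1, e2]
  ring

/-- As a bilinear form in two rows, the determinant has rank at most two. -/
theorem exists_bilinear (C : Matrix κ κ K) {p q : κ} (hpq : p ≠ q) :
    ∃ u v : Bool → κ → K, ∀ x y : κ → K, ((C.updateRow p x).updateRow q y).det =
      ∑ l, (∑ k, x k * u l k) * (∑ k, y k * v l k) := by
  by_cases h : ∀ x y : κ → K, ((C.updateRow p x).updateRow q y).det = 0
  · refine ⟨fun _ _ => 0, fun _ _ => 0, fun x y => ?_⟩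
    rw [h]
    simp
  · push Not at h
    obtain ⟨x₀, y₀, h0⟩ := h
    set M := (C.updateRow p x₀).updateRow q y₀ with hM
    have hMu : IsUnit M.det := isUnit_iff_ne_zero.2 h0
    refine ⟨fun l => if l then fun k => M.det * M⁻¹ k p else fun k => - (M.det * M⁻¹ k q),
      fun l => if l then fun k => M⁻¹ k q else fun k => M⁻¹ k p, fun x y => ?_⟩
    have h1 : (C.updateRow p x).updateRow q y =
        (((1 : Matrix κ κ K).updateRow p (Matrix.vecMul x M⁻¹)).updateRow q
          (Matrix.vecMul y M⁻¹)) * M := by
      ext a b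
      rw [Matrix.mul_apply_eq_vecMul]
      by_cases ha : a = q
      · subst ha
        rw [Matrix.updateRow_self, Matrix.updateRow_self, Matrix.vecMul_vecMul,
          Matrix.nonsing_inv_mul _ hMu, Matrix.vecMul_one]
      · rw [Matrix.updateRow_ne ha, Matrix.updateRow_ne ha]
        by_cases ha2 : a = p
        · subst ha2
          rw [Matrix.updateRow_self, Matrix.updateRow_self, Matrix.vecMul_vecMul,
            Matrix.nonsing_inv_mul _ hMu, Matrix.vecMul_one]
        · rw [Matrix.updateRow_ne ha2, Matrix.updateRow_ne ha2]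
          rw [← Matrix.mul_apply_eq_vecMul, Matrix.one_mul, hM, Matrix.updateRow_ne ha,
            Matrix.updateRow_ne ha2]
    rw [h1, Matrix.det_mul, det_updateRow_updateRow_one hpq, Fintype.sum_bool]
    simp only [if_true, Bool.false_eq_true, if_false, Matrix.vecMul, dotProduct]
    have e1 : ∑ k, x k * (M.det * M⁻¹ k p) = M.det * ∑ k, x k * M⁻¹ k p := by
      rw [Finset.mul_sum]
      exact Finset.sum_congr rfl fun k _ => by ring
    have e2 : ∑ k, x k * -(M.det * M⁻¹ k q) = - (M.det * ∑ k, x k * M⁻¹ k q) := by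
      rw [Finset.mul_sum, ← Finset.sum_neg_distrib]
      exact Finset.sum_congr rfl fun k _ => by ring
    rw [e1, e2]
    ring

end bilinear

end Pool.Agent.T9h67.BSS
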