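import Pool.Agent.T9h67.BSS.Split

/-!
# The bound for the split rank is sharp

Over `ℂ` the set `RootSum` is the zero set of one polynomial of degree `2 ^ (n - 1)` in each
variable, and so of split rank at most `2 ^ (n - 1) + 1`.
-/

set_option autoImplicit false

open MvPolynomial

namespace Pool.Agent.T9h67.BSS

variable {K : Type} [Field K] {n : ℕ}

/-- The sign. -/
def sn (K : Type) [Field K] (b : Bool) : K := if b then 1 else -1

/-- The product of all `1 - ∑ ± X k`. -/
noncomputable def big (K : Type) [Field K] (n : ℕ) : MvPolynomial (Fin n) K :=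
  ∏ ε : Fin n → Bool, (1 - ∑ k, C (sn K (ε k)) * X k)

theorem eval_big (y : Fin n → K) :
    eval y (big K n) = ∏ ε : Fin n → Bool, (1 - ∑ k, sn K (ε k) * y k) := by
  unfold big
  simp only [map_prod, map_sub, map_one, map_sum, map_mul, eval_C, eval_X]

/-- Change of the sign of one variable. -/
noncomputable def flip (k : Fin n) : MvPolynomial (Fin n) K →ₐ[K] MvPolynomial (Fin n) K :=
  aeval fun l => if l = k then - X l else X l

theorem coeff_flip (k : Fin n) (f : MvPolynomial (Fin n) K) (m : Fin n →₀ ℕ) :
    coeff m (flip k f) = (-1) ^ (m k) * coeff m f := by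
  classical
  induction f using MvPolynomial.induction_on' with
  | monomial u c =>
    have h1 : flip k (monomial u c : MvPolynomial (Fin n) K) = monomial u ((-1) ^ (u k) * c) := by
      unfold flip
      rw [aeval_monomial, monomial_eq, algebraMap_eq]
      rw [map_mul, mul_comm (C ((-1 : K) ^ u k)), mul_assoc]
      congr 1
      have h2 : ∀ l, (if l = k then - X l else X l : MvPolynomial (Fin n) K) ^ (u l) =
          (if l = k then C ((-1 : K) ^ (u k)) else 1) * X l ^ (u l) := by
        intro l
        split_ifs with h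
        · subst h
          rw [neg_pow, map_pow, map_neg, map_one]
        · rw [one_mul]
      rw [Finsupp.prod_fintype _ _ (fun _ => pow_zero _), Finsupp.prod_fintype _ _
        (fun _ => pow_zero _), Finset.prod_congr rfl fun l _ => h2 l, Finset.prod_mul_distrib]
      congr 1
      rw [Finset.prod_ite_eq' Finset.univ k, if_pos (Finset.mem_univ k)]
    rw [h1, coeff_monomial, coeff_monomial]
    split_ifs with h
    · rw [h]
    · rw [mul_zero]
  | add p q hp hq => rw [map_add, coeff_add, coeff_add, hp, hq, mul_add]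

theorem flip_big (k : Fin n) : flip k (big K n) = big K n := by
  classical
  unfold big
  rw [map_prod]
  refine Fintype.prod_bijective (fun ε : Fin n → Bool => Function.update ε k (!ε k)) ?_ _ _ ?_
  · refine Function.Involutive.bijective fun ε => ?_
    simp
  · intro ε
    rw [map_sub, map_one, map_sum]
    congr 1
    refine Finset.sum_congr rfl fun l _ => ?_
    rw [map_mul]
    have h1 : flip k (X l : MvPolynomial (Fin n) K) = if l = k then - X l else X l := by
      unfold flip
      rw [aeval_X]
    have h2 : flip k (C (sn K (ε l)) : MvPolynomial (Fin n) K) = C (sn K (ε l)) := by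
      unfold flip
      rw [aeval_C]
      rfl
    rw [h1, h2]
    by_cases h : l = k
    · subst h
      rw [if_pos rfl, Function.update_self]
      cases ε l <;> simp [sn]
    · rw [if_neg h, Function.update_of_ne h]

theorem coeff_big_odd [CharZero K] {m : Fin n →₀ ℕ} {k : Fin n} (hk : ¬ 2 ∣ m k) :
    coeff m (big K n) = 0 := by
  have h1 := coeff_flip k (big K n) m
  rw [flip_big, Odd.neg_one_pow (Nat.not_even_iff_odd.1 (fun h => hk h.two_dvd))] at h1
  have h2 : (2 : K) * coeff m (big K n) = 0 := by linear_combination h1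
  exact (mul_eq_zero.1 h2).resolve_left two_ne_zero

/-- The polynomial with `red (y ^ 2) = ∏ (1 - ∑ ± y k)`. -/
noncomputable def red (K : Type) [Field K] (n : ℕ) : MvPolynomial (Fin n) K :=
  ∑ m ∈ (big K n).support, monomial (m.mapRange (· / 2) rfl) (coeff m (big K n))

theorem expand_red [CharZero K] : expand 2 (red K n) = big K n := by
  classical
  unfold red
  rw [map_sum]
  conv_rhs => rw [(big K n).as_sum]
  refine Finset.sum_congr rfl fun m hm => ?_
  rw [expand_monomial]
  have h0 : 2 • m.mapRange (· / 2) rfl = m := by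
    ext k
    rw [Finsupp.smul_apply, Finsupp.mapRange_apply, smul_eq_mul]
    refine Nat.mul_div_cancel' ?_
    by_contra h
    exact (mem_support_iff.1 hm) (coeff_big_odd h)
  rw [h0]

theorem eval_red [CharZero K] (y : Fin n → K) :
    eval (sq y) (red K n) = ∏ ε : Fin n → Bool, (1 - ∑ k, sn K (ε k) * y k) := by
  have h1 : eval y (expand 2 (red K n)) = eval (sq y) (red K n) := by
    rw [MvPolynomial.eval, MvPolynomial.coe_eval₂Hom, MvPolynomial.eval₂_expand]
    rfl
  rw [← eval_big, ← expand_red, h1]

theorem degreeOf_big (k : Fin n) : degreeOf k (big K n) ≤ 2 ^ n := by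
  classical
  unfold big
  refine (degreeOf_prod_le k _ _).trans ?_
  have h1 : ∀ ε : Fin n → Bool, degreeOf k (1 - ∑ l, C (sn K (ε l)) * X l) ≤ 1 := by
    intro ε
    refine (degreeOf_sub_le k _ _).trans (max_le ?_ ?_)
    · rw [← C_1, degreeOf_C]; exact Nat.zero_le _
    · refine (degreeOf_sum_le k _ _).trans (Finset.sup_le fun l _ => ?_)
      refine (degreeOf_C_mul_le _ _ _).trans ?_
      rw [degreeOf_X]
      split_ifs <;> omega
  refine (Finset.sum_le_sum fun ε _ => h1 ε).trans ?_
  rw [Finset.sum_const, Finset.card_univ, Fintype.card_fun, Fintype.card_fin, Fintype.card_bool]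
  simp

theorem le_of_mem_support_red [CharZero K] (hn : 1 ≤ n) {m : Fin n →₀ ℕ}
    (hm : m ∈ (red K n).support) (k : Fin n) : m k ≤ 2 ^ (n - 1) := by
  classical
  have h1 : coeff (2 • m) (big K n) ≠ 0 := by
    rw [← expand_red, coeff_expand_smul 2 two_ne_zero]
    exact mem_support_iff.1 hm
  have h2 := (degreeOf_le_iff.1 (degreeOf_big (K := K) k)) (2 • m) (mem_support_iff.2 h1)
  rw [Finsupp.smul_apply, smul_eq_mul] at h2
  obtain ⟨r, rfl⟩ : ∃ r, n = r + 1 := ⟨n - 1, by omega⟩
  rw [Nat.add_sub_cancel]
  rw [pow_succ] at h2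
  omega

theorem splitRankLE_red [CharZero K] (hn : 2 ≤ n) : SplitRankLE (2 ^ (n - 1) + 1) (red K n) := by
  classical
  let i : Fin n := ⟨0, by omega⟩
  let j : Fin n := ⟨1, by omega⟩
  have hij : i ≠ j := by
    intro h
    have := congrArg Fin.val h
    simp [i, j] at this
  refine ⟨i, j, hij, fun l => X i ^ (l : ℕ), fun l => ∑ m ∈ (red K n).support with m i = (l : ℕ),
    monomial (m.erase i) (coeff m (red K n)), ?_, ?_, ?_⟩
  · intro l h
    have h1 := vars_pow _ _ h
    rw [vars_X, Finset.mem_singleton] at h1
    exact hij h1.symm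
  · intro l h
    have h1 := vars_sum_subset _ _ h
    rw [Finset.mem_biUnion] at h1
    obtain ⟨m, hm, h2⟩ := h1
    rw [Finset.mem_filter] at hm
    rw [vars_monomial (mem_support_iff.1 hm.1), Finsupp.support_erase] at h2
    simp at h2
  · conv_lhs => rw [(red K n).as_sum]
    have h1 : ∀ l : Fin (2 ^ (n - 1) + 1), (X i : MvPolynomial (Fin n) K) ^ (l : ℕ) *
        ∑ m ∈ (red K n).support with m i = (l : ℕ), monomial (m.erase i) (coeff m (red K n)) =
        ∑ m ∈ (red K n).support with m i = (l : ℕ), monomial m (coeff m (red K n)) := by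
      intro l
      rw [Finset.mul_sum]
      refine Finset.sum_congr rfl fun m hm => ?_
      rw [Finset.mem_filter] at hm
      rw [X_pow_eq_monomial, monomial_mul, one_mul, ← hm.2, add_comm, Finsupp.erase_add_single]
    rw [Finset.sum_congr rfl fun l _ => h1 l]
    simp only [Finset.sum_filter]
    rw [Finset.sum_comm]
    refine Finset.sum_congr rfl fun m hm => ?_
    have h2 := le_of_mem_support_red (by omega) hm i
    rw [Finset.sum_eq_single (⟨m i, by omega⟩ : Fin (2 ^ (n - 1) + 1))]
    · simp
    · intro b _ hb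
      rw [if_neg]
      intro h
      exact hb (Fin.ext h.symm)
    · intro h
      exact absurd (Finset.mem_univ _) h

theorem eval_red_eq_zero_iff (x : Fin n → ℂ) :
    eval x (red ℂ n) = 0 ↔ x ∈ RootSum ℂ n := by
  choose y hy using fun i => IsAlgClosed.exists_pow_nat_eq (x i) (n := 2) two_pos
  have hx : x = sq y := by funext i; exact (hy i).symm
  rw [hx, eval_red, Finset.prod_eq_zero_iff]
  constructor
  · rintro ⟨ε, -, h⟩
    refine ⟨fun k => sn ℂ (ε k) * y k, fun k => ?_, ?_⟩
    · show (sn ℂ (ε k) * y k) ^ 2 = y k ^ 2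
      cases ε k <;> simp [sn]
    · exact (sub_eq_zero.1 h).symm
  · rintro ⟨z, hz1, hz2⟩
    refine ⟨fun k => decide (z k = y k), Finset.mem_univ _, ?_⟩
    rw [sub_eq_zero, ← hz2]
    refine Finset.sum_congr rfl fun k _ => ?_
    rcases sq_eq_sq_iff_eq_or_eq_neg.1 (hz1 k) with h | h
    · simp [sn, h]
    · by_cases h2 : z k = y k
      · simp [sn, h2]
      · simp only [sn, h2, decide_false, Bool.false_eq_true, if_false]
        rw [h]; ring

end Pool.Agent.T9h67.BSS
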