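import Pool.Agent.T9h67.BSS.Base

/-!
# Restriction to a slice of several variables
-/

set_option autoImplicit false

open MvPolynomial

namespace Pool.Agent.T9h67.BSS

variable {K : Type} [Field K] {n : ℕ}

/-- Signed sum of the coordinates in `S`, with signs changed on `E`. -/
noncomputable def sgS (S E : Finset (Fin n)) (a : Fin n → K) : K :=
  ∑ k ∈ S, (if k ∈ E then - a k else a k)

/-- The constant terms of the parallel hyperplanes. -/
noncomputable def cstS (S : Finset (Fin n)) (z : Bool × Finset (Fin n)) (a : Fin n → K) : K :=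
  (if z.1 then 1 else -1) * (1 - sgS S z.2 a)

theorem exists_genericS [CharZero K] {g : MvPolynomial (Fin n) K} (hg : g ≠ 0)
    (S : Finset (Fin n)) :
    ∃ a : Fin n → K, eval (sq a) g ≠ 0 ∧
      Set.InjOn (fun z => cstS S z a) ((Finset.univ ×ˢ S.powerset :
        Finset (Bool × Finset (Fin n))) : Set (Bool × Finset (Fin n))) := by
  classical
  let sp : Finset (Fin n) → MvPolynomial (Fin n) K := fun E =>
    ∑ k ∈ S, C (if k ∈ E then (-1 : K) else 1) * X k
  have hsp : ∀ E (a : Fin n → K), eval a (sp E) = sgS S E a := by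
    intro E a
    simp only [sp, sgS, map_sum, map_mul, eval_C, eval_X]
    refine Finset.sum_congr rfl fun k _ => ?_
    split_ifs <;> ring
  let cp : Bool × Finset (Fin n) → MvPolynomial (Fin n) K := fun z =>
    C (if z.1 then 1 else -1) * (1 - sp z.2)
  have hcp : ∀ z (a : Fin n → K), eval a (cp z) = cstS S z a := by
    intro z a
    simp only [cp, cstS, map_mul, eval_C, map_sub, map_one, hsp]
  have hd0 : ∀ E ∈ ((Finset.univ : Finset Bool) ×ˢ S.powerset).offDiag, cp E.1 - cp E.2 ≠ 0 := by
    rintro ⟨⟨b, E⟩, ⟨b', E'⟩⟩ hE h0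
    rw [Finset.mem_offDiag, Finset.mem_product, Finset.mem_product] at hE
    obtain ⟨⟨-, h1⟩, ⟨-, h2⟩, h3⟩ := hE
    simp only [Finset.mem_powerset] at h1 h2
    simp only at h0 h3
    have h4 : ∀ a : Fin n → K, cstS S (b, E) a = cstS S (b', E') a := by
      intro a
      rw [← hcp, ← hcp, ← sub_eq_zero, ← map_sub, h0, map_zero]
    by_cases hb : b = b'
    · subst hb
      have hEE : E ≠ E' := fun h => h3 (by rw [h])
      obtain ⟨k, hk⟩ : ∃ k, ¬ (k ∈ E ↔ k ∈ E') := by
        by_contra hcon
        push Not at hcon
        exact hEE (Finset.ext hcon)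
      have hkS : k ∈ S := by
        by_cases hk1 : k ∈ E
        · exact h1 hk1
        · have : k ∈ E' := by
            by_contra hk2
            exact hk (iff_of_false hk1 hk2)
          exact h2 this
      have h5 : ∀ F : Finset (Fin n), sgS S F (Pi.single k (1 : K)) = if k ∈ F then -1 else 1 := by
        intro F
        unfold sgS
        rw [Finset.sum_eq_single k]
        · simp
        · intro c _ hc
          simp [hc]
        · intro h
          exact absurd hkS h
      have h6 := h4 (Pi.single k 1)
      simp only [cstS, h5] at h6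
      have h7 : (if b = true then (1 : K) else -1) ≠ 0 := by split_ifs <;> norm_num
      have h8 := mul_left_cancel₀ h7 h6
      by_cases hk1 : k ∈ E
      · have hk2 : k ∉ E' := fun h => hk (iff_of_true hk1 h)
        rw [if_pos hk1, if_neg hk2] at h8
        norm_num at h8
      · have hk2 : k ∈ E' := by
          by_contra h
          exact hk (iff_of_false hk1 h)
        rw [if_neg hk1, if_pos hk2] at h8
        norm_num at h8
    · have h5 : ∀ F : Finset (Fin n), sgS S F (0 : Fin n → K) = 0 := by
        intro F
        unfold sgS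
        exact Finset.sum_eq_zero fun k _ => by simp
      have h6 := h4 0
      simp only [cstS, h5, sub_zero, mul_one] at h6
      rcases b with _ | _ <;> rcases b' with _ | _
      · exact hb rfl
      · norm_num at h6
      · norm_num at h6
      · exact hb rfl
  have hP : expand 2 g * ∏ E ∈ ((Finset.univ : Finset Bool) ×ˢ S.powerset).offDiag,
      (cp E.1 - cp E.2) ≠ 0 :=
    mul_ne_zero (expand_ne_zero two_pos |>.2 hg) (Finset.prod_ne_zero_iff.2 hd0)
  obtain ⟨a, ha⟩ : ∃ a, eval a (expand 2 g *
      ∏ E ∈ ((Finset.univ : Finset Bool) ×ˢ S.powerset).offDiag, (cp E.1 - cp E.2)) ≠ 0 := by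
    by_contra hcon
    push Not at hcon
    exact hP (MvPolynomial.funext (by simpa using hcon))
  rw [map_mul, map_prod] at ha
  refine ⟨a, ?_, ?_⟩
  · have h1 : eval a (expand 2 g) = eval (sq a) g := by
      rw [MvPolynomial.eval, MvPolynomial.coe_eval₂Hom, MvPolynomial.eval₂_expand]
      rfl
    rw [← h1]
    exact left_ne_zero_of_mul ha
  · intro E hE F hF hEF
    by_contra hne
    have h1 := Finset.prod_ne_zero_iff.1 (right_ne_zero_of_mul ha) (E, F)
      (Finset.mem_offDiag.2 ⟨hE, hF, hne⟩)
    rw [map_sub, hcp, hcp] at h1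
    exact h1 (sub_eq_zero.2 hEF)

/-- Substitution of squares for the variables in `I`, and of constants for the others. -/
noncomputable def th (I : Finset (Fin n)) (a : Fin n → K) :
    MvPolynomial (Fin n) K →ₐ[K] MvPolynomial (Fin n) K :=
  aeval fun k => if k ∈ I then X k ^ 2 else C (a k ^ 2)

theorem eval_th (I : Finset (Fin n)) (a y : Fin n → K) (g : MvPolynomial (Fin n) K) :
    eval y (th I a g) = eval (sq fun k => if k ∈ I then y k else a k) g := by
  unfold th
  have h : (eval y).comp (aeval (R := K) fun k => if k ∈ I then X k ^ 2 else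
      (C (a k ^ 2) : MvPolynomial (Fin n) K)).toRingHom =
      eval (sq fun k => if k ∈ I then y k else a k) := by
    refine MvPolynomial.ringHom_ext ?_ ?_
    · intro r
      simp
    · intro k
      simp only [RingHom.comp_apply, AlgHom.toRingHom_eq_coe, RingHom.coe_coe, aeval_X, eval_X, sq]
      split_ifs <;> simp
  exact congrArg (fun f : MvPolynomial (Fin n) K →+* K => f g) h

theorem exists_slice [CharZero K] {g : MvPolynomial (Fin n) K} (hg : g ≠ 0) (hv : Vanish g)
    (I : Finset (Fin n)) :
    ∃ a : Fin n → K, ∃ S : Finset K, S.card = 2 ^ (n - I.card + 1) ∧ th I a g ≠ 0 ∧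
      ∀ c ∈ S, ∀ y : Fin n → K, ∑ i ∈ I, y i = c → eval y (th I a g) = 0 := by
  classical
  obtain ⟨a, ha, hinj⟩ := exists_genericS hg Iᶜ
  refine ⟨a, (Finset.univ ×ˢ (Iᶜ).powerset).image (fun z => cstS Iᶜ z a), ?_, ?_, ?_⟩
  · rw [Finset.card_image_of_injOn hinj, Finset.card_product, Finset.card_powerset,
      Finset.card_compl, Finset.card_univ, Fintype.card_fin, Fintype.card_bool, pow_succ]
    ring
  · intro h0
    apply ha
    have h1 := eval_th I a a g
    rw [h0, map_zero] at h1
    rw [h1]
    congr 2
    funext k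
    show a k ^ 2 = (if k ∈ I then a k else a k) ^ 2
    split_ifs <;> rfl
  · have key : ∀ E ⊆ Iᶜ, ∀ y : Fin n → K, ∑ i ∈ I, y i = 1 - sgS Iᶜ E a →
        eval y (th I a g) = 0 := by
      intro E hE y hy
      rw [eval_th]
      have h1 := hv (fun k => if k ∈ I then y k else if k ∈ E then - a k else a k) (by
        rw [← Finset.sum_add_sum_compl I]
        have e1 : ∑ k ∈ I, (if k ∈ I then y k else if k ∈ E then - a k else a k) =
            ∑ k ∈ I, y k := Finset.sum_congr rfl fun k hk => by rw [if_pos hk]
        have e2 : ∑ k ∈ Iᶜ, (if k ∈ I then y k else if k ∈ E then - a k else a k) =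
            sgS Iᶜ E a := Finset.sum_congr rfl fun k hk => by
              rw [if_neg (Finset.mem_compl.1 hk)]
        rw [e1, e2, hy]
        ring)
      rw [← h1]
      congr 2
      funext k
      show (if k ∈ I then y k else a k) ^ 2 =
        (if k ∈ I then y k else if k ∈ E then - a k else a k) ^ 2
      split_ifs <;> ring
    have hneg : ∀ y : Fin n → K, eval (fun k => - y k) (th I a g) = eval y (th I a g) := by
      intro y
      rw [eval_th, eval_th]
      congr 2
      funext k
      show (if k ∈ I then - y k else a k) ^ 2 = (if k ∈ I then y k else a k) ^ 2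
      split_ifs <;> ring
    intro c hc y hy
    rw [Finset.mem_image] at hc
    obtain ⟨⟨b, E⟩, hE, rfl⟩ := hc
    rw [Finset.mem_product, Finset.mem_powerset] at hE
    rcases b with _ | _
    · rw [← hneg]
      refine key E hE.2 _ ?_
      rw [Finset.sum_neg_distrib, hy]
      simp only [cstS, Bool.false_eq_true, if_false]
      ring
    · refine key E hE.2 _ ?_
      rw [hy]
      simp only [cstS, if_true]
      ring

end Pool.Agent.T9h67.BSS
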