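import Pool.Agent.T9h67.BSS.Plane
import Pool.Agent.T9h67.BSS.Rank

/-!
# Split rank

A nonzero polynomial which vanishes on `RootSum K n` has split rank greater than `2 ^ (n - 1)` for
each pair of variables.
-/

set_option autoImplicit false

open MvPolynomial

namespace Pool.Agent.T9h67.BSS

/-- `g` has split rank at most `w`: for two different variables `i` and `j` the polynomial is a sum
of `w` products `p l * q l` such that the variable `j` does not occur in `p l` and the variable `i`
does not occur in `q l`. The degrees are arbitrary, and all other variables may occur in both. -/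
def SplitRankLE {K : Type} [CommSemiring K] {n : ℕ} (w : ℕ) (g : MvPolynomial (Fin n) K) : Prop :=
  ∃ i j : Fin n, i ≠ j ∧ ∃ p q : Fin w → MvPolynomial (Fin n) K,
    (∀ l, j ∉ (p l).vars) ∧ (∀ l, i ∉ (q l).vars) ∧ g = ∑ l, p l * q l

theorem eq_zero_of_splitRankLE {K : Type} [Field K] [CharZero K] {n : ℕ}
    {g : MvPolynomial (Fin n) K} (hv : Vanish g) {w : ℕ} (hw : w ≤ 2 ^ (n - 1))
    (hg : SplitRankLE w g) : g = 0 := by
  classical
  by_contra hg0
  obtain ⟨i, j, hij, p, q, hp, hq, hpq⟩ := hg
  obtain ⟨a, C, hC, ⟨s0, t0, hst⟩, hzero⟩ := exists_plane hg0 hv hij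
  let P : Fin w → Polynomial K := fun l =>
    aeval (fun k => if k = i then Polynomial.X ^ 2 else Polynomial.C (a k ^ 2)) (p l)
  let Q : Fin w → Polynomial K := fun l =>
    aeval (fun k => if k = j then Polynomial.X ^ 2 else Polynomial.C (a k ^ 2)) (q l)
  have hP : ∀ l s t, (P l).eval s =
      eval (sq (Function.update (Function.update a i s) j t)) (p l) := by
    intro l s t
    simp only [P]
    rw [← Polynomial.coe_evalRingHom, MvPolynomial.aeval_def, MvPolynomial.eval₂_comp_left,
      ← MvPolynomial.coe_eval₂Hom]
    refine MvPolynomial.eval₂Hom_congr' ?_ ?_ rfl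
    · ext c; simp
    · intro k hk _
      have hkj : k ≠ j := fun h => hp l (h ▸ hk)
      simp only [Function.comp, sq]
      rw [Function.update_of_ne hkj]
      by_cases hki : k = i
      · subst hki
        simp
      · rw [if_neg hki, Function.update_of_ne hki]
        simp
  have hQ : ∀ l s t, (Q l).eval t =
      eval (sq (Function.update (Function.update a i s) j t)) (q l) := by
    intro l s t
    simp only [Q]
    rw [← Polynomial.coe_evalRingHom, MvPolynomial.aeval_def, MvPolynomial.eval₂_comp_left,
      ← MvPolynomial.coe_eval₂Hom]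
    refine MvPolynomial.eval₂Hom_congr' ?_ ?_ rfl
    · ext c; simp
    · intro k hk _
      have hki : k ≠ i := fun h => hq l (h ▸ hk)
      simp only [Function.comp, sq]
      by_cases hkj : k = j
      · subst hkj
        simp
      · rw [if_neg hkj, Function.update_of_ne hkj, Function.update_of_ne hki]
        simp
  have hPQ : ∀ s t, plane g i j a s t = ∑ l, (P l).eval s * (Q l).eval t := by
    intro s t
    unfold plane
    rw [hpq, map_sum]
    refine Finset.sum_congr rfl fun l _ => ?_
    rw [map_mul, hP l s t, hQ l s t]
  have h1 := card_lines_lt P Q C (fun c hc t => by rw [← hPQ]; exact hzero c hc t)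
    ⟨s0, t0, by rw [← hPQ]; exact hst⟩
  omega

end Pool.Agent.T9h67.BSS
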