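import Pool.Agent.T9h67.BSS.Lines
import Pool.Agent.T9h67.BSS.Plane

/-!
# Sums of products of powers
-/

set_option autoImplicit false

open MvPolynomial

namespace Pool.Agent.T9h67.BSS

/-- `g` is a sum of `t` products of arbitrary powers of polynomials `f k` whose degrees in two of the
variables, `i` and `j`, sum up to at most `R`. -/
def PowerSumLE {K : Type} [CommSemiring K] {n : ℕ} (t R : ℕ) (g : MvPolynomial (Fin n) K) : Prop :=
  ∃ i j : Fin n, i ≠ j ∧ ∃ (N : ℕ) (f : Fin N → MvPolynomial (Fin n) K) (e : Fin t → Fin N → ℕ),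
    ∑ k, (degreeOf i (f k) + degreeOf j (f k)) ≤ R ∧ g = ∑ l, ∏ k, f k ^ e l k

variable {K : Type} [Field K] {n : ℕ}

/-- Squares of the coordinates, in the coordinates `u = s + t` and `v = s - t`. -/
noncomputable def thetaX (i j : Fin n) (a : Fin n → K) (k : Fin n) : Polynomial (Polynomial K) :=
  if k = i then (Polynomial.C (Polynomial.C 2⁻¹) * (Polynomial.C Polynomial.X + Polynomial.X)) ^ 2
  else if k = j then
    (Polynomial.C (Polynomial.C 2⁻¹) * (Polynomial.C Polynomial.X - Polynomial.X)) ^ 2
  else Polynomial.C (Polynomial.C (a k ^ 2))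

/-- Restriction to a plane, in the coordinates `u = s + t` and `v = s - t`. -/
noncomputable def theta (i j : Fin n) (a : Fin n → K) :
    MvPolynomial (Fin n) K →+* Polynomial (Polynomial K) :=
  eval₂Hom (Polynomial.C.comp Polynomial.C) (thetaX i j a)

theorem eval_theta {i j : Fin n} (hij : i ≠ j) (a : Fin n → K) (g : MvPolynomial (Fin n) K)
    (c v : K) : ((theta i j a g).map (Polynomial.evalRingHom c)).eval v =
      plane g i j a (2⁻¹ * (c + v)) (2⁻¹ * (c - v)) := by
  unfold theta plane
  have h : ((Polynomial.evalRingHom v).comp (Polynomial.mapRingHom (Polynomial.evalRingHom c))).comp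
      (eval₂Hom (Polynomial.C.comp Polynomial.C) (thetaX i j a)) =
      eval (sq (Function.update (Function.update a i (2⁻¹ * (c + v))) j (2⁻¹ * (c - v)))) := by
    refine MvPolynomial.ringHom_ext ?_ ?_
    · intro r
      simp
    · intro k
      simp only [RingHom.comp_apply, eval₂Hom_X', eval_X, thetaX, sq]
      by_cases hkj : k = j
      · subst hkj
        rw [if_neg hij.symm, if_pos rfl, Function.update_self]
        simp
      · by_cases hki : k = i
        · subst hki
          rw [if_pos rfl, Function.update_of_ne hkj, Function.update_self]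
          simp
        · rw [if_neg hki, if_neg hkj, Function.update_of_ne hkj, Function.update_of_ne hki]
          simp
  exact congrArg (fun f : MvPolynomial (Fin n) K →+* K => f g) h

theorem tau_theta (i j : Fin n) (a : Fin n → K) (g : MvPolynomial (Fin n) K) :
    tau (theta i j a g) = theta i j a g := by
  have h : tau.comp (theta i j a) = theta i j a := by
    unfold theta
    refine MvPolynomial.ringHom_ext ?_ ?_
    · intro r
      simp [tau_C]
    · intro k
      simp only [RingHom.comp_apply, eval₂Hom_X', thetaX]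
      split_ifs
      · simp only [map_pow, map_mul, map_add, tau_C, tau_X, Polynomial.map_C, Polynomial.map_X]
        ring
      · simp only [map_pow, map_mul, map_sub, tau_C, tau_X, Polynomial.map_C, Polynomial.map_X]
        ring
      · simp [tau_C]
  exact congrArg (fun f : MvPolynomial (Fin n) K →+* Polynomial (Polynomial K) => f g) h

theorem BU_thetaX (i j : Fin n) (a : Fin n → K) (k : Fin n) :
    BU (if k = i ∨ k = j then 2 else 0) (thetaX i j a k) := by
  have hX : BU 1 (Polynomial.C Polynomial.X : Polynomial (Polynomial K)) := BU.C (by simp)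
  have hc : ∀ c : K, BU 0 (Polynomial.C (Polynomial.C c) : Polynomial (Polynomial K)) :=
    fun c => BU.C (by simp)
  unfold thetaX
  by_cases h1 : k = i
  · rw [if_pos h1, if_pos (Or.inl h1)]
    exact (BU.pow ((hc 2⁻¹).mul (hX.add (BU.X.mono (by norm_num)))) 2).mono (by norm_num)
  · by_cases h2 : k = j
    · rw [if_neg h1, if_pos h2, if_pos (Or.inr h2)]
      exact (BU.pow ((hc 2⁻¹).mul (hX.sub (BU.X.mono (by norm_num)))) 2).mono (by norm_num)
    · rw [if_neg h1, if_neg h2]
      exact (hc _).mono (Nat.zero_le _)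

theorem natDegree_thetaX (i j : Fin n) (a : Fin n → K) (k : Fin n) :
    (thetaX i j a k).natDegree ≤ (if k = i ∨ k = j then 2 else 0) := by
  have key : ∀ z : Polynomial (Polynomial K), z.natDegree ≤ 1 →
      ((Polynomial.C (Polynomial.C 2⁻¹) * z) ^ 2).natDegree ≤ 2 := by
    intro z hz
    refine Polynomial.natDegree_pow_le.trans ?_
    have := Polynomial.natDegree_C_mul_le (Polynomial.C (2⁻¹ : K)) z
    omega
  unfold thetaX
  by_cases h1 : k = i
  · rw [if_pos h1, if_pos (Or.inl h1)]
    exact key _ ((Polynomial.natDegree_add_le _ _).trans (by simp))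
  · by_cases h2 : k = j
    · rw [if_neg h1, if_pos h2, if_pos (Or.inr h2)]
      exact key _ ((Polynomial.natDegree_sub_le _ _).trans (by simp))
    · rw [if_neg h1, if_neg h2]
      simp

theorem sum_ite_le {i j : Fin n} (hij : i ≠ j) (m : Fin n →₀ ℕ) :
    ∑ k, m k * (if k = i ∨ k = j then 2 else 0) = 2 * (m i + m j) := by
  classical
  have h1 : ∀ k, m k * (if k = i ∨ k = j then 2 else 0) =
      (if k = i then 2 * m k else 0) + (if k = j then 2 * m k else 0) := by
    intro k
    by_cases h1 : k = i
    · have h2 : k ≠ j := fun h => hij (h1.symm.trans h)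
      simp [h1, hij]
      ring
    · by_cases h2 : k = j
      · simp [h2, hij.symm]
        ring
      · simp [h1, h2]
  rw [Finset.sum_congr rfl fun k _ => h1 k, Finset.sum_add_distrib,
    Finset.sum_ite_eq' Finset.univ i, Finset.sum_ite_eq' Finset.univ j,
    if_pos (Finset.mem_univ i), if_pos (Finset.mem_univ j)]
  ring

theorem BU_theta {i j : Fin n} (hij : i ≠ j) (a : Fin n → K) (g : MvPolynomial (Fin n) K) :
    BU (2 * (degreeOf i g + degreeOf j g)) (theta i j a g) := by
  classical
  unfold theta
  rw [coe_eval₂Hom, eval₂_eq']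
  refine BU.sum _ _ fun m hm => ?_
  have h1 : BU (0 + ∑ k, m k * (if k = i ∨ k = j then 2 else 0))
      ((Polynomial.C.comp Polynomial.C) (coeff m g) * ∏ k, thetaX i j a k ^ m k) :=
    BU.mul (BU.C (by simp)) (BU.prod _ _ _ fun k _ => BU.pow (BU_thetaX i j a k) (m k))
  refine h1.mono ?_
  rw [zero_add, sum_ite_le hij]
  have h2 := degreeOf_le_iff.1 (le_refl (degreeOf i g)) m hm
  have h3 := degreeOf_le_iff.1 (le_refl (degreeOf j g)) m hm
  omega

theorem natDegree_theta {i j : Fin n} (hij : i ≠ j) (a : Fin n → K)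
    (g : MvPolynomial (Fin n) K) :
    (theta i j a g).natDegree ≤ 2 * (degreeOf i g + degreeOf j g) := by
  classical
  unfold theta
  rw [coe_eval₂Hom, eval₂_eq']
  refine Polynomial.natDegree_sum_le_of_forall_le _ _ fun m hm => ?_
  refine Polynomial.natDegree_mul_le.trans ?_
  have h0 : ((Polynomial.C.comp Polynomial.C) (coeff m g) :
      Polynomial (Polynomial K)).natDegree = 0 := by simp
  rw [h0, zero_add]
  refine (Polynomial.natDegree_prod_le _ _).trans ?_
  refine (Finset.sum_le_sum fun k _ => Polynomial.natDegree_pow_le.trans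
    (Nat.mul_le_mul_left _ (natDegree_thetaX i j a k))).trans ?_
  rw [sum_ite_le hij]
  have h2 := degreeOf_le_iff.1 (le_refl (degreeOf i g)) m hm
  have h3 := degreeOf_le_iff.1 (le_refl (degreeOf j g)) m hm
  omega

/-- A sum of `t` power products of small degree which vanishes on `RootSum` is zero. -/
theorem eq_zero_of_powerSumLE [CharZero K] {g : MvPolynomial (Fin n) K} (hv : Vanish g) {t R : ℕ}
    (hR : 4 * R * t ^ 3 < 2 ^ n) (hg : PowerSumLE t R g) : g = 0 := by
  classical
  by_contra hg0
  obtain ⟨i, j, hij, N, f, e, hf, hgf⟩ := hg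
  obtain ⟨a, S, hS, ⟨s0, t0, hst⟩, hzero⟩ := exists_plane hg0 hv hij
  have hn : 2 ≤ n := by
    have h1 : (i : ℕ) ≠ j := fun h => hij (Fin.ext h)
    have h2 := i.isLt
    have h3 := j.isLt
    omega
  set G := theta i j a g with hG
  have hG0 : G ≠ 0 := by
    intro h0
    apply hst
    have h1 := eval_theta hij a g (s0 + t0) (s0 - t0)
    rw [← hG, h0, Polynomial.map_zero, Polynomial.eval_zero] at h1
    rw [h1]
    congr 1 <;> ring
  have hGc : ∀ c ∈ S, G.map (Polynomial.evalRingHom c) = 0 := by
    intro c hc
    refine Polynomial.funext fun v => ?_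
    rw [Polynomial.eval_zero, hG, eval_theta hij]
    have h1 := hzero c hc (2⁻¹ * (c - v))
    rw [← h1]
    congr 1
    ring
  -- the nonzero factors and terms
  let κ := {k : Fin N // theta i j a (f k) ≠ 0}
  let ι := {l : Fin t // ∀ k, theta i j a (f k) = 0 → e l k = 0}
  let F : κ → Polynomial (Polynomial K) := fun k => theta i j a (f k)
  let e' : ι → κ → ℕ := fun l k => e l k
  have hsum : G = ∑ l : ι, TT F (e' l) := by
    rw [hG, hgf, map_sum]
    have h1 : ∀ l : Fin t, theta i j a (∏ k, f k ^ e l k) =
        if (∀ k, theta i j a (f k) = 0 → e l k = 0) then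
          ∏ k : κ, theta i j a (f k) ^ e l k else 0 := by
      intro l
      rw [map_prod]
      split_ifs with hl
      · rw [← Finset.prod_subtype (Finset.univ.filter fun k => theta i j a (f k) ≠ 0)
          (fun k => by simp) (fun k => theta i j a (f k) ^ e l k)]
        symm
        rw [Finset.prod_congr rfl fun k _ => map_pow (theta i j a) (f k) (e l k)]
        refine Finset.prod_subset (Finset.filter_subset _ _) fun k _ hk => ?_
        rw [Finset.mem_filter, not_and, not_not] at hk
        rw [hl k (hk (Finset.mem_univ k)), pow_zero]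
      · push Not at hl
        obtain ⟨k, hk1, hk2⟩ := hl
        refine Finset.prod_eq_zero (Finset.mem_univ k) ?_
        rw [map_pow, hk1, zero_pow hk2]
    rw [Finset.sum_congr rfl fun l _ => h1 l, ← Finset.sum_filter]
    exact Finset.sum_subtype (Finset.univ.filter
      fun l : Fin t => ∀ k, theta i j a (f k) = 0 → e l k = 0) (fun l => by simp)
      (fun l => ∏ k : κ, theta i j a (f k) ^ e l k)
  have hcardι : Fintype.card ι ≤ t := by
    have := Fintype.card_subtype_le (fun l : Fin t => ∀ k, theta i j a (f k) = 0 → e l k = 0)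
    simpa using this
  have hsumd : ∑ k : κ, 2 * (degreeOf i (f k) + degreeOf j (f k)) ≤ 2 * R := by
    rw [← Finset.mul_sum]
    refine Nat.mul_le_mul_left _ (le_trans ?_ hf)
    rw [← Finset.sum_subtype (Finset.univ.filter fun k => theta i j a (f k) ≠ 0)
      (fun k => by simp) (fun k => degreeOf i (f k) + degreeOf j (f k))]
    exact Finset.sum_le_sum_of_subset (Finset.filter_subset _ _)
  apply hG0
  rw [hsum]
  refine sum_eq_zero_of_lines (F := F) (e := e') (d := fun k => 2 * (degreeOf i (f k) +
    degreeOf j (f k))) (fun k => k.2) (fun k => tau_theta i j a _) (fun k => BU_theta hij a _)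
    (fun k => natDegree_theta hij a _) S ?_ ?_
  · rw [hS]
    have h1 : (∑ k : κ, 2 * (degreeOf i (f k) + degreeOf j (f k))) * Fintype.card ι ^ 3 ≤
        2 * R * t ^ 3 := Nat.mul_le_mul hsumd (Nat.pow_le_pow_left hcardι 3)
    obtain ⟨m, rfl⟩ : ∃ m, n = m + 1 := ⟨n - 1, by omega⟩
    rw [Nat.add_sub_cancel]
    refine h1.trans_lt ?_
    have h2 : 2 ^ (m + 1) = 2 * 2 ^ m := by ring
    have h3 : 4 * R * t ^ 3 = 2 * (2 * R * t ^ 3) := by ring
    rw [h2, h3] at hR
    exact lt_of_mul_lt_mul_left hR (by norm_num)
  · rw [← hsum]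
    exact hGc

end Pool.Agent.T9h67.BSS
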