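import Pool.Agent.T9h67.BSS.Sharp

/-!
# Decision trees with tests of split rank at most `2 ^ (n - 1) + 1`
-/

set_option autoImplicit false

open MvPolynomial

namespace Pool.Agent.T9h67.BSS

theorem splitRankLE_X {K : Type} [Field K] {n : ℕ} (hn : 2 ≤ n) (w : ℕ) (i : Fin n) :
    SplitRankLE (w + 1) (X i : MvPolynomial (Fin n) K) := by
  classical
  obtain ⟨j, hj⟩ : ∃ j : Fin n, i ≠ j := by
    by_cases h : (i : ℕ) = 0
    · refine ⟨⟨1, by omega⟩, fun h2 => ?_⟩
      rw [h2] at h
      simp at h
    · exact ⟨⟨0, by omega⟩, fun h2 => h (by rw [h2])⟩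
  refine ⟨i, j, hj, fun l => if l = 0 then X i else 0, fun _ => 1, ?_, ?_, ?_⟩
  · intro l h
    by_cases hl : l = 0
    · simp only [hl, if_true] at h
      rw [vars_X, Finset.mem_singleton] at h
      exact hj h.symm
    · simp only [hl, if_false] at h
      simp at h
  · intro l h
    simp at h
  · simp

theorem exists_tree_complex {n : ℕ} (hn : 2 ≤ n) :
    ∃ T : Tree ℂ n Bool, T.Tests (SplitRankLE (2 ^ (n - 1) + 1)) ∧
      ∀ x, T.run (fun z => decide (z = 0)) x = true ↔ x ∈ RootSum ℂ n := by
  refine ⟨.node (red ℂ n) fun b => .leaf b, ⟨splitRankLE_red hn, fun _ => trivial⟩, fun x => ?_⟩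
  simp only [Tree.run]
  rw [decide_eq_true_iff, eval_red_eq_zero_iff]

/-- Tests whether all coordinates in the list are nonnegative. -/
noncomputable def nonnegTree {n : ℕ} : List (Fin n) → Tree ℝ n SignType
  | [] => .leaf true
  | i :: L => .node (X i) fun s => if s = -1 then .leaf false else nonnegTree L

theorem run_nonnegTree {n : ℕ} (L : List (Fin n)) (x : Fin n → ℝ) :
    (nonnegTree L).run SignType.sign x = true ↔ ∀ i ∈ L, 0 ≤ x i := by
  induction L with
  | nil => simp [nonnegTree, Tree.run]
  | cons i L ih =>
    simp only [nonnegTree, Tree.run, eval_X, List.forall_mem_cons]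
    split_ifs with h
    · rw [sign_eq_neg_one_iff] at h
      simp only [Tree.run, Bool.false_eq_true, false_iff]
      exact fun h2 => absurd h2.1 (not_le.2 h)
    · rw [sign_eq_neg_one_iff] at h
      rw [ih]
      exact ⟨fun h2 => ⟨not_lt.1 h, h2⟩, fun h2 => h2.2⟩

theorem exists_tree_real {n : ℕ} (hn : 2 ≤ n) :
    ∃ T : Tree ℝ n SignType, T.Tests (SplitRankLE (2 ^ (n - 1) + 1)) ∧
      ∀ x, T.run SignType.sign x = true ↔ x ∈ RootSum ℝ n := by
  refine ⟨.node (red ℝ n) fun s => if s = 0 then nonnegTree (List.finRange n) else .leaf false,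
    ⟨splitRankLE_red hn, fun s => ?_⟩, fun x => ?_⟩
  · beta_reduce
    split_ifs
    · have : ∀ L : List (Fin n), (nonnegTree L).Tests (SplitRankLE (2 ^ (n - 1) + 1)) := by
        intro L
        induction L with
        | nil => exact trivial
        | cons i L ih =>
          refine ⟨splitRankLE_X hn _ i, fun s => ?_⟩
          beta_reduce
          split_ifs
          · exact trivial
          · exact ih
      exact this _
    · exact trivial
  · simp only [Tree.run]
    constructor
    · intro h
      split_ifs at h with h1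
      · rw [run_nonnegTree] at h
        rw [sign_eq_zero_iff] at h1
        have hx : x = sq fun i => √(x i) := by
          funext i
          exact (Real.sq_sqrt (h i (List.mem_finRange i))).symm
        rw [hx, eval_red, Finset.prod_eq_zero_iff] at h1
        obtain ⟨ε, -, h2⟩ := h1
        refine ⟨fun k => sn ℝ (ε k) * √(x k), fun k => ?_, ?_⟩
        · have h3 := Real.sq_sqrt (h k (List.mem_finRange k))
          cases ε k <;> simp [sn, h3]
        · exact (sub_eq_zero.1 h2).symm
      · simp [Tree.run] at h
    · rintro ⟨z, hz1, hz2⟩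
      have hx : x = sq z := by funext i; exact (hz1 i).symm
      have h1 : eval x (red ℝ n) = 0 := by
        rw [hx, eval_red, Finset.prod_eq_zero_iff]
        refine ⟨fun _ => true, Finset.mem_univ _, ?_⟩
        simp [sn, hz2]
      rw [h1, sign_zero, if_pos rfl, run_nonnegTree]
      intro i _
      rw [← hz1 i]
      positivity

end Pool.Agent.T9h67.BSS
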