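import Mathlib

/-!
# Power products and their Wronskians

Let `F_k` be polynomials in two variables `u` (inner) and `v` (outer), and
`T_l = ∏ k, F_k ^ (e l k)`. The polynomials `U l i` with `Q ^ i ∂ ^ i T_l = T_l U l i`,
`Q = ∏ k, F_k`, have degrees bounded independently of the exponents.
-/

set_option autoImplicit false

open Polynomial

namespace Pool.Agent.T9h67.BSS

variable {K : Type} [Field K]

/-- All coefficients with respect to the outer variable have degree at most `d`. -/
def BU (d : ℕ) (f : K[X][X]) : Prop := ∀ a, (f.coeff a).natDegree ≤ d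

theorem BU.mono {d d' : ℕ} {f : K[X][X]} (h : BU d f) (hd : d ≤ d') : BU d' f :=
  fun a => (h a).trans hd

theorem BU.add {d : ℕ} {f g : K[X][X]} (hf : BU d f) (hg : BU d g) : BU d (f + g) := fun a => by
  rw [coeff_add]
  exact (natDegree_add_le _ _).trans (max_le (hf a) (hg a))

theorem BU.neg {d : ℕ} {f : K[X][X]} (hf : BU d f) : BU d (-f) := fun a => by
  rw [coeff_neg, natDegree_neg]
  exact hf a

theorem BU.sub {d : ℕ} {f g : K[X][X]} (hf : BU d f) (hg : BU d g) : BU d (f - g) := by
  rw [sub_eq_add_neg]
  exact hf.add hg.neg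

theorem BU.mul {d d' : ℕ} {f g : K[X][X]} (hf : BU d f) (hg : BU d' g) : BU (d + d') (f * g) :=
  fun a => by
    rw [coeff_mul]
    refine natDegree_sum_le_of_forall_le _ _ fun z _ => ?_
    exact natDegree_mul_le.trans (add_le_add (hf _) (hg _))

theorem BU.C {p : K[X]} {d : ℕ} (h : p.natDegree ≤ d) : BU d (Polynomial.C p) := fun a => by
  rw [coeff_C]
  split_ifs
  · exact h
  · simp

theorem BU.X : BU 0 (Polynomial.X : K[X][X]) := fun a => by
  rw [coeff_X]
  split_ifs <;> simp

theorem BU.one : BU 0 (1 : K[X][X]) := by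
  rw [← Polynomial.C_1]
  exact BU.C (by simp)

theorem BU.natCast (m : ℕ) : BU 0 (m : K[X][X]) := by
  rw [← Polynomial.C_eq_natCast]
  refine BU.C ?_
  rw [natDegree_natCast]

theorem BU.zero {d : ℕ} : BU d (0 : K[X][X]) := fun a => by simp

theorem BU.derivative {d : ℕ} {f : K[X][X]} (hf : BU d f) : BU d (derivative f) := fun a => by
  rw [coeff_derivative]
  refine natDegree_mul_le.trans ?_
  have : (((a : ℕ) : K[X]) + 1).natDegree = 0 := by
    rw [← Nat.cast_one, ← Nat.cast_add, natDegree_natCast]
  rw [this]
  exact hf _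

theorem BU.pow {d : ℕ} {f : K[X][X]} (hf : BU d f) (m : ℕ) : BU (m * d) (f ^ m) := by
  induction m with
  | zero => simpa using BU.one
  | succ m ih =>
    rw [pow_succ]
    exact (ih.mul hf).mono (by ring_nf; exact le_rfl)

theorem BU.sum {α : Type} {d : ℕ} (s : Finset α) (f : α → K[X][X]) (h : ∀ a ∈ s, BU d (f a)) :
    BU d (∑ a ∈ s, f a) := by
  classical
  induction s using Finset.induction_on with
  | empty => simpa using BU.zero
  | insert a s ha ih =>
    rw [Finset.sum_insert ha]
    exact (h a (Finset.mem_insert_self _ _)).add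
      (ih fun b hb => h b (Finset.mem_insert_of_mem hb))

theorem BU.prod {α : Type} (d : α → ℕ) (s : Finset α) (f : α → K[X][X])
    (h : ∀ a ∈ s, BU (d a) (f a)) : BU (∑ a ∈ s, d a) (∏ a ∈ s, f a) := by
  classical
  induction s using Finset.induction_on with
  | empty => simpa using BU.one
  | insert a s ha ih =>
    rw [Finset.prod_insert ha, Finset.sum_insert ha]
    exact (h a (Finset.mem_insert_self _ _)).mul
      (ih fun b hb => h b (Finset.mem_insert_of_mem hb))

theorem BU.zsmul {d : ℕ} {f : K[X][X]} (hf : BU d f) (z : ℤˣ) : BU d (z • f) := by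
  rcases Int.units_eq_one_or z with h | h
  · rw [h, one_smul]; exact hf
  · rw [h]
    simpa using hf.neg

theorem natDegree_zsmul' {f : K[X][X]} (z : ℤˣ) : (z • f).natDegree ≤ f.natDegree := by
  rcases Int.units_eq_one_or z with h | h
  · rw [h, one_smul]
  · rw [h]
    simp

theorem BU.det {s : ℕ} (M : Matrix (Fin s) (Fin s) K[X][X]) (d : Fin s → ℕ)
    (h : ∀ r a, BU (d r) (M r a)) : BU (∑ r, d r) M.det := by
  rw [Matrix.det_apply]
  refine BU.sum _ _ fun σ _ => ?_
  refine BU.zsmul ?_ _
  have h1 := BU.prod (fun a => d (σ a)) Finset.univ (fun a => M (σ a) a) fun a _ => h _ _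
  rwa [Equiv.sum_comp σ d] at h1

theorem natDegree_det_le {s : ℕ} (M : Matrix (Fin s) (Fin s) K[X][X]) (d : Fin s → ℕ)
    (h : ∀ r a, (M r a).natDegree ≤ d r) : M.det.natDegree ≤ ∑ r, d r := by
  rw [Matrix.det_apply]
  refine natDegree_sum_le_of_forall_le _ _ fun σ _ => ?_
  refine (natDegree_zsmul' _).trans ?_
  refine (natDegree_prod_le _ _).trans ?_
  rw [← Equiv.sum_comp σ d]
  exact Finset.sum_le_sum fun a _ => h _ _

/-- Exchange of the two variables. -/
noncomputable def tau : K[X][X] →+* K[X][X] := eval₂RingHom (mapRingHom Polynomial.C) (C X)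

theorem tau_C (p : K[X]) : tau (C p) = p.map Polynomial.C := by
  simp [tau]

theorem tau_X : tau (X : K[X][X]) = C X := by
  simp [tau]

theorem tau_tau (f : K[X][X]) : tau (tau f) = f := by
  have h : (tau.comp tau : K[X][X] →+* K[X][X]) = RingHom.id _ := by
    refine Polynomial.ringHom_ext' ?_ ?_
    · refine Polynomial.ringHom_ext' ?_ ?_
      · ext c
        simp [tau_C, tau_X]
      · simp [tau_C, tau_X]
    · simp [tau_C, tau_X]
  exact congrArg (fun g : K[X][X] →+* K[X][X] => g f) h

theorem tau_injective {f : K[X][X]} (h : tau f = 0) : f = 0 := by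
  rw [← tau_tau f, h, map_zero]

theorem BU_tau (f : K[X][X]) : BU f.natDegree (tau f) := by
  conv => arg 2; rw [f.as_sum_range_C_mul_X_pow]
  rw [map_sum]
  refine BU.sum _ _ fun a ha => ?_
  rw [map_mul, map_pow, tau_C, tau_X]
  have h1 : BU 0 ((f.coeff a).map (Polynomial.C : K →+* K[X])) := fun b => by
    rw [coeff_map, natDegree_C]
  have h2 : BU (a * 1) ((C X : K[X][X]) ^ a) := BU.pow (BU.C (by simp)) a
  refine (h1.mul h2).mono ?_
  rw [Finset.mem_range] at ha
  omega

theorem natDegree_eval_le {d : ℕ} {f : K[X][X]} (h : BU d f) (v : K) :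
    (f.eval (C v)).natDegree ≤ d := by
  rw [eval_eq_sum_range]
  refine natDegree_sum_le_of_forall_le _ _ fun a _ => ?_
  refine natDegree_mul_le.trans ?_
  rw [← C_pow, natDegree_C]
  exact h a

theorem exists_eval_ne [Infinite K] {f : K[X][X]} (hf : f ≠ 0) : ∃ v : K, f.eval (C v) ≠ 0 := by
  by_contra hcon
  push Not at hcon
  have h1 : (Set.range (C : K → K[X])).Infinite := Set.infinite_range_of_injective C_injective
  refine hf (eq_zero_of_infinite_isRoot f (h1.mono ?_))
  rintro _ ⟨v, rfl⟩
  exact hcon v

theorem card_bad_le {d : ℕ} {f : K[X][X]} (hf : f ≠ 0) (h : BU d f) (S : Finset K)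
    (hS : ∀ c ∈ S, f.map (evalRingHom c) = 0) : S.card ≤ d := by
  classical
  obtain ⟨a, ha⟩ : ∃ a, f.coeff a ≠ 0 := by
    by_contra hcon
    push Not at hcon
    exact hf (Polynomial.ext (by simpa using hcon))
  refine le_trans ?_ (h a)
  refine Polynomial.card_le_degree_of_subset_roots (p := f.coeff a) ?_
  intro c hc
  rw [mem_roots ha]
  have := congrArg (fun p : K[X] => p.coeff a) (hS c hc)
  simpa [coeff_map] using this

/-- If the quotient of two polynomials has derivative zero, then it is constant. -/
theorem const_of_derivative {R : Type} [CommRing R] [IsDomain R] [CharZero R] {E c : R[X]}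
    (hE : E ≠ 0) (h : E * derivative c = derivative E * c) :
    C E.leadingCoeff * c = C c.leadingCoeff * E := by
  by_cases hc : c = 0
  · simp [hc]
  have key : ∀ f : R[X], f ≠ 0 → E * derivative f = derivative E * f →
      f.natDegree = E.natDegree := by
    intro f hf hEf
    have h1 : ∀ p q : R[X], (p * derivative q).coeff (p.natDegree + q.natDegree - 1) =
        (q.natDegree : R) * (p.leadingCoeff * q.leadingCoeff) := by
      intro p q
      rcases Nat.eq_zero_or_pos q.natDegree with h0 | h0
      · rw [h0, natDegree_eq_zero.1 h0 |>.choose_spec.symm]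
        simp
      · have h2 : p.natDegree + q.natDegree - 1 = p.natDegree + (q.natDegree - 1) := by omega
        rw [h2, coeff_mul_add_eq_of_natDegree_le (le_refl _) (natDegree_derivative_le q)]
        rw [coeff_derivative]
        have h3 : q.natDegree - 1 + 1 = q.natDegree := by omega
        rw [h3]
        have h4 : (((q.natDegree - 1 : ℕ) : R) + 1) = (q.natDegree : R) := by
          exact_mod_cast congrArg (Nat.cast (R := R)) h3
        rw [h4]
        simp only [leadingCoeff]
        ring
    have h2 := h1 E f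
    have h3 := h1 f E
    rw [hEf, mul_comm (derivative E) f] at h2
    rw [add_comm f.natDegree E.natDegree] at h3
    rw [h2] at h3
    rw [mul_comm f.leadingCoeff E.leadingCoeff] at h3
    have h4 := mul_right_cancel₀ (mul_ne_zero (leadingCoeff_ne_zero.2 hE)
      (leadingCoeff_ne_zero.2 hf)) h3
    exact_mod_cast h4
  by_contra hne
  set f := C E.leadingCoeff * c - C c.leadingCoeff * E with hf
  have hf0 : f ≠ 0 := sub_ne_zero.2 hne
  have h1 : E * derivative f = derivative E * f := by
    rw [hf]
    simp only [derivative_sub, derivative_mul, derivative_C]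
    linear_combination (C E.leadingCoeff) * h
  have h2 := key f hf0 h1
  have h3 := key c hc h
  have h4 : f.coeff E.natDegree = 0 := by
    rw [hf, coeff_sub, coeff_C_mul, coeff_C_mul]
    rw [← h3]
    simp only [leadingCoeff, h3]
    ring
  rw [← h2] at h4
  exact hf0 (leadingCoeff_eq_zero.1 h4)

section products

variable {κ : Type} [Fintype κ] [DecidableEq κ] (F : κ → K[X][X])

/-- The product of all `F k`. -/
noncomputable def QQ : K[X][X] := ∏ k, F k

/-- `∏ k, F k ^ e k`. -/
noncomputable def TT (e : κ → ℕ) : K[X][X] := ∏ k, F k ^ e k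

/-- The numerator of the logarithmic derivative. -/
noncomputable def VV (e : κ → ℕ) : K[X][X] :=
  ∑ k, (e k : K[X][X]) * (derivative (F k) * ∏ k' ∈ Finset.univ.erase k, F k')

theorem logder (e : κ → ℕ) : derivative (TT F e) * QQ F = TT F e * VV F e := by
  classical
  have hk : ∀ k, derivative (F k) * QQ F =
      F k * (derivative (F k) * ∏ k' ∈ Finset.univ.erase k, F k') := by
    intro k
    unfold QQ
    rw [← Finset.mul_prod_erase _ _ (Finset.mem_univ k)]
    ring
  have hpow : ∀ k (m : ℕ), derivative (F k ^ m) * QQ F =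
      F k ^ m * ((m : K[X][X]) * (derivative (F k) * ∏ k' ∈ Finset.univ.erase k, F k')) := by
    intro k m
    rw [derivative_pow]
    rcases m with _ | m
    · simp
    · rw [Nat.add_sub_cancel, map_natCast, mul_assoc, mul_assoc, hk, pow_succ]
      ring
  have hs : ∀ s : Finset κ, derivative (∏ k ∈ s, F k ^ e k) * QQ F = (∏ k ∈ s, F k ^ e k) *
      ∑ k ∈ s, (e k : K[X][X]) * (derivative (F k) * ∏ k' ∈ Finset.univ.erase k, F k') := by
    intro s
    induction s using Finset.induction_on with
    | empty => simp
    | insert a s ha ih =>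
      rw [Finset.prod_insert ha, Finset.sum_insert ha, derivative_mul, add_mul,
        mul_assoc (F a ^ e a), ih, mul_right_comm, hpow]
      ring
  exact hs Finset.univ

/-- `Q ^ i ∂ ^ i T = T U i`. -/
noncomputable def UU (e : κ → ℕ) : ℕ → K[X][X]
  | 0 => 1
  | i + 1 => QQ F * derivative (UU e i) + (VV F e - (i : K[X][X]) * derivative (QQ F)) * UU e i

theorem UU_spec (e : κ → ℕ) (i : ℕ) :
    QQ F ^ i * derivative^[i] (TT F e) = TT F e * UU F e i := by
  induction i with
  | zero => simp [UU]
  | succ i ih =>
    have h1 := congrArg (fun p => derivative p * QQ F) ih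
    simp only [derivative_mul, add_mul] at h1
    rw [Function.iterate_succ_apply']
    have h2 : derivative (QQ F ^ i) * derivative^[i] (TT F e) * QQ F =
        (i : K[X][X]) * derivative (QQ F) * (QQ F ^ i * derivative^[i] (TT F e)) := by
      rw [derivative_pow]
      rcases i with _ | i
      · simp
      · rw [Nat.add_sub_cancel, map_natCast, pow_succ]
        ring
    rw [h2, ih] at h1
    have h3 := logder F e
    rw [UU, pow_succ]
    linear_combination h1 + UU F e i * h3

theorem BU_UU {d : κ → ℕ} (hd : ∀ k, BU (d k) (F k)) (e : κ → ℕ) (i : ℕ) :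
    BU (i * ∑ k, d k) (UU F e i) := by
  have hQ : BU (∑ k, d k) (QQ F) := BU.prod d _ _ fun k _ => hd k
  have hV : BU (∑ k, d k) (VV F e) := by
    refine BU.sum _ _ fun k _ => ?_
    have h1 := (BU.natCast (K := K) (e k)).mul
      (((hd k).derivative).mul (BU.prod d (Finset.univ.erase k) F fun k' _ => hd k'))
    refine h1.mono ?_
    rw [zero_add, Finset.add_sum_erase _ _ (Finset.mem_univ k)]
  induction i with
  | zero => simpa [UU] using BU.one
  | succ i ih =>
    rw [UU]
    refine BU.add ?_ ?_
    · exact (hQ.mul ih.derivative).mono (by ring_nf; exact le_rfl)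
    · refine (BU.mul (BU.sub hV ((BU.natCast i).mul hQ.derivative |>.mono (by rw [zero_add])))
        ih).mono (by ring_nf; exact le_rfl)

theorem natDegree_UU {d : κ → ℕ} (hd : ∀ k, (F k).natDegree ≤ d k) (e : κ → ℕ) (i : ℕ) :
    (UU F e i).natDegree ≤ i * ∑ k, d k := by
  have hQ : (QQ F).natDegree ≤ ∑ k, d k :=
    (natDegree_prod_le _ _).trans (Finset.sum_le_sum fun k _ => hd k)
  have hder : ∀ f : K[X][X], (derivative f).natDegree ≤ f.natDegree := fun f =>
    (natDegree_derivative_le f).trans (Nat.sub_le _ _)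
  have hV : (VV F e).natDegree ≤ ∑ k, d k := by
    refine natDegree_sum_le_of_forall_le _ _ fun k _ => ?_
    refine natDegree_mul_le.trans ?_
    rw [natDegree_natCast, zero_add]
    refine natDegree_mul_le.trans ?_
    rw [← Finset.add_sum_erase _ _ (Finset.mem_univ k)]
    refine add_le_add ((hder _).trans (hd k)) ?_
    exact (natDegree_prod_le _ _).trans (Finset.sum_le_sum fun k _ => hd k)
  induction i with
  | zero => simp [UU]
  | succ i ih =>
    rw [UU]
    refine (natDegree_add_le _ _).trans (max_le ?_ ?_)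
    · refine natDegree_mul_le.trans ((add_le_add hQ ((hder _).trans ih)).trans ?_)
      ring_nf; exact le_rfl
    · refine natDegree_mul_le.trans ((add_le_add ?_ ih).trans (b := ∑ k, d k + i * ∑ k, d k) ?_)
      · refine (natDegree_sub_le _ _).trans (max_le hV ?_)
        refine natDegree_mul_le.trans ?_
        rw [natDegree_natCast, zero_add]
        exact (hder _).trans hQ
      · ring_nf; exact le_rfl

end products

end Pool.Agent.T9h67.BSS
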